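import Pool.Agent.NUSea.Sea

/-!
# The two seas: rows at `0` and rows at `± l / 2`
-/

set_option autoImplicit false
set_option linter.unusedSectionVars false

open MeasureTheory Set Filter Topology Complex

namespace NUSea

open NUMF (l l_pos)

noncomputable section

lemma l8 : 8 * l = Real.pi := by unfold NUMF.l; ring

/-- rows at `0` -/
@[reducible] def seaP : Sea where
  dens := NUMF.P
  densc := NUMF.Pc
  fs := NUAct.vs
  fx := NUAct.vx
  real := NUMF.Pc_ofReal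
  diff := fun z hz => NUMF.Pc_diff (hz.trans (by have := l_pos; linarith))
  bd := fun n b hb0 hb => NUMF.Pc_deriv_exp hb0 (hb.trans (by have := l_pos; linarith)) n
  low := ⟨4 / (√3 * Real.pi), by
    have := NUMF.sq3_pos
    have := Real.pi_pos
    positivity, NUMF.le_P⟩
  even := NUMF.P_neg
  mass := NUMF.integral_P
  conv_s := NUAct.real_s
  conv_x := NUAct.real_x
  fs_diff := fun z hz => NUAct.diff_vs (hz.trans (by have := l_pos; linarith))
  fx_diff := fun z hz => NUAct.diff_vx (hz.trans (by have := l_pos; linarith))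
  fs_gr := by
    obtain ⟨K, hK, h⟩ := NUAct.vs_gr
    exact ⟨K, hK, fun z hz => h z (hz.trans (by have := l_pos; linarith))⟩
  fx_gr := by
    obtain ⟨K, hK, h⟩ := NUAct.vx_gr
    exact ⟨K, hK, fun z hz => h z (hz.trans (by have := l_pos; linarith))⟩

/-! ### rows at `± l / 2` -/

/-- average over the two translates by `± i l / 2` -/
def av (F : ℂ → ℂ) (z : ℂ) : ℂ := (F (z + (l / 2 : ℝ) * I) + F (z - (l / 2 : ℝ) * I)) / 2

/-- the density, rows at `± l / 2` -/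
def Phc : ℂ → ℂ := av NUMF.Pc

/-- `(4 / π) cosh 2x / (cosh x (2 cosh 2x - 1))`, `x = 8 t / 3` -/
def Ph (t : ℝ) : ℝ :=
  4 / Real.pi * ((2 * NUMF.ch t ^ 2 - 1) / (NUMF.ch t * (4 * NUMF.ch t ^ 2 - 3)))

lemma d3_pos (t : ℝ) : 0 < 4 * NUMF.ch t ^ 2 - 3 := by
  have := NUMF.one_le_ch t
  nlinarith

/-- one translate -/
lemma half_eq {C S : ℝ} (hCS : C ^ 2 = S ^ 2 + 1) (hC : 1 ≤ C) (σ : ℝ) (hσ : σ ^ 2 = 1) :
    1 / ((√3 : ℝ) * (C : ℂ) + σ * I * S - 1) + 1 / ((√3 : ℝ) * (C : ℂ) + σ * I * S + 1) =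
      ((√3 : ℝ) * (2 * (C : ℂ) ^ 2 - 1) - 2 * σ * I * C * S) / (C * (4 * (C : ℂ) ^ 2 - 3)) := by
  have hC' : (C : ℂ) ≠ 0 := by
    rw [Complex.ofReal_ne_zero]; linarith
  have hCS' : (C : ℂ) ^ 2 = (S : ℂ) ^ 2 + 1 := by exact_mod_cast hCS
  have hσ' : (σ : ℂ) ^ 2 = 1 := by exact_mod_cast hσ
  have h3 := NUMF.csq3
  have hI := Complex.I_mul_I
  have hd : (4 * (C : ℂ) ^ 2 - 3) ≠ 0 := by
    have : (4 * C ^ 2 - 3 : ℝ) ≠ 0 := by nlinarith
    exact_mod_cast this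
  have n0 : (C : ℂ) + σ * (√3 : ℝ) * I * S ≠ 0 := by
    intro e
    have h := congrArg Complex.re e
    have e2 : (C : ℂ) + σ * (√3 : ℝ) * I * S = (C : ℂ) + ((σ * √3 * S : ℝ) : ℂ) * I := by
      push_cast; ring
    rw [e2] at h
    simp only [add_re, ofReal_re, mul_re, ofReal_im, I_re, I_im, mul_zero, zero_mul, sub_zero,
      add_zero, zero_re] at h
    linarith
  have key : ((√3 : ℝ) * (C : ℂ) + σ * I * S - 1) * ((√3 : ℝ) * (C : ℂ) + σ * I * S + 1) =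
      2 * C * (C + σ * (√3 : ℝ) * I * S) := by
    linear_combination (C : ℂ) ^ 2 * h3 + (σ : ℂ) ^ 2 * (S : ℂ) ^ 2 * hI - (S : ℂ) ^ 2 * hσ' + hCS'
  have hne : (2 : ℂ) * C * (C + σ * (√3 : ℝ) * I * S) ≠ 0 :=
    mul_ne_zero (mul_ne_zero two_ne_zero hC') n0
  have h12 := key ▸ hne
  have n1 := left_ne_zero_of_mul h12
  have n2 := right_ne_zero_of_mul h12
  rw [div_add_div _ _ n1 n2, key, div_eq_div_iff hne (mul_ne_zero hC' hd)]
  linear_combination (-2 * (σ : ℂ) * I * S * C * (2 * (C : ℂ) ^ 2 - 1)) * h3 +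
    (4 * ((√3 : ℝ) : ℂ) * (C : ℂ) ^ 2 * (σ : ℂ) ^ 2 * (S : ℂ) ^ 2) * hI -
    (4 * ((√3 : ℝ) : ℂ) * (C : ℂ) ^ 2 * (S : ℂ) ^ 2) * hσ' +
    (4 * ((√3 : ℝ) : ℂ) * (C : ℂ) ^ 2) * hCS'

lemma cos_pi_6 : Complex.cos (Real.pi / 6) = (√3 : ℝ) / 2 := by
  have h := Real.cos_pi_div_six
  have : Complex.cos ((Real.pi / 6 : ℝ) : ℂ) = ((√3 / 2 : ℝ) : ℂ) := by
    rw [← Complex.ofReal_cos, h]
  push_cast at this
  exact this

lemma sin_pi_6 : Complex.sin (Real.pi / 6) = 1 / 2 := by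
  have h := Real.sin_pi_div_six
  have : Complex.sin ((Real.pi / 6 : ℝ) : ℂ) = ((1 / 2 : ℝ) : ℂ) := by
    rw [← Complex.ofReal_sin, h]
  push_cast at this
  exact this

lemma shift_eq (t : ℝ) {σ : ℝ} (hσ : σ = 1 ∨ σ = -1) :
    NUMF.Pc ((t : ℂ) + σ * (l / 2 : ℝ) * I) = 4 / (√3 * Real.pi : ℝ) *
      (((√3 : ℝ) * (2 * (NUMF.ch t : ℂ) ^ 2 - 1) - 2 * σ * I * NUMF.ch t *
        Real.sinh (8 / 3 * t)) / (NUMF.ch t * (4 * (NUMF.ch t : ℂ) ^ 2 - 3))) := by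
  have e : 8 / 3 * ((t : ℂ) + σ * (l / 2 : ℝ) * I) =
      ((8 / 3 * t : ℝ) : ℂ) + (σ * (Real.pi / 6 : ℝ) : ℝ) * I := by
    unfold NUMF.l; push_cast; ring
  have h1 := half_eq (Real.cosh_sq (8 / 3 * t)) (NUMF.one_le_ch t) σ (by
    rcases hσ with h | h <;> rw [h] <;> norm_num)
  have e1 : 2 * Complex.cosh (8 / 3 * ((t : ℂ) + σ * (l / 2 : ℝ) * I)) =
      (√3 : ℝ) * (Real.cosh (8 / 3 * t) : ℂ) + σ * I * Real.sinh (8 / 3 * t) := by
    rw [e, Complex.cosh_add, Complex.cosh_mul_I, Complex.sinh_mul_I, ← Complex.ofReal_cosh,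
      ← Complex.ofReal_sinh]
    rcases hσ with h | h
    · rw [h]
      push_cast
      rw [one_mul, cos_pi_6, sin_pi_6]
      push_cast
      ring
    · rw [h]
      push_cast
      rw [neg_one_mul, Complex.cos_neg, Complex.sin_neg, cos_pi_6, sin_pi_6]
      push_cast
      ring
  unfold NUMF.Pc
  rw [e1, h1]
  rfl

lemma av_eq (F : ℂ → ℂ) (z : ℂ) : av F z = (F (z + ((1 : ℝ) : ℂ) * (l / 2 : ℝ) * I) +
    F (z + ((-1 : ℝ) : ℂ) * (l / 2 : ℝ) * I)) / 2 := by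
  unfold av
  have e1 : z + ((1 : ℝ) : ℂ) * (l / 2 : ℝ) * I = z + (l / 2 : ℝ) * I := by push_cast; ring
  have e2 : z + ((-1 : ℝ) : ℂ) * (l / 2 : ℝ) * I = z - (l / 2 : ℝ) * I := by push_cast; ring
  rw [e1, e2]

lemma Phc_ofReal (t : ℝ) : Phc t = (Ph t : ℂ) := by
  have h1 := shift_eq t (σ := 1) (Or.inl rfl)
  have h2 := shift_eq t (σ := -1) (Or.inr rfl)
  have hc := (NUMF.ch_pos t).ne'
  have hd := (d3_pos t).ne'
  have h3 := NUMF.sq3_pos.ne'
  have hpi := Real.pi_ne_zero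
  unfold Phc
  rw [av_eq, h1, h2]
  have hc' : (NUMF.ch t : ℂ) ≠ 0 := by exact_mod_cast hc
  have hd' : (4 * (NUMF.ch t : ℂ) ^ 2 - 3) ≠ 0 := by exact_mod_cast hd
  have h3' : ((√3 : ℝ) : ℂ) ≠ 0 := by exact_mod_cast h3
  have hpi' : (Real.pi : ℂ) ≠ 0 := by exact_mod_cast hpi
  unfold Ph
  push_cast
  field_simp
  ring

lemma Ph_neg (t : ℝ) : Ph (-t) = Ph t := by
  unfold Ph
  rw [NUMF.ch_neg]

lemma Ph_low (t : ℝ) : 2 / Real.pi * Real.exp (-(8 / 3) * |t|) ≤ Ph t := by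
  have h1 := NUMF.one_le_ch t
  have h2 := d3_pos t
  have hpi := Real.pi_pos
  have h3 : NUMF.ch t * Real.exp (-(8 / 3) * |t|) ≤ 1 := by
    have e : NUMF.ch t = (Real.exp (8 / 3 * |t|) + Real.exp (-(8 / 3) * |t|)) / 2 := by
      unfold NUMF.ch
      rw [← Real.cosh_abs, abs_mul, abs_of_pos (by norm_num : (0:ℝ) < 8 / 3), Real.cosh_eq]
      ring_nf
    have h4 : Real.exp (8 / 3 * |t|) * Real.exp (-(8 / 3) * |t|) = 1 := by
      rw [← Real.exp_add]
      have : 8 / 3 * |t| + -(8 / 3) * |t| = 0 := by ring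
      rw [this, Real.exp_zero]
    have h5 : Real.exp (-(8 / 3) * |t|) ≤ 1 := Real.exp_le_one_iff.2 (by
      have := abs_nonneg t
      linarith)
    have h6 := Real.exp_pos (-(8 / 3) * |t|)
    rw [e]
    nlinarith
  have hc : 0 < NUMF.ch t := by linarith
  have h4 : Real.exp (-(8 / 3) * |t|) ≤ 1 / NUMF.ch t := by
    rw [le_div_iff₀ hc, mul_comm]
    exact h3
  have h5 : 1 / 2 * (1 / NUMF.ch t) ≤ (2 * NUMF.ch t ^ 2 - 1) / (NUMF.ch t * (4 * NUMF.ch t ^ 2 - 3)) := by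
    rw [le_div_iff₀ (mul_pos hc h2)]
    have : 1 / 2 * (1 / NUMF.ch t) * (NUMF.ch t * (4 * NUMF.ch t ^ 2 - 3)) =
        (4 * NUMF.ch t ^ 2 - 3) / 2 := by
      field_simp
    rw [this]
    linarith
  unfold Ph
  calc 2 / Real.pi * Real.exp (-(8 / 3) * |t|) ≤ 2 / Real.pi * (1 / NUMF.ch t) := by gcongr
    _ = 4 / Real.pi * (1 / 2 * (1 / NUMF.ch t)) := by ring
    _ ≤ _ := by gcongr

lemma im_up {z : ℂ} {b : ℝ} (hz : |z.im| ≤ b) : |(z + (l / 2 : ℝ) * I).im| ≤ b + l / 2 := by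
  have e : (z + (l / 2 : ℝ) * I).im = z.im + l / 2 := by simp
  have hl := l_pos
  rw [e]
  refine (abs_add_le _ _).trans ?_
  rw [abs_of_pos (by linarith : 0 < l / 2)]
  linarith

lemma im_dn {z : ℂ} {b : ℝ} (hz : |z.im| ≤ b) : |(z - (l / 2 : ℝ) * I).im| ≤ b + l / 2 := by
  have e : (z - (l / 2 : ℝ) * I).im = z.im - l / 2 := by simp
  have hl := l_pos
  rw [e]
  refine (abs_sub _ _).trans ?_
  rw [abs_of_pos (by linarith : 0 < l / 2)]
  linarith

lemma re_up (z : ℂ) : (z + (l / 2 : ℝ) * I).re = z.re := by simp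

lemma re_dn (z : ℂ) : (z - (l / 2 : ℝ) * I).re = z.re := by simp

lemma av_diff {F : ℂ → ℂ} (hF : ∀ z : ℂ, |z.im| < l → DifferentiableAt ℂ F z) {z : ℂ}
    (hz : |z.im| < l / 2) : DifferentiableAt ℂ (av F) z := by
  have h1 : |(z + (l / 2 : ℝ) * I).im| < l :=
    (im_up (le_refl |z.im|)).trans_lt (by linarith)
  have h2 : |(z - (l / 2 : ℝ) * I).im| < l :=
    (im_dn (le_refl |z.im|)).trans_lt (by linarith)
  unfold av
  refine DifferentiableAt.div_const (DifferentiableAt.add ?_ ?_) _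
  · exact (hF _ h1).comp z (differentiableAt_id.add_const _)
  · exact (hF _ h2).comp z (differentiableAt_id.sub_const _)

lemma iter_Phc (n : ℕ) {z : ℂ} (hz : |z.im| < l / 2) :
    iteratedDeriv n Phc z = av (iteratedDeriv n NUMF.Pc) z := by
  induction n generalizing z with
  | zero => simp only [iteratedDeriv_zero]; rfl
  | succ n ih =>
    have hm : {z : ℂ | |z.im| < l / 2} ∈ 𝓝 z := strip_open.mem_nhds hz
    have h1 : |(z + (l / 2 : ℝ) * I).im| < l :=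
      (im_up (le_refl |z.im|)).trans_lt (by linarith)
    have h2 : |(z - (l / 2 : ℝ) * I).im| < l :=
      (im_dn (le_refl |z.im|)).trans_lt (by linarith)
    have e1 : iteratedDeriv n Phc =ᶠ[𝓝 z] av (iteratedDeriv n NUMF.Pc) := by
      filter_upwards [hm] with w hw
      exact ih hw
    rw [iteratedDeriv_succ, e1.deriv_eq]
    have d1 := (NUAct.hasDerivAt_iter n h1).comp z ((hasDerivAt_id z).add_const ((l / 2 : ℝ) * I))
    have d2 := (NUAct.hasDerivAt_iter n h2).comp z ((hasDerivAt_id z).sub_const ((l / 2 : ℝ) * I))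
    rw [mul_one] at d1 d2
    exact ((d1.add d2).div_const 2).deriv

lemma Phc_bd (n : ℕ) (b : ℝ) (hb0 : 0 ≤ b) (hb : b < l / 2) : ∃ C : ℝ, 0 ≤ C ∧
    ∀ z : ℂ, |z.im| ≤ b → ‖iteratedDeriv n Phc z‖ ≤ C * Real.exp (-(8 / 3) * |z.re|) := by
  have hl := l_pos
  obtain ⟨C, hC, h⟩ := NUMF.Pc_deriv_exp (b := b + l / 2) (by linarith) (by linarith) n
  refine ⟨C, hC, fun z hz => ?_⟩
  have h1 := h _ (im_up hz)
  have h2 := h _ (im_dn hz)
  rw [re_up] at h1
  rw [re_dn] at h2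
  rw [iter_Phc n (hz.trans_lt hb)]
  unfold av
  rw [norm_div, Complex.norm_ofNat, div_le_iff₀ two_pos]
  exact (norm_add_le _ _).trans (by linarith)

lemma av_gr {y : ℝ} (hy : |y| ≤ 3 * l) : ∃ K : ℝ, 0 ≤ K ∧ ∀ z : ℂ, |z.im| ≤ 3 * l / 4 →
    ‖NUAct.Ly y z‖ ≤ K * (1 + |z.re|) := by
  have hl := l_pos
  have h8 := l8
  exact NUAct.Ly_gr (b := 3 * l / 4) (y := y) (by linarith) (by linarith)

lemma av_gr' {F : ℂ → ℂ} {K : ℝ} (hF : ∀ z : ℂ, |z.im| ≤ 3 * l / 4 → ‖F z‖ ≤ K * (1 + |z.re|))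
    {z : ℂ} (hz : |z.im| ≤ l / 4) : ‖av F z‖ ≤ K * (1 + |z.re|) := by
  have hl := l_pos
  have h1 := hF _ ((im_up hz).trans (by linarith))
  have h2 := hF _ ((im_dn hz).trans (by linarith))
  rw [re_up] at h1
  rw [re_dn] at h2
  unfold av
  rw [norm_div, Complex.norm_ofNat, div_le_iff₀ two_pos]
  exact (norm_add_le _ _).trans (by linarith)

lemma conv_h {k : ℝ → ℂ} {K : ℝ} (hk : AEStronglyMeasurable k)
    (hkb : ∀ u : ℝ, u ≠ 0 → ‖k u‖ ≤ K * NUAct.gr |u|) {F : ℂ → ℂ}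
    (hF : ∀ z : ℂ, |z.im| < l → ∫ u : ℝ, NUMF.Pc (z - u) * k u = F z) (x : ℝ) :
    ∫ u : ℝ, (Ph (x - u) : ℂ) * k u = av F x := by
  have hl := l_pos
  have h1 : |((x : ℂ) + (l / 2 : ℝ) * I).im| < l := by
    refine (im_up (b := 0) (by simp)).trans_lt (by linarith)
  have h2 : |((x : ℂ) - (l / 2 : ℝ) * I).im| < l := by
    refine (im_dn (b := 0) (by simp)).trans_lt (by linarith)
  have i1 := NUAct.J_int hk hkb h1
  have i2 := NUAct.J_int hk hkb h2
  unfold av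
  rw [← hF _ h1, ← hF _ h2, ← integral_add i1 i2, ← integral_div]
  refine integral_congr_ae (Eventually.of_forall fun u => ?_)
  simp only
  rw [← Phc_ofReal]
  unfold Phc av
  have e1 : ((x - u : ℝ) : ℂ) + (l / 2 : ℝ) * I = (x : ℂ) + (l / 2 : ℝ) * I - u := by
    push_cast; ring
  have e2 : ((x - u : ℝ) : ℂ) - (l / 2 : ℝ) * I = (x : ℂ) - (l / 2 : ℝ) * I - u := by
    push_cast; ring
  rw [e1, e2]
  ring

lemma hpath {y : ℝ} (hy : |y| ≤ l / 2) :
    NUAct.Path (l / 2) 1 (1 + l / 2) (fun t : ℝ => (t : ℂ) + y * I) (fun _ => 1) where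
  der := fun t => (Complex.ofRealCLM.hasDerivAt (x := t)).add_const _
  cont := continuous_const
  im_le := fun t => by simpa using hy
  dle := fun t => by rw [norm_one]; have := l_pos; linarith
  c_pos := one_pos
  c_le := le_rfl
  mono := fun s t _ => by simp
  near := fun t => by
    rw [add_sub_cancel_left, norm_mul, Complex.norm_I, mul_one, Complex.norm_real,
      Real.norm_eq_abs]
    linarith

lemma Pc_shift {y : ℝ} (hy : |y| ≤ l / 2) : Integrable (fun t : ℝ => NUMF.Pc ((t : ℂ) + y * I)) ∧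
    ∫ t : ℝ, NUMF.Pc ((t : ℂ) + y * I) = 1 := by
  have hl := l_pos
  obtain ⟨C, hC, hD⟩ := NUAct.Pc_dec (b := l / 2) (by linarith) (by linarith)
  obtain ⟨i1, i2, e⟩ := NUAct.path_shift (by norm_num) hD (hpath hy)
  simp only [mul_one] at i1 e
  refine ⟨i1, ?_⟩
  rw [e]
  simp only [NUMF.Pc_ofReal]
  rw [integral_complex_ofReal, NUMF.integral_P]
  simp

lemma Ph_mass : ∫ t, Ph t = 1 := by
  have hl := l_pos
  have h1 := Pc_shift (y := l / 2) (by rw [abs_of_pos (by linarith)])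
  have h2 := Pc_shift (y := -(l / 2)) (by rw [abs_neg, abs_of_pos (by linarith)])
  have e : ∫ t : ℝ, (Ph t : ℂ) = 1 := by
    have e1 : (fun t : ℝ => (Ph t : ℂ)) = fun t : ℝ => (NUMF.Pc ((t : ℂ) + (l / 2 : ℝ) * I) +
        NUMF.Pc ((t : ℂ) + (-(l / 2) : ℝ) * I)) / 2 := by
      funext t
      rw [← Phc_ofReal]
      unfold Phc av
      congr 3
      push_cast
      ring
    rw [e1, integral_div, integral_add h1.1 h2.1, h1.2, h2.2]
    norm_num
  rw [integral_complex_ofReal] at e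
  exact_mod_cast e

/-- rows at `± l / 2` -/
@[reducible] def seaH : Sea where
  dens := Ph
  densc := Phc
  fs := av NUAct.vs
  fx := av NUAct.vx
  real := Phc_ofReal
  diff := fun z hz => av_diff (fun w hw => NUMF.Pc_diff hw) hz
  bd := Phc_bd
  low := ⟨2 / Real.pi, by have := Real.pi_pos; positivity, Ph_low⟩
  even := Ph_neg
  mass := Ph_mass
  conv_s := by
    obtain ⟨K, hK⟩ := NUAct.ks_bd
    exact conv_h NUAct.ks_meas hK fun z hz => NUAct.horiz_s hz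
  conv_x := by
    obtain ⟨K, hK⟩ := NUAct.kx_bd
    exact conv_h NUAct.kx_cont.aestronglyMeasurable hK fun z hz => NUAct.horiz_x hz
  fs_diff := fun z hz => av_diff (fun w hw => NUAct.diff_vs hw) hz
  fx_diff := fun z hz => av_diff (fun w hw => NUAct.diff_vx hw) hz
  fs_gr := by
    have hl := l_pos
    obtain ⟨K, hK, h⟩ := av_gr (y := 3 * l) (by rw [abs_of_pos (by linarith)])
    have l2 : 0 < Real.log 2 := Real.log_pos (by norm_num)
    refine ⟨K + Real.log 2, by positivity, fun z hz => av_gr' (fun w hw => ?_) hz⟩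
    have n1 := norm_sub_le (Real.log 2 : ℂ) (NUAct.Ly (3 * l) w)
    rw [Complex.norm_real, Real.norm_eq_abs, abs_of_pos l2] at n1
    have := h w hw
    have h5 := abs_nonneg w.re
    unfold NUAct.vs
    nlinarith [mul_nonneg l2.le h5]
  fx_gr := by
    have hl := l_pos
    obtain ⟨K, hK, h⟩ := av_gr (y := 0) (by rw [abs_zero]; linarith)
    have l2 : 0 < Real.log 2 := Real.log_pos (by norm_num)
    refine ⟨K + Real.log 2, by positivity, fun z hz => av_gr' (fun w hw => ?_) hz⟩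
    have n1 := norm_sub_le (NUAct.Ly 0 w) (Real.log 2 : ℂ)
    rw [Complex.norm_real, Real.norm_eq_abs, abs_of_pos l2] at n1
    have := h w hw
    have h5 := abs_nonneg w.re
    unfold NUAct.vx
    nlinarith [mul_nonneg l2.le h5]

end

end NUSea
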