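import Pool.Agent.NUSea.Wd

/-!
# Continuity of the derivative of the quadratic part of the one body potential
-/

set_option autoImplicit false
set_option linter.unusedSectionVars false

open MeasureTheory Set Filter Topology Complex

namespace NUSea

open NUMF (l l_pos w g V)
open NUAct NUKer

noncomputable section

variable [Sea]

variable {s ε M R : ℝ} {δ δ1 δ2 : ℝ → ℂ}

/-- **the derivative of `K B` is continuous** -/
theorem continuous_KB1 (D : Disp s ε M R δ δ1 δ2) (hε : ε ≤ 1 / 20) :
    Continuous fun t => ∫ y, (Q1 δ δ1 t y * Bf s δ δ1 y + Up Uc (zt δ) t y * Bf1 s δ δ1 δ2 y) := by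
  have hP := D.path hε
  have hl := l_pos
  obtain ⟨K, hK, HK⟩ := exists_ker
  obtain ⟨K1, hK1, HU⟩ := Up_Uc_bd D hε
  have hε0 := D.ε0
  have cB : Continuous (Bf s δ δ1) :=
    continuous_iff_continuousAt.2 fun t => (hasDerivAt_Bf D hε t).continuousAt
  have cB1 : Continuous (Bf1 s δ δ1 δ2) := by
    have c1 : Continuous fun t => iteratedDeriv 1 Pc (zt δ t) :=
      cont_PcD 1 D.c0 fun t => (D.e0 t).trans hε
    have c0 : Continuous fun t => Pc (zt δ t) := by
      have := cont_PcD 0 D.c0 fun t => (D.e0 t).trans hε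
      simp only [iteratedDeriv_zero] at this
      exact this
    have cz : Continuous (zd δ1) := continuous_const.add D.c1
    have cr : Continuous fun t : ℝ => iteratedDeriv 1 Pc (t : ℂ) :=
      continuous_iff_continuousAt.2 fun t => (hasDerivAt_real 1 t).continuousAt
    unfold Bf1
    exact (continuous_const.mul (((c1.mul cz).mul cz).add (c0.mul D.c2))).sub
      (continuous_const.mul cr)
  have z0 : ∀ y, R ≤ |y| → Bf s δ δ1 y = 0 ∧ Bf1 s δ δ1 δ2 y = 0 := by
    intro y hy
    obtain ⟨a0, a1, a2⟩ := D.supp y hy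
    unfold Bf Bf1 zt zd
    rw [a0, a1, a2]
    simp only [add_zero, mul_one, mul_zero, Pc_ofReal]
    push_cast
    constructor <;> ring
  obtain ⟨CB, hCB⟩ : ∃ C : ℝ, ∀ y, ‖Bf s δ δ1 y‖ ≤ C := by
    obtain ⟨C, hC⟩ := (isCompact_Icc (a := -R) (b := R)).exists_bound_of_continuousOn
      cB.continuousOn
    refine ⟨max C 0, fun y => ?_⟩
    by_cases hy : y ∈ Icc (-R) R
    · exact (hC y hy).trans (le_max_left _ _)
    · rw [(z0 y (by
        by_contra h
        exact hy (abs_le.1 (not_le.1 h).le))).1, norm_zero]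
      exact le_max_right _ _
  obtain ⟨CB1, hCB1⟩ : ∃ C : ℝ, ∀ y, ‖Bf1 s δ δ1 δ2 y‖ ≤ C := by
    obtain ⟨C, hC⟩ := (isCompact_Icc (a := -R) (b := R)).exists_bound_of_continuousOn
      cB1.continuousOn
    refine ⟨max C 0, fun y => ?_⟩
    by_cases hy : y ∈ Icc (-R) R
    · exact (hC y hy).trans (le_max_left _ _)
    · rw [(z0 y (by
        by_contra h
        exact hy (abs_le.1 (not_le.1 h).le))).2, norm_zero]
      exact le_max_right _ _
  have hCB0 : 0 ≤ CB := (norm_nonneg _).trans (hCB 0)
  have hCB10 : 0 ≤ CB1 := (norm_nonneg _).trans (hCB1 0)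
  have mU : Measurable fun p : ℝ × ℝ => Up Uc (zt δ) p.1 p.2 := Up_meas Uc_meas hP.continuous
  have mQ := Q1_meas D
  have mB := cB.measurable
  have mB1 := cB1.measurable
  have mU1 : ∀ t, Measurable fun u : ℝ => Up Uc (zt δ) t (t + u) := fun t =>
    mU.comp (measurable_const.prodMk (measurable_const.add measurable_id))
  have mQ1 : ∀ t, Measurable fun u : ℝ => Q1 δ δ1 t (t + u) := fun t =>
    mQ.comp (measurable_const.prodMk (measurable_const.add measurable_id))
  have e2 : (fun t => ∫ y, (Q1 δ δ1 t y * Bf s δ δ1 y + Up Uc (zt δ) t y * Bf1 s δ δ1 δ2 y)) =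
      fun t => ∫ u, (Q1 δ δ1 t (t + u) * Bf s δ δ1 (t + u) +
        Up Uc (zt δ) t (t + u) * Bf1 s δ δ1 δ2 (t + u)) := by
    funext t
    exact (integral_add_left_eq_self (fun y => Q1 δ δ1 t y * Bf s δ δ1 y +
      Up Uc (zt δ) t y * Bf1 s δ δ1 δ2 y) t).symm
  rw [e2]
  refine continuous_iff_continuousAt.2 fun t0 => ?_
  have hR : 0 ≤ |R| := abs_nonneg R
  obtain ⟨ρ, hρ⟩ : ∃ ρ, ρ = |R| + |t0| + 1 := ⟨_, rfl⟩
  obtain ⟨A, hA⟩ : ∃ A, A = K * ε * CB + K1 * CB1 + K1 * CB := ⟨_, rfl⟩
  have hA0 : 0 ≤ A := by rw [hA]; positivity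
  have hgr1 : ∀ u : ℝ, 1 ≤ gr |u| := fun u => by
    unfold gr
    have := abs_nonneg u
    have := abs_nonneg (Real.log |u|)
    linarith
  have bi : Integrable (indicator (Icc (-ρ) ρ) fun u => A * gr |u|) := by
    rw [integrable_indicator_iff measurableSet_Icc]
    exact (NUR2.gr_li.integrableOn_isCompact isCompact_Icc).const_mul A
  have out : ∀ t u, |t - t0| < 1 → u ∉ Icc (-ρ) ρ → R ≤ |t + u| := by
    intro t u ht hu
    have h1 : ρ < |u| := by
      by_contra h
      exact hu (abs_le.1 (not_lt.1 h))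
    have h2 : |u| ≤ |t + u| + |t| := by
      have := abs_sub (t + u) t
      rwa [add_sub_cancel_left] at this
    have h3 : |t| ≤ |t - t0| + |t0| := by
      have := abs_add_le (t - t0) t0
      rwa [sub_add_cancel] at this
    have h4 := le_abs_self R
    rw [hρ] at h1
    linarith
  have hb : ∀ t u, |t - t0| < 1 → u ≠ 0 →
      ‖Q1 δ δ1 t (t + u) * Bf s δ δ1 (t + u) + Up Uc (zt δ) t (t + u) * Bf1 s δ δ1 δ2 (t + u)‖ ≤
        indicator (Icc (-ρ) ρ) (fun u => A * gr |u|) u := by
    intro t u ht hu
    by_cases hm : u ∈ Icc (-ρ) ρ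
    · rw [indicator_of_mem hm]
      have hne : t ≠ t + u := by
        intro h
        exact hu (by linarith)
      have e3 : t - (t + u) = -u := by ring
      have h1 := (HK D hε t (t + u) hne).2
      have h2 := HU t (t + u) hne
      rw [e3, abs_neg] at h1 h2
      refine (norm_add_le _ _).trans ?_
      rw [norm_mul, norm_mul]
      have h3 : Real.exp (-|u|) ≤ 1 := Real.exp_le_one_iff.2 (by simp)
      have h4 : ‖Q1 δ δ1 t (t + u)‖ ≤ K * ε := h1.trans (by
        have : 0 ≤ K * ε := by positivity
        nlinarith)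
      have g1 := hgr1 u
      have p0 : 0 ≤ K * ε * CB := by positivity
      have p2 : 0 ≤ K1 * CB := by positivity
      calc _ ≤ (K * ε) * CB + (K1 * gr |u|) * CB1 := by
            refine add_le_add (mul_le_mul h4 (hCB _) (norm_nonneg _) (by positivity)) ?_
            exact mul_le_mul h2 (hCB1 _) (norm_nonneg _) ((norm_nonneg _).trans h2)
        _ ≤ (K * ε * CB) * gr |u| + (K1 * CB1) * gr |u| + (K1 * CB) * gr |u| := by
            have q1 : K * ε * CB ≤ (K * ε * CB) * gr |u| := le_mul_of_one_le_right p0 g1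
            have q2 : 0 ≤ (K1 * CB) * gr |u| := by positivity
            linarith
        _ = _ := by rw [hA]; ring
    · rw [indicator_of_notMem hm]
      have h1 := z0 (t + u) (out t u ht hm)
      rw [h1.1, h1.2]
      simp
  have hball : Metric.ball t0 1 ∈ 𝓝 t0 := Metric.ball_mem_nhds t0 one_pos
  refine continuousAt_of_dominated (bound := indicator (Icc (-ρ) ρ) (fun u => A * gr |u|))
    (Eventually.of_forall fun t => ?_) ?_ bi ?_
  · exact (((mQ1 t).mul (mB.comp (measurable_const.add measurable_id))).add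
      ((mU1 t).mul (mB1.comp (measurable_const.add measurable_id)))).aestronglyMeasurable
  · filter_upwards [hball] with t ht
    filter_upwards [ae_ne' 0] with u hu
    exact hb t u (by simpa [Real.dist_eq] using ht) hu
  · filter_upwards [ae_ne' 0] with u hu
    have d1 : Continuous fun t => Bf s δ δ1 (t + u) := cB.comp (continuous_id.add continuous_const)
    have d1' : Continuous fun t => Bf1 s δ δ1 δ2 (t + u) :=
      cB1.comp (continuous_id.add continuous_const)
    have cz : Continuous (zt δ) := hP.continuous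
    have d2 : Continuous fun t => zt δ (t + u) := cz.comp (continuous_id.add continuous_const)
    have e1 : Continuous δ1 := D.c1
    have e2 : Continuous fun t => δ1 (t + u) := e1.comp (continuous_id.add continuous_const)
    rcases lt_or_gt_of_ne hu with h | h
    · have f1 : (fun t => Up Uc (zt δ) t (t + u)) = fun t => Uc (zt δ t - zt δ (t + u)) := by
        funext t
        exact Up_of_lt (by linarith)
      have f2 : (fun t => Q1 δ δ1 t (t + u)) =
          fun t => Ud (zt δ t - zt δ (t + u)) * (δ1 t - δ1 (t + u)) := by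
        funext t
        exact if_pos (by linarith)
      have hre := hP.mono (t0 + u) t0 (by linarith)
      have hre' : 0 < (zt δ t0 - zt δ (t0 + u)).re := by
        have : (0:ℝ) < 1 / 2 * (t0 - (t0 + u)) := by
          have : 0 < t0 - (t0 + u) := by linarith
          positivity
        linarith
      have him : |(zt δ t0 - zt δ (t0 + u)).im| < l := by
        rw [Complex.sub_im]
        have a1 := hP.im_le t0
        have a2 := hP.im_le (t0 + u)
        exact (abs_sub _ _).trans_lt (by linarith)
      have g1 : ContinuousAt (fun t => Up Uc (zt δ) t (t + u)) t0 := by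
        rw [f1]
        exact (hasDerivAt_Uc hre' him).continuousAt.comp_of_eq (f := fun t =>
          zt δ t - zt δ (t + u)) (cz.sub d2).continuousAt rfl
      have g2 : ContinuousAt (fun t => Q1 δ δ1 t (t + u)) t0 := by
        rw [f2]
        exact ((continuousAt_Ud hre' him).comp_of_eq (f := fun t =>
          zt δ t - zt δ (t + u)) (cz.sub d2).continuousAt rfl).mul (e1.sub e2).continuousAt
      exact (g2.mul d1.continuousAt).add (g1.mul d1'.continuousAt)
    · have f1 : (fun t => Up Uc (zt δ) t (t + u)) = fun t => Uc (zt δ (t + u) - zt δ t) := by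
        funext t
        exact Up_of_le (by linarith)
      have f2 : (fun t => Q1 δ δ1 t (t + u)) =
          fun t => Ud (zt δ (t + u) - zt δ t) * (δ1 (t + u) - δ1 t) := by
        funext t
        exact if_neg (not_lt.2 (by linarith))
      have hre := hP.mono t0 (t0 + u) (by linarith)
      have hre' : 0 < (zt δ (t0 + u) - zt δ t0).re := by
        have : (0:ℝ) < 1 / 2 * ((t0 + u) - t0) := by
          have : 0 < (t0 + u) - t0 := by linarith
          positivity
        linarith
      have him : |(zt δ (t0 + u) - zt δ t0).im| < l := by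
        rw [Complex.sub_im]
        have a1 := hP.im_le t0
        have a2 := hP.im_le (t0 + u)
        exact (abs_sub _ _).trans_lt (by linarith)
      have g1 : ContinuousAt (fun t => Up Uc (zt δ) t (t + u)) t0 := by
        rw [f1]
        exact (hasDerivAt_Uc hre' him).continuousAt.comp_of_eq (f := fun t =>
          zt δ (t + u) - zt δ t) (d2.sub cz).continuousAt rfl
      have g2 : ContinuousAt (fun t => Q1 δ δ1 t (t + u)) t0 := by
        rw [f2]
        exact ((continuousAt_Ud hre' him).comp_of_eq (f := fun t =>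
          zt δ (t + u) - zt δ t) (d2.sub cz).continuousAt rfl).mul (e2.sub e1).continuousAt
      exact (g2.mul d1.continuousAt).add (g1.mul d1'.continuousAt)

/-- **the quadratic part of the one body potential on the whole line**, arbitrary potentials, with
a continuous derivative -/
theorem exists_phiQ'' : ∃ K : ℝ, 1 ≤ K ∧ ∀ {s ε M b : ℝ} {e η η1 : ℝ → ℝ}, 0 ≤ s → 0 ≤ b →
    ε ≤ 1 / 20 → Cur s ε M b e η → (∀ t, HasDerivAt η (η1 t) t) →
    ∀ (Fe : Bool → ℂ → ℂ),
    ∃ Q' : ℝ → ℝ, Continuous Q' ∧ (∀ a t, HasDerivAt (fun t =>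
      (∑ d, (gas s (fun _ => η) (fun _ => η1) Fe).KB a d t).re) (Q' t) t) ∧
    (∀ a t, |(∑ d, (gas s (fun _ => η) (fun _ => η1) Fe).KB a d t).re| ≤
      K * (M * ε) * Wb b t) ∧ (∀ t, |Q' t| ≤ K * (M * ε) * Wb b t) := by
  obtain ⟨K, hK, H⟩ := exists_phiQ'
  refine ⟨K, hK, fun {s ε M b e η η1} hs hb hε hc hη Fe => ?_⟩
  obtain ⟨Q', h1, h2, h3⟩ := H hs hb hε hc hη Fe
  refine ⟨Q', ?_, h1, h2, h3⟩
  obtain ⟨η2, D, _⟩ := hc.disp' hs hη
  have hok : (gas s (fun _ => η) (fun _ => η1) (fun _ _ => 0)).Ok :=
    gas_ok hs hε (fun _ : Bool => hc) (fun _ t => hη t) fun _ => ext_zero _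
  have e1 : (fun t => (∑ d, (gas s (fun _ => η) (fun _ => η1) Fe).KB false d t).re) =
      fun t => (∫ y, Up Uc (zt (iD η)) t y * Bf s (iD η) (iD η1) y).re := by
    funext t
    exact congrArg Complex.re (sum_KB_same s η η1 (fun _ _ => 0) false t hok)
  have e2 : Q' = fun t => (∫ y, (Q1 (iD η) (iD η1) t y * Bf s (iD η) (iD η1) y +
      Up Uc (zt (iD η)) t y * Bf1 s (iD η) (iD η1) (iD η2) y)).re := by
    funext t
    have a1 := h1 false t
    rw [e1] at a1
    exact a1.unique (Complex.reCLM.hasFDerivAt.comp_hasDerivAt t (hasDerivAt_KB D hε t))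
  rw [e2]
  exact Complex.continuous_re.comp (continuous_KB1 D hε)

end

end NUSea
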