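import Pool.Agent.NUO.Par0
import Pool.Agent.NUSea.Eta

/-!
# The parameters and the curve, general sea

Copy of `NUO/Par0` for a general sea (`class Sea`), namespace `NUSea.O`; what does not depend on the
density (`NUO.d0`, `NUO.K1c`, `NUO.rk_lt`, ..) is not repeated.
`par0 m`: offset `9/4` of the objects `L`, `e = 1/4`, spread `d0 r = 1 / (6144 (r+1)^2)`, radius of
the circles `min (l d0 r / (64 (r+1) (1 + log m))) (d0 r / (224 (r+1)^2)) (1 / (1 + m P t))`.
`etaA e1 J m`: the curve `eta = cur / (m P)`, `T = (3/8) log m`.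
-/

set_option autoImplicit false
set_option linter.unusedSectionVars false

noncomputable section

open Finset

namespace NUSea.O

open NUO

variable [Sea]

/-- radius of the circle of a satellite -/
def rad0 (m r : ℕ) (t : ℝ) : ℝ :=
  min (min (NUP1.l * d0 r / (64 * (r + 1) * (1 + Real.log m))) (d0 r / (224 * ((r : ℝ) + 1) ^ 2)))
    (1 / (1 + m * P t))

/-- the parameters of TARGET-A -/
def par0 (m : ℕ) : Par where
  jL := 9 / 4
  e := 1 / 4
  d := d0
  rad := rad0 m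

/-- the curve of TARGET-A -/
def etaA (e1 J : ℝ) (m : ℕ) (t : ℝ) : ℝ :=
  NUCUR.cur e1 (Tb (Real.log m)) J t / ((m : ℝ) * P t)

/-- derivative of the curve -/
def etaA' (e1 J : ℝ) (m : ℕ) (t : ℝ) : ℝ := deriv (etaA e1 J m) t

/-! ### the parameters -/

@[simp] lemma par0_jL (m : ℕ) : (par0 m).jL = 9 / 4 := rfl
@[simp] lemma par0_e (m : ℕ) : (par0 m).e = 1 / 4 := rfl
@[simp] lemma par0_d (m : ℕ) : (par0 m).d = d0 := rfl
@[simp] lemma par0_rad (m : ℕ) : (par0 m).rad = rad0 m := rfl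

lemma rad0_pos (m r : ℕ) (t : ℝ) : 0 < rad0 m r t := by
  unfold rad0
  have h1 := d0_pos r
  have h2 := l_pos0
  have h3 := P_pos t
  have h4 := log_nn m
  exact lt_min (lt_min (by positivity) (by positivity)) (by positivity)

lemma rad0_le1 (m r : ℕ) (t : ℝ) :
    rad0 m r t ≤ NUP1.l * d0 r / (64 * (r + 1) * (1 + Real.log m)) :=
  (min_le_left _ _).trans (min_le_left _ _)

lemma rad0_le2 (m r : ℕ) (t : ℝ) : rad0 m r t ≤ d0 r / (224 * ((r : ℝ) + 1) ^ 2) :=
  (min_le_left _ _).trans (min_le_right _ _)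

lemma rad0_le3 (m r : ℕ) (t : ℝ) : rad0 m r t ≤ 1 / (1 + m * P t) := min_le_right _ _

lemma rad0_le (m r : ℕ) (t : ℝ) : rad0 m r t ≤ NUP1.l * d0 r / (64 * (r + 1)) := by
  refine (rad0_le1 m r t).trans ?_
  have h1 := d0_pos r
  have h2 := l_pos0
  have h4 := log_nn m
  apply div_le_div_of_nonneg_left (by positivity) (by positivity)
  have : (0 : ℝ) ≤ 64 * ((r : ℝ) + 1) := by positivity
  nlinarith

/-- the circles are small against the density: `(1 + rho) * rad ≤ 1` -/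
lemma rad0_rho1 (m r : ℕ) (t : ℝ) : rad0 m r t * (1 + m * P t) ≤ 1 := by
  have h3 := P_pos t
  have h4 : (0 : ℝ) < 1 + m * P t := by positivity
  calc rad0 m r t * (1 + m * P t) ≤ 1 / (1 + m * P t) * (1 + m * P t) :=
        mul_le_mul_of_nonneg_right (rad0_le3 m r t) h4.le
    _ = 1 := by field_simp

/-- `rho * rad ≤ 1` -/
lemma rad0_rho (m r : ℕ) (t : ℝ) : (m : ℝ) * P t * rad0 m r t ≤ 1 := by
  have h1 := rad0_rho1 m r t
  have h2 := rad0_pos m r t
  nlinarith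

/-- the vertical shift of the satellites in total: `r * rad ≤ l d0 r / (64 (1 + log m))` -/
lemma rad0_sum (m r : ℕ) (t : ℝ) : (r : ℝ) * rad0 m r t ≤ NUP1.l * d0 r / (64 * (1 + Real.log m)) := by
  have h1 := d0_pos r
  have h2 := l_pos0
  have h4 := log_nn m
  have h5 : (0 : ℝ) ≤ r := Nat.cast_nonneg r
  have h6 : NUP1.l * d0 r / (64 * (r + 1) * (1 + Real.log m)) * (r + 1) =
      NUP1.l * d0 r / (64 * (1 + Real.log m)) := by
    field_simp
  calc (r : ℝ) * rad0 m r t ≤ (r + 1) * rad0 m r t := by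
        have := rad0_pos m r t
        nlinarith
    _ ≤ (r + 1) * (NUP1.l * d0 r / (64 * (r + 1) * (1 + Real.log m))) :=
        mul_le_mul_of_nonneg_left (rad0_le1 m r t) (by positivity)
    _ = _ := by rw [mul_comm, h6]

lemma rad0_le_l (m r : ℕ) (t : ℝ) : rad0 m r t ≤ NUP1.l / 20 := by
  refine (rad0_le m r t).trans ?_
  have h1 := d0_le r
  have h0 := d0_pos r
  have h2 := l_pos0
  have h5 : (0 : ℝ) ≤ r := Nat.cast_nonneg r
  rw [div_le_div_iff₀ (by positivity) (by norm_num)]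
  have h6 : NUP1.l * d0 r ≤ NUP1.l * (1 / 6144) := mul_le_mul_of_nonneg_left h1 h2.le
  nlinarith [mul_nonneg h2.le h5]

/-- `1 / rad` -/
lemma rad0_inv (m r : ℕ) (t : ℝ) : 1 / rad0 m r t ≤
    K1c * ((r : ℝ) + 1) ^ 5 * (1 + Real.log m) * (1 + m * P t) := by
  have h1 := d0_pos r
  have h2 := l_pos0
  have h3 := P_pos t
  have h4 := log_nn m
  have hr : (1 : ℝ) ≤ (r : ℝ) + 1 := by
    have : (0 : ℝ) ≤ r := Nat.cast_nonneg r
    linarith
  have h5 : (1 : ℝ) ≤ 1 + m * P t := by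
    have : (0 : ℝ) ≤ m * P t := by positivity
    linarith
  have h6 : (1 : ℝ) ≤ 1 + Real.log m := by linarith
  have g3 : ((r : ℝ) + 1) ^ 3 ≤ ((r : ℝ) + 1) ^ 5 := pow_le_pow_right₀ hr (by norm_num)
  have g4 : ((r : ℝ) + 1) ^ 4 ≤ ((r : ℝ) + 1) ^ 5 := pow_le_pow_right₀ hr (by norm_num)
  have g0 : (1 : ℝ) ≤ ((r : ℝ) + 1) ^ 5 := one_le_pow₀ hr
  have e1 : 1 / (NUP1.l * d0 r / (64 * (r + 1) * (1 + Real.log m))) =
      64 * 6144 / NUP1.l * ((r : ℝ) + 1) ^ 3 * (1 + Real.log m) := by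
    unfold d0
    field_simp
  have e2 : 1 / (d0 r / (224 * ((r : ℝ) + 1) ^ 2)) = 224 * 6144 * ((r : ℝ) + 1) ^ 4 := by
    unfold d0
    field_simp
  have e3 : 1 / (1 / (1 + (m : ℝ) * P t)) = 1 + m * P t := one_div_one_div _
  have k1 : 64 * 6144 / NUP1.l ≤ K1c := by unfold K1c; linarith
  have k2 : 224 * 6144 ≤ K1c := by
    unfold K1c
    have : 0 ≤ 64 * 6144 / NUP1.l := by positivity
    linarith
  have k3 : 1 ≤ K1c := by
    unfold K1c
    have : 0 ≤ 64 * 6144 / NUP1.l := by positivity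
    linarith
  have k0 := K1c_nonneg
  unfold rad0
  rcases min_choice (min (NUP1.l * d0 r / (64 * (r + 1) * (1 + Real.log m)))
    (d0 r / (224 * ((r : ℝ) + 1) ^ 2))) (1 / (1 + (m : ℝ) * P t)) with h | h
  · rw [h]
    rcases min_choice (NUP1.l * d0 r / (64 * (r + 1) * (1 + Real.log m)))
      (d0 r / (224 * ((r : ℝ) + 1) ^ 2)) with h' | h'
    · rw [h', e1]
      calc 64 * 6144 / NUP1.l * ((r : ℝ) + 1) ^ 3 * (1 + Real.log m)
          ≤ K1c * ((r : ℝ) + 1) ^ 5 * (1 + Real.log m) := by gcongr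
        _ ≤ _ := le_mul_of_one_le_right (by positivity) h5
    · rw [h', e2]
      calc 224 * 6144 * ((r : ℝ) + 1) ^ 4 ≤ K1c * ((r : ℝ) + 1) ^ 5 := by gcongr
        _ ≤ K1c * ((r : ℝ) + 1) ^ 5 * (1 + Real.log m) := le_mul_of_one_le_right (by positivity) h6
        _ ≤ _ := le_mul_of_one_le_right (by positivity) h5
  · rw [h, e3]
    have : (1 : ℝ) ≤ K1c * ((r : ℝ) + 1) ^ 5 * (1 + Real.log m) := by
      have a1 : (1 : ℝ) ≤ K1c * ((r : ℝ) + 1) ^ 5 := by
        calc (1 : ℝ) = 1 * 1 := (one_mul 1).symm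
          _ ≤ _ := mul_le_mul k3 g0 zero_le_one k0
      calc (1 : ℝ) = 1 * 1 := (one_mul 1).symm
        _ ≤ _ := mul_le_mul a1 h6 zero_le_one (by positivity)
    exact le_mul_of_one_le_left (by linarith) this

lemma rad0_meas (m r : ℕ) : Measurable (rad0 m r) := by
  have : Continuous (rad0 m r) := by
    unfold rad0
    refine continuous_const.min (continuous_const.div ?_ fun t => ?_)
    · exact continuous_const.add (continuous_const.mul P_cont)
    · have h3 := P_pos t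
      positivity
  exact this.measurable

section

variable {m r : ℕ} (O : Fin r → Xo)

lemma ei_ge (i : Fin r) : 1 / 4 ≤ ei (par0 m) O i := by
  unfold ei par0
  have := d0_pos r
  have h : (0 : ℝ) ≤ d0 r * (rk O i / r) := by positivity
  simpa using h

lemma ei_le (i : Fin r) : ei (par0 m) O i ≤ 1 / 4 + d0 r := by
  unfold ei par0
  have h1 := d0_pos r
  have h2 : (rk O i : ℝ) / r ≤ 1 := by
    have h3 : (0 : ℝ) < r := by
      have := i.pos
      exact_mod_cast this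
    rw [div_le_one h3]
    exact_mod_cast (rk_lt O i).le
  have h4 : d0 r * ((rk O i : ℝ) / r) ≤ d0 r := by nlinarith
  simpa using h4

/-- distance of the lines of two strings of one species -/
lemma ei_sub {i j : Fin r} (hij : i < j) (hs : sp (O i) = sp (O j)) :
    d0 r / r ≤ ei (par0 m) O j - ei (par0 m) O i := by
  unfold ei par0
  have h1 := d0_pos r
  have h3 : (0 : ℝ) < r := by
    have := i.pos
    exact_mod_cast this
  have h2 : (1 : ℝ) ≤ (rk O j : ℝ) - rk O i := by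
    have h4 : rk O i + 1 ≤ rk O j := rk_ne O hij hs
    have h5 : ((rk O i : ℝ) + 1) ≤ rk O j := by exact_mod_cast h4
    linarith
  have h6 : d0 r * ((rk O j : ℝ) / r) - d0 r * ((rk O i : ℝ) / r) =
      d0 r / r * ((rk O j : ℝ) - rk O i) := by
    field_simp
  have h7 : d0 r / r * 1 ≤ d0 r / r * ((rk O j : ℝ) - rk O i) :=
    mul_le_mul_of_nonneg_left h2 (by positivity)
  simp only
  linarith

end

/-! ### the curve -/

lemma etaA_nonneg {e1 J : ℝ} (hJ : 0 ≤ J) (m : ℕ) (t : ℝ) : 0 ≤ etaA e1 J m t := by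
  unfold etaA
  have := P_pos t
  exact div_nonneg (NUCUR.cur_nonneg hJ t) (by positivity)

lemma etaA_neg (e1 J : ℝ) (m : ℕ) (t : ℝ) : etaA e1 J m (-t) = etaA e1 J m t := by
  unfold etaA
  rw [NUCUR.cur_neg, P_neg]

lemma etaA_contDiff (e1 J : ℝ) (m : ℕ) {n : ℕ∞} : ContDiff ℝ n (etaA e1 J m) :=
  CUR.eta_contDiff NUCUR.cur_contDiff m

lemma etaA_hasDeriv (e1 J : ℝ) (m : ℕ) (t : ℝ) : HasDerivAt (etaA e1 J m) (etaA' e1 J m t) t :=
  ((etaA_contDiff e1 J m (n := 1)).differentiable (by simp) t).hasDerivAt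

lemma etaA'_cont (e1 J : ℝ) (m : ℕ) : Continuous (etaA' e1 J m) :=
  (etaA_contDiff e1 J m (n := 1)).continuous_deriv le_rfl

/-- the curve is straight beyond `(1 - e1) T` -/
lemma etaA_zero {e1 J : ℝ} (he : 0 < e1) {m : ℕ} (hm : 2 ≤ m) {t : ℝ}
    (ht : (1 - e1) * (Tb (Real.log m)) ≤ |t|) : etaA e1 J m t = 0 := by
  unfold etaA
  have h1 : (1 : ℝ) < m := by exact_mod_cast hm
  have h2 := Real.log_pos h1
  rw [NUCUR.cur_zero he (by unfold Tb; positivity) ht, zero_div]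

lemma etaA'_zero {e1 J : ℝ} (he : 0 < e1) {m : ℕ} (hm : 2 ≤ m) {t : ℝ}
    (ht : (1 - e1) * (Tb (Real.log m)) < |t|) : etaA' e1 J m t = 0 := by
  have h := NUCUR.iter_zero_out (f := etaA e1 J m) (fun t ht => etaA_zero he hm ht) 1 t ht
  rwa [iteratedDeriv_one] at h

/-- the current, back from the curve -/
lemma etaA_mul {e1 J : ℝ} {m : ℕ} (hm : 1 ≤ m) (t : ℝ) :
    etaA e1 J m t * ((m : ℝ) * P t) = NUCUR.cur e1 (Tb (Real.log m)) J t := by
  unfold etaA
  have h1 : (0 : ℝ) < m := by exact_mod_cast hm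
  have := P_pos t
  field_simp

/-- **all derivatives of the curve up to order 4 are `O(J m^(-e1))`** -/
theorem etaA_bound {e1 : ℝ} (he : 0 < e1) : ∃ C : ℝ, 0 < C ∧ ∀ J : ℝ, 0 ≤ J → ∀ m : ℕ,
    1 ≤ Tb (Real.log m) → ∀ k ≤ 4, ∀ t,
      |iteratedDeriv k (etaA e1 J m) t| ≤ C * J * (m : ℝ) ^ (-e1) := by
  obtain ⟨C1, hC1, h1⟩ := NUCUR.cur_bound4 (e := e1) he
  obtain ⟨C2, hC2, h2⟩ := CUR.eta_bound_T 4
  refine ⟨C2 * C1 + 1, by positivity, fun J hJ m hm k hk t => ?_⟩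
  have hm0 : (0 : ℝ) < m := by
    rcases Nat.eq_zero_or_pos m with h | h
    · subst h
      norm_num [Tb] at hm
    · exact_mod_cast h
  have h3 := h2 (NUCUR.cur e1 (Tb (Real.log m)) J) (NUCUR.cur_contDiff (n := (4 : ℕ∞)))
    (C1 * J) e1 m m hm0 (by linarith) (fun k hk t => h1 _ J hm hJ k hk t)
    (fun t ht => NUCUR.cur_zero he (by linarith) ht) k hk t
  refine h3.trans ?_
  have h4 : (0 : ℝ) ≤ (m : ℝ) ^ (-e1) := Real.rpow_nonneg hm0.le _
  have h5 : 0 ≤ J * (m : ℝ) ^ (-e1) := mul_nonneg hJ h4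
  calc C2 * (C1 * J) * (m : ℝ) ^ (-e1) = C2 * C1 * (J * (m : ℝ) ^ (-e1)) := by ring
    _ ≤ (C2 * C1 + 1) * (J * (m : ℝ) ^ (-e1)) := by nlinarith
    _ = _ := by ring

/-- the curve and its derivatives up to order 4 are small for large `m` -/
theorem etaA_small {e1 : ℝ} (he : 0 < e1) (J : ℝ) (hJ : 0 ≤ J) {x : ℝ} (hx : 0 < x) :
    ∃ m0 : ℕ, ∀ m ≥ m0, ∀ k ≤ 4, ∀ t, |iteratedDeriv k (etaA e1 J m) t| ≤ x := by
  obtain ⟨C, hC, h⟩ := etaA_bound he
  have h1 : Filter.Tendsto (fun m : ℕ => C * J * (m : ℝ) ^ (-e1)) Filter.atTop (nhds (C * J * 0)) :=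
    ((tendsto_rpow_neg_atTop he).comp tendsto_natCast_atTop_atTop).const_mul _
  rw [mul_zero] at h1
  have h2 := h1.eventually_le_const hx
  have h3 := (Real.tendsto_log_atTop.comp tendsto_natCast_atTop_atTop).eventually_ge_atTop (8 / 3)
  obtain ⟨m0, hm0⟩ := Filter.eventually_atTop.1 (h2.and h3)
  refine ⟨m0, fun m hm k hk t => ?_⟩
  obtain ⟨a1, a2⟩ := hm0 m hm
  have a3 : 8 / 3 ≤ Real.log m := a2
  exact (h J hJ m (by unfold Tb; linarith) k hk t).trans a1

end NUSea.O
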