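import Pool.Agent.NUSea.HMF2
import Pool.Agent.NUP1L.LegDefs

/-!
# The table in terms of the functions of the gas

* `cl_q`, `cl_qg`: clouds of a single quantum at offset `j` (`mo`, `mc` of `HMF2`);
* `C_cloud`, `D_cloud`, `C_rows`, `D_rows`, `C_tot`, `D_tot`: half quantum at position `p`, height `τ`.
-/

set_option autoImplicit false

open MeasureTheory Set Filter Topology

namespace NUHM

open NUMF (l l_pos h H Ag zj lq lqg)
open NUSea (Ph)

noncomputable section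

/-! ### singles -/

/-- own cloud -/
theorem cl_q (j t : ℝ) : Integrable (fun s => Ph s * lq j (t - s)) ∧ ∫ s, Ph s * lq j (t - s) =
    Hh t ((4 - j) * l) + (Hh t ((2 - j) * l) + Hh t ((2 + j) * l)) / 2 -
      (Hh t ((3 - j) * l) + Hh t ((5 - j) * l)) / 2 - Real.log 2 := by
  have j1 := Hh_int t ((4 - j) * l)
  have j2 := Hh_int t ((2 - j) * l)
  have j3 := Hh_int t ((2 + j) * l)
  have j4 := Hh_int t ((3 - j) * l)
  have j5 := Hh_int t ((5 - j) * l)
  have j6 : Integrable fun s => Ph s * Real.log 2 := Ph_integrable.mul_const _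
  have hae : ∀ s, Ph s * lq j (t - s) = Ph s * h (t - s) ((4 - j) * l) +
      (1 / 2) * (Ph s * h (t - s) ((2 - j) * l)) + (1 / 2) * (Ph s * h (t - s) ((2 + j) * l)) -
      (1 / 2) * (Ph s * h (t - s) ((3 - j) * l)) - (1 / 2) * (Ph s * h (t - s) ((5 - j) * l)) -
        Ph s * Real.log 2 := by
    intro s
    unfold NUMF.lq NUMF.ro
    ring
  have k1 := j1.add (j2.const_mul (1 / 2))
  have k2 := k1.add (j3.const_mul (1 / 2))
  have k3 := k2.sub (j4.const_mul (1 / 2))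
  have k4 := k3.sub (j5.const_mul (1 / 2))
  refine ⟨(k4.sub j6).congr (Eventually.of_forall fun s => (hae s).symm), ?_⟩
  have b1 := integral_add j1 (j2.const_mul (1 / 2))
  have b2 := integral_add k1 (j3.const_mul (1 / 2))
  have b3 := integral_sub k2 (j4.const_mul (1 / 2))
  have b4 := integral_sub k3 (j5.const_mul (1 / 2))
  have b5 := integral_sub k4 j6
  have b6 : ∫ s, Ph s * Real.log 2 = Real.log 2 := by rw [integral_mul_const, Ph_mass, one_mul]
  simp only [Pi.add_apply, Pi.sub_apply] at b1 b2 b3 b4 b5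
  simp_rw [hae]
  rw [b5, b4, b3, b2, b1, integral_const_mul, integral_const_mul, integral_const_mul,
    integral_const_mul, b6]
  unfold Hh
  ring

/-- cloud of the other species -/
theorem cl_qg (j t : ℝ) : Integrable (fun s => Ph s * lqg j (t - s)) ∧ ∫ s, Ph s * lqg j (t - s) =
    Real.log 2 + Hh t (j * l) - (Hh t ((j + 1) * l) + Hh t ((j - 1) * l)) := by
  have j1 := Hh_int t ((j + 1) * l)
  have j2 := Hh_int t ((j - 1) * l)
  have j3 := Hh_int t (j * l)
  have j4 : Integrable fun s => Ph s * Real.log 2 := Ph_integrable.mul_const _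
  have hae : ∀ s, Ph s * lqg j (t - s) = Ph s * Real.log 2 -
      (Ph s * h (t - s) ((j + 1) * l) + Ph s * h (t - s) ((j - 1) * l) - Ph s * h (t - s) (j * l)) := by
    intro s
    unfold NUMF.lqg
    rw [show j * l + l = (j + 1) * l by ring, show j * l - l = (j - 1) * l by ring]
    ring
  refine ⟨(j4.sub ((j1.add j2).sub j3)).congr (Eventually.of_forall fun s => (hae s).symm), ?_⟩
  have b1 := integral_add j1 j2
  have b2 := integral_sub (j1.add j2) j3
  have b3 := integral_sub j4 ((j1.add j2).sub j3)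
  have b6 : ∫ s, Ph s * Real.log 2 = Real.log 2 := by rw [integral_mul_const, Ph_mass, one_mul]
  simp only [Pi.add_apply, Pi.sub_apply] at b1 b2 b3
  simp_rw [hae]
  rw [b3, b2, b1, b6]
  unfold Hh
  ring

/-- rows of the own species (one of each kind), average: `log 2 - ` the two poles -/
def ro2 (j t : ℝ) : ℝ := (hh t (3 - j) + hh t (5 - j)) / 2

lemma ro2_eq (j t : ℝ) : ro2 j t = (NUMF.ro (j + 1 / 2) t + NUMF.ro (j - 1 / 2) t) / 2 := by
  unfold ro2 hh NUMF.ro
  rw [show 3 - (j + 1 / 2) = 3 - j - 1 / 2 by ring, show 5 - (j + 1 / 2) = 5 - j - 1 / 2 by ring,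
    show 3 - (j - 1 / 2) = 3 - j + 1 / 2 by ring, show 5 - (j - 1 / 2) = 5 - j + 1 / 2 by ring]
  ring

/-- **own species** -/
theorem mo_split (j t : ℝ) : mo j t = (Real.log 2 - ro2 j t) + ∫ s, Ph s * lq j (t - s) := by
  rw [(cl_q j t).2]
  unfold mo ro2
  ring

/-- **other species** -/
theorem mc_split (j t : ℝ) : mc j t = (hh t j - Real.log 2) + ∫ s, Ph s * lqg j (t - s) := by
  rw [(cl_qg j t).2]
  unfold mc
  ring

/-! ### half quanta -/

/-- `log |sin (a l + i t)|` -/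
def ls (a t : ℝ) : ℝ := (h t ((4 - a) * l) - Real.log 2) / 2

lemma ls_eq {a t : ℝ} (hn : Complex.sin (zj a t) ≠ 0) : Real.log ‖Complex.sin (zj a t)‖ = ls a t := by
  have h1 := NUMF.log_norm_sin (x := a * l) (y := t) hn
  unfold ls
  rw [show (4 - a) * l = 4 * l - a * l by ring, ← h1]
  unfold NUMF.zj
  ring

lemma ls_neg (a t : ℝ) : ls (-a) t = ls a t := by
  unfold ls
  rw [show (4 - -a) = 8 - (4 - a) by ring, NUMF.h_refl]

lemma ls_per (a t : ℝ) : ls (a + 8) t = ls a t := by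
  unfold ls
  rw [show (4 - (a + 8)) * l = -((8 - (4 - a)) * l) by ring, NUMF.h_neg_right, NUMF.h_refl]

lemma zj_sin (a t : ℝ) (n : ℝ) : Complex.sin (zj a t + n * l) = Complex.sin (zj (a + n) t) := by
  rw [← NUMF.zj_add]
  push_cast
  rfl

lemma sin_four (z : ℂ) : Complex.sin (z + 4 * l) = Complex.cos z := by
  rw [show z + 4 * (l : ℂ) = z + Real.pi / 2 by rw [← l8]; push_cast; ring, Complex.sin_add_pi_div_two]

lemma l_eq : (NUP1.l : ℝ) = l := rfl

open NUP1.Leg (Ck Dk)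

/-- `log |C|` -/
theorem log_Ck {a t : ℝ} (ht : t ≠ 0) : Ck (zj a t) ≠ 0 ∧
    Real.log ‖Ck (zj a t)‖ = ls a t + ls (a + 2) t - ls (a + 1) t := by
  have e2 : Complex.sin (zj a t + 2 * l) = Complex.sin (zj (a + 2) t) := by
    have := zj_sin a t 2; push_cast at this; exact this
  have e1 : Complex.sin (zj a t + l) = Complex.sin (zj (a + 1) t) := by
    have := zj_sin a t 1; push_cast at this; rw [one_mul] at this; exact this
  have n0 := NUMF.zsin_ne (j := a) ht
  have n1 := NUMF.zsin_ne (j := a + 1) ht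
  have n2 := NUMF.zsin_ne (j := a + 2) ht
  have e : Ck (zj a t) = Complex.sin (zj a t) * Complex.sin (zj (a + 2) t) / Complex.sin (zj (a + 1) t) := by
    unfold NUP1.Leg.Ck
    rw [l_eq, e1, e2]
  rw [e]
  refine ⟨div_ne_zero (mul_ne_zero n0 n2) n1, ?_⟩
  rw [norm_div, norm_mul, Real.log_div (mul_ne_zero (norm_ne_zero_iff.2 n0) (norm_ne_zero_iff.2 n2))
    (norm_ne_zero_iff.2 n1), Real.log_mul (norm_ne_zero_iff.2 n0) (norm_ne_zero_iff.2 n2), ls_eq n0,
    ls_eq n1, ls_eq n2]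

/-- `log |D|` -/
theorem log_Dk {a t : ℝ} (ht : t ≠ 0) : Dk (zj a t) ≠ 0 ∧
    Real.log ‖Dk (zj a t)‖ = ls (a + 4) t - ls (a - 3) t - ls (a + 3) t := by
  have e3 : Complex.sin (3 * l + zj a t) = Complex.sin (zj (a + 3) t) := by
    have := zj_sin a t 3; push_cast at this; rw [add_comm] at this; exact this
  have e3' : Complex.sin (3 * l - zj a t) = - Complex.sin (zj (a - 3) t) := by
    have := zj_sin a t (-3); push_cast at this
    rw [show a + -3 = a - 3 by ring] at this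
    rw [← this, ← Complex.sin_neg]
    congr 1
    ring
  have e4 : Complex.cos (zj a t) = Complex.sin (zj (a + 4) t) := by
    have := zj_sin a t 4; push_cast at this
    rw [← this, sin_four]
  have n0 := NUMF.zsin_ne (j := a + 4) ht
  have n1 := NUMF.zsin_ne (j := a - 3) ht
  have n2 := NUMF.zsin_ne (j := a + 3) ht
  have e : Dk (zj a t) = Complex.sin (zj (a + 4) t) /
      (-Complex.sin (zj (a - 3) t) * Complex.sin (zj (a + 3) t)) := by
    unfold NUP1.Leg.Dk
    rw [l_eq, e3, e3', e4]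
  rw [e]
  refine ⟨div_ne_zero n0 (mul_ne_zero (neg_ne_zero.2 n1) n2), ?_⟩
  rw [norm_div, norm_mul, norm_neg, Real.log_div (norm_ne_zero_iff.2 n0)
    (mul_ne_zero (norm_ne_zero_iff.2 n1) (norm_ne_zero_iff.2 n2)),
    Real.log_mul (norm_ne_zero_iff.2 n1) (norm_ne_zero_iff.2 n2), ls_eq n0, ls_eq n1, ls_eq n2]
  ring

lemma sub_zj (p τ s : ℝ) : zj p τ - zj 1 s = zj (p - 1) (τ - s) := by
  unfold NUMF.zj
  push_cast
  ring

lemma ls_int (a t : ℝ) : Integrable (fun s => Ph s * ls a (t - s)) ∧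
    ∫ s, Ph s * ls a (t - s) = (Hh t ((4 - a) * l) - Real.log 2) / 2 := by
  have j1 := Hh_int t ((4 - a) * l)
  have j4 : Integrable fun s => Ph s * Real.log 2 := Ph_integrable.mul_const _
  have hae : ∀ s, Ph s * ls a (t - s) =
      (1 / 2) * (Ph s * h (t - s) ((4 - a) * l) - Ph s * Real.log 2) := by
    intro s
    unfold ls
    ring
  refine ⟨((j1.sub j4).const_mul (1 / 2)).congr (Eventually.of_forall fun s => (hae s).symm), ?_⟩
  have b3 := integral_sub j1 j4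
  have b6 : ∫ s, Ph s * Real.log 2 = Real.log 2 := by rw [integral_mul_const, Ph_mass, one_mul]
  simp_rw [hae]
  rw [integral_const_mul, b3, b6]
  unfold Hh
  ring

/-- **cloud of `C`** (half quantum at position `p`, height `τ`; the cloud at position `1`) -/
theorem C_cloud (p τ : ℝ) : Integrable (fun s => Ph s * Real.log ‖Ck (zj p τ - zj 1 s)‖) ∧
    ∫ s, Ph s * Real.log ‖Ck (zj p τ - zj 1 s)‖ =
      (Hh τ ((5 - p) * l) + Hh τ ((3 - p) * l) - Hh τ ((4 - p) * l) - Real.log 2) / 2 := by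
  obtain ⟨i1, f1⟩ := ls_int (p - 1) τ
  obtain ⟨i2, f2⟩ := ls_int (p + 1) τ
  obtain ⟨i3, f3⟩ := ls_int p τ
  have hae : (fun s => Ph s * Real.log ‖Ck (zj p τ - zj 1 s)‖) =ᵐ[volume]
      fun s => Ph s * ls (p - 1) (τ - s) + Ph s * ls (p + 1) (τ - s) - Ph s * ls p (τ - s) := by
    filter_upwards [NUMF.ae_ne τ] with s hs
    rw [sub_zj, (log_Ck hs).2, show p - 1 + 2 = p + 1 by ring, show p - 1 + 1 = p by ring]
    ring
  refine ⟨((i1.add i2).sub i3).congr hae.symm, ?_⟩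
  have b1 := integral_add i1 i2
  have b2 := integral_sub (i1.add i2) i3
  simp only [Pi.add_apply] at b2
  rw [integral_congr_ae hae, b2, b1, f1, f2, f3, show 4 - (p - 1) = 5 - p by ring,
    show 4 - (p + 1) = 3 - p by ring]
  ring

/-- **cloud of `D`** -/
theorem D_cloud (p τ : ℝ) : Integrable (fun s => Ph s * Real.log ‖Dk (zj p τ - zj 1 s)‖) ∧
    ∫ s, Ph s * Real.log ‖Dk (zj p τ - zj 1 s)‖ =
      (Hh τ ((1 - p) * l) - Hh τ (p * l) - Hh τ ((2 - p) * l) + Real.log 2) / 2 := by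
  obtain ⟨i1, f1⟩ := ls_int (p + 3) τ
  obtain ⟨i2, f2⟩ := ls_int (p - 4) τ
  obtain ⟨i3, f3⟩ := ls_int (p + 2) τ
  have hae : (fun s => Ph s * Real.log ‖Dk (zj p τ - zj 1 s)‖) =ᵐ[volume]
      fun s => Ph s * ls (p + 3) (τ - s) - Ph s * ls (p - 4) (τ - s) - Ph s * ls (p + 2) (τ - s) := by
    filter_upwards [NUMF.ae_ne τ] with s hs
    rw [sub_zj, (log_Dk hs).2, show p - 1 + 4 = p + 3 by ring, show p - 1 - 3 = p - 4 by ring,
      show p - 1 + 3 = p + 2 by ring]
    ring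
  refine ⟨((i1.sub i2).sub i3).congr hae.symm, ?_⟩
  have b1 := integral_sub i1 i2
  have b2 := integral_sub (i1.sub i2) i3
  simp only [Pi.sub_apply] at b2
  rw [integral_congr_ae hae, b2, b1, f1, f2, f3, show 4 - (p + 3) = 1 - p by ring,
    show 4 - (p - 4) = 8 - p by ring, show 4 - (p + 2) = 2 - p by ring, Hh_refl]
  ring

/-- rows of the species seen through `C` -/
theorem C_rows {p τ : ℝ} (h1 : Complex.sin (zj p τ - (l / 2 : ℝ)) ≠ 0)
    (h2 : Complex.sin (zj p τ + (l / 2 : ℝ)) ≠ 0) :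
    Real.log ‖Complex.sin (zj p τ - (l / 2 : ℝ)) * Complex.sin (zj p τ + (l / 2 : ℝ))‖ =
      hh τ (4 - p) - Real.log 2 := by
  have e1 : zj p τ - (l / 2 : ℝ) = zj (p - 1 / 2) τ := by unfold NUMF.zj; push_cast; ring
  have e2 : zj p τ + (l / 2 : ℝ) = zj (p + 1 / 2) τ := by unfold NUMF.zj; push_cast; ring
  rw [e1] at h1 ⊢
  rw [e2] at h2 ⊢
  rw [norm_mul, Real.log_mul (norm_ne_zero_iff.2 h1) (norm_ne_zero_iff.2 h2), ls_eq h1, ls_eq h2]
  unfold ls hh
  rw [show 4 - (p - 1 / 2) = 4 - p + 1 / 2 by ring, show 4 - (p + 1 / 2) = 4 - p - 1 / 2 by ring]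
  ring

/-- rows of the species seen through `D` -/
theorem D_rows {p τ : ℝ} (h1 : Complex.sin (zj p τ - (l / 2 : ℝ) + 3 * l) ≠ 0)
    (h2 : Complex.sin (zj p τ + (l / 2 : ℝ) + 3 * l) ≠ 0) :
    Real.log ‖Complex.sin (zj p τ - (l / 2 : ℝ) + 3 * l) *
      Complex.sin (zj p τ + (l / 2 : ℝ) + 3 * l)‖ = hh τ (1 - p) - Real.log 2 := by
  have e1 : zj p τ - (l / 2 : ℝ) + 3 * l = zj (p + 5 / 2) τ := by unfold NUMF.zj; push_cast; ring
  have e2 : zj p τ + (l / 2 : ℝ) + 3 * l = zj (p + 7 / 2) τ := by unfold NUMF.zj; push_cast; ring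
  rw [e1] at h1 ⊢
  rw [e2] at h2 ⊢
  rw [norm_mul, Real.log_mul (norm_ne_zero_iff.2 h1) (norm_ne_zero_iff.2 h2), ls_eq h1, ls_eq h2]
  unfold ls hh
  rw [show 4 - (p + 5 / 2) = 1 - p + 1 / 2 by ring, show 4 - (p + 7 / 2) = 1 - p - 1 / 2 by ring]
  ring

/-- **half quantum, species seen through `C`: rows and cloud of one row of each kind** -/
theorem C_tot {p τ : ℝ} (h1 : Complex.sin (zj p τ - (l / 2 : ℝ)) ≠ 0)
    (h2 : Complex.sin (zj p τ + (l / 2 : ℝ)) ≠ 0) :
    -Real.log ‖Complex.sin (zj p τ - (l / 2 : ℝ)) * Complex.sin (zj p τ + (l / 2 : ℝ))‖ +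
      2 * ∫ s, Ph s * Real.log ‖Ck (zj p τ - zj 1 s)‖ = 2 * hC p τ := by
  rw [C_rows h1 h2, (C_cloud p τ).2]
  unfold hC
  ring

/-- **half quantum, species seen through `D`: rows and cloud of one row of each kind** -/
theorem D_tot {p τ : ℝ} (h1 : Complex.sin (zj p τ - (l / 2 : ℝ) + 3 * l) ≠ 0)
    (h2 : Complex.sin (zj p τ + (l / 2 : ℝ) + 3 * l) ≠ 0) :
    Real.log ‖Complex.sin (zj p τ - (l / 2 : ℝ) + 3 * l) *
      Complex.sin (zj p τ + (l / 2 : ℝ) + 3 * l)‖ +
      2 * ∫ s, Ph s * Real.log ‖Dk (zj p τ - zj 1 s)‖ = 2 * hD p τ := by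
  rw [D_rows h1 h2, (D_cloud p τ).2]
  unfold hD
  ring

end

end NUHM
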