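import Pool.Agent.NUSea.HMF

/-!
# The table of mean field weights, rows at `± l / 2`

`Agh a = (Ag (a + 1/2) + Ag (a - 1/2)) / 2` and `Th` = its continuation past the row pole `1/2`.
Everything is expressed through the defect `dl` of the convolution rule.
-/

set_option autoImplicit false

open MeasureTheory Set Filter Topology

namespace NUHM

open NUMF (l l_pos h H Ag)
open NUSea (Ph)

noncomputable section

/-! ### the average over the two rows, all `|y| ≤ 4` (units `l`) -/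

lemma Hh_mid (t : ℝ) {y : ℝ} (h1 : |y| ≤ 7 / 2) :
    Hh t (y * l) = (H t ((y + 1 / 2) * l) + H t ((y - 1 / 2) * l)) / 2 := by
  have hl := l_pos
  have hE : EqOn (fun y => Hh t (y * l)) (fun y => (H t ((y + 1 / 2) * l) + H t ((y - 1 / 2) * l)) / 2)
      (Ioo (-(7 / 2)) (7 / 2)) := by
    intro y hy
    have e := avg_lt t (a := y * l) (by
      rw [abs_lt]
      constructor
      · nlinarith [hy.1]
      · nlinarith [hy.2])
    simp only
    rw [e, show (y + 1 / 2) * l = y * l + l / 2 by ring, show (y - 1 / 2) * l = y * l - l / 2 by ring]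
  have c1 : Continuous fun y => Hh t (y * l) := (Hh_cont t).comp (by fun_prop)
  have c2 : Continuous fun y => (H t ((y + 1 / 2) * l) + H t ((y - 1 / 2) * l)) / 2 :=
    (((NUMF.H_cont t).comp (by fun_prop : Continuous fun y : ℝ => (y + 1 / 2) * l)).add
      ((NUMF.H_cont t).comp (by fun_prop : Continuous fun y : ℝ => (y - 1 / 2) * l))).div_const 2
  have hcl := hE.closure c1 c2
  rw [closure_Ioo (by norm_num)] at hcl
  exact hcl (abs_le.1 h1)

lemma Ag_contOn (t : ℝ) : ContinuousOn (fun a => Ag a t) (Ioo (-1) 1) := by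
  have hl := l_pos
  intro a ha
  have hd : ContinuousAt NUMF.Gc ((t : ℂ) + (a * l : ℝ) * Complex.I) := (NUMF.Gc_diff (by
    have : ((t : ℂ) + (a * l : ℝ) * Complex.I).im = a * l := by simp
    rw [this, abs_mul, abs_of_pos hl]
    have := abs_lt.2 ha
    nlinarith)).continuousAt
  have hc : Continuous fun a : ℝ => (t : ℂ) + (a * l : ℝ) * Complex.I := by fun_prop
  have h1 : ContinuousAt (fun a : ℝ => NUMF.Gc ((t : ℂ) + (a * l : ℝ) * Complex.I)) a :=
    ContinuousAt.comp (f := fun a : ℝ => (t : ℂ) + (a * l : ℝ) * Complex.I) hd hc.continuousAt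
  unfold NUMF.Ag
  exact (continuousAt_const.mul (Complex.continuous_im.continuousAt.comp h1)).continuousWithinAt

lemma Hh_high (t : ℝ) {y : ℝ} (h1 : 7 / 2 ≤ y) (h2 : y ≤ 4) :
    Hh t (y * l) = (H t ((15 / 2 - y) * l) + H t ((y - 1 / 2) * l)) / 2 - Ag (y - 7 / 2) t := by
  have hl := l_pos
  have hE : EqOn (fun y => Hh t (y * l)) (fun y => (H t ((15 / 2 - y) * l) +
      H t ((y - 1 / 2) * l)) / 2 - Ag (y - 7 / 2) t) (Ioo (7 / 2) 4) := by
    intro y hy
    have e := avg_gt t (a := y * l) (by nlinarith [hy.1]) (by nlinarith [hy.2])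
    simp only
    rw [e, show (15 / 2 - y) * l = 15 / 2 * l - y * l by ring,
      show (y - 1 / 2) * l = y * l - l / 2 by ring, mul_div_cancel_right₀ _ hl.ne']
  have c1 : ContinuousOn (fun y => Hh t (y * l)) (Icc (7 / 2) 4) :=
    ((Hh_cont t).comp (by fun_prop)).continuousOn
  have c2 : ContinuousOn (fun y => (H t ((15 / 2 - y) * l) + H t ((y - 1 / 2) * l)) / 2 -
      Ag (y - 7 / 2) t) (Icc (7 / 2) 4) := by
    have c3 : Continuous fun y => (H t ((15 / 2 - y) * l) + H t ((y - 1 / 2) * l)) / 2 :=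
      (((NUMF.H_cont t).comp (by fun_prop : Continuous fun y : ℝ => (15 / 2 - y) * l)).add
        ((NUMF.H_cont t).comp (by fun_prop : Continuous fun y : ℝ => (y - 1 / 2) * l))).div_const 2
    refine c3.continuousOn.sub ?_
    refine (Ag_contOn t).comp (by fun_prop : Continuous fun y : ℝ => y - 7 / 2).continuousOn ?_
    intro y hy
    simp only [mem_Ioo]
    constructor <;> linarith [hy.1, hy.2]
  refine hE.of_subset_closure c1 c2 Ioo_subset_Icc_self ?_ ⟨h1, h2⟩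
  rw [closure_Ioo (by norm_num)]

/-! ### the defect of the convolution rule -/

/-- average of `h` over the two rows -/
def hh (t y : ℝ) : ℝ := (h t ((y + 1 / 2) * l) + h t ((y - 1 / 2) * l)) / 2

lemma hh_neg (t y : ℝ) : hh t (-y) = hh t y := by
  unfold hh
  rw [← NUMF.h_neg_right t ((-y + 1 / 2) * l), ← NUMF.h_neg_right t ((-y - 1 / 2) * l),
    show -((-y + 1 / 2) * l) = (y - 1 / 2) * l by ring, show -((-y - 1 / 2) * l) = (y + 1 / 2) * l by ring]
  ring

lemma hh_refl (t y : ℝ) : hh t (8 - y) = hh t y := by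
  unfold hh
  rw [show 8 - y + 1 / 2 = 8 - (y - 1 / 2) by ring, show 8 - y - 1 / 2 = 8 - (y + 1 / 2) by ring,
    NUMF.h_refl, NUMF.h_refl]
  ring

/-- the defect -/
def dl (t y : ℝ) : ℝ := Hh t ((y + 1) * l) + Hh t ((y - 1) * l) - Hh t (y * l) - hh t y

lemma dl_neg (t y : ℝ) : dl t (-y) = dl t y := by
  unfold dl
  rw [hh_neg, ← Hh_neg t ((-y + 1) * l), ← Hh_neg t ((-y - 1) * l), ← Hh_neg t (-y * l),
    show -((-y + 1) * l) = (y - 1) * l by ring, show -((-y - 1) * l) = (y + 1) * l by ring,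
    show -(-y * l) = y * l by ring]
  ring

lemma dl_refl (t y : ℝ) : dl t (8 - y) = dl t y := by
  unfold dl
  rw [hh_refl, show 8 - y + 1 = 8 - (y - 1) by ring, show 8 - y - 1 = 8 - (y + 1) by ring, Hh_refl,
    Hh_refl, Hh_refl]
  ring

lemma dl_abs (t y : ℝ) : dl t |y| = dl t y := by
  rcases abs_cases y with ⟨h1, _⟩ | ⟨h1, _⟩
  · rw [h1]
  · rw [h1, dl_neg]

/-- `|y| ≤ 3` -/
theorem dl_zero (t : ℝ) {y : ℝ} (h1 : |y| ≤ 3) : dl t y = 0 := by
  rw [← dl_abs]
  set u := |y| with hu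
  have h0 : 0 ≤ u := abs_nonneg y
  unfold dl hh
  rw [Hh_mid t (y := u - 1) (by rw [abs_le]; constructor <;> linarith),
    Hh_mid t (y := u) (by rw [abs_le]; constructor <;> linarith),
    show u - 1 + 1 / 2 = u - 1 / 2 by ring, show u - 1 - 1 / 2 = u - 3 / 2 by ring]
  have c2 := NUMF.conv_unit t (y := u - 1 / 2) (by rw [abs_le]; constructor <;> linarith)
  rw [show u - 1 / 2 + 1 = u + 1 / 2 by ring, show u - 1 / 2 - 1 = u - 3 / 2 by ring] at c2
  rcases le_or_gt u (5 / 2) with h2 | h2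
  · rw [Hh_mid t (y := u + 1) (by rw [abs_le]; constructor <;> linarith),
      show u + 1 + 1 / 2 = u + 3 / 2 by ring, show u + 1 - 1 / 2 = u + 1 / 2 by ring]
    have c1 := NUMF.conv_unit t (y := u + 1 / 2) (by rw [abs_le]; constructor <;> linarith)
    rw [show u + 1 / 2 + 1 = u + 3 / 2 by ring, show u + 1 / 2 - 1 = u - 1 / 2 by ring] at c1
    linarith
  · rw [Hh_high t (y := u + 1) (by linarith) (by linarith),
      show 15 / 2 - (u + 1) = 13 / 2 - u by ring, show u + 1 - 1 / 2 = u + 1 / 2 by ring,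
      show u + 1 - 7 / 2 = u - 5 / 2 by ring]
    have c1 := NUMF.ext_unit t (y := u + 1 / 2) (by linarith) (by linarith)
    rw [show 7 - (u + 1 / 2) = 13 / 2 - u by ring, show u + 1 / 2 - 1 = u - 1 / 2 by ring,
      show u + 1 / 2 - 3 = u - 5 / 2 by ring] at c1
    linarith

lemma Ag_neg (a t : ℝ) (h1 : |a| < 1) : Ag (-a) t = - Ag a t := by
  have hl := l_pos
  have hb : |a * l| < l := by rw [abs_mul, abs_of_pos hl]; nlinarith
  have hb' : |-a * l| < l := by rw [neg_mul, abs_neg]; exact hb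
  have e1 := (NUMF.Gc_im_fourier t hb).2
  have e2 := (NUMF.Gc_im_fourier t hb').2
  have e3 : ∫ k in Ioi (0:ℝ), Real.cos (k * t) * Real.sinh (k * (-a * l)) /
      (k * (2 * NUMF.ck1 k - 1)) = - ∫ k in Ioi (0:ℝ), Real.cos (k * t) * Real.sinh (k * (a * l)) /
      (k * (2 * NUMF.ck1 k - 1)) := by
    rw [← integral_neg]
    refine integral_congr_ae (Eventually.of_forall fun k => ?_)
    simp only
    rw [show k * (-a * l) = -(k * (a * l)) by ring, Real.sinh_neg]
    ring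
  unfold NUMF.Ag
  rw [e3, ← e1] at e2
  linarith

/-- weight of a single at offset `a`, `0 ≤ a < 1/2` -/
def Agh (a t : ℝ) : ℝ := (Ag (a + 1 / 2) t + Ag (a - 1 / 2) t) / 2

/-- weight of a single at offset `a ∈ [0, 1]` -/
def Th (a t : ℝ) : ℝ := if a < 1 / 2 then Agh a t else (Ag (3 / 2 - a) t + 2 * Ag (a - 1 / 2) t) / 2

lemma Th_lt {a : ℝ} (h : a < 1 / 2) (t : ℝ) : Th a t = Agh a t := if_pos h

lemma Th_ge {a : ℝ} (h : 1 / 2 ≤ a) (t : ℝ) :
    Th a t = (Ag (3 / 2 - a) t + 2 * Ag (a - 1 / 2) t) / 2 := if_neg (not_lt.2 h)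

lemma Agh_zero (t : ℝ) : Agh 0 t = 0 := by
  unfold Agh
  rw [zero_add, zero_sub, Ag_neg _ _ (by rw [abs_of_pos] <;> norm_num)]
  ring

lemma Th_zero (t : ℝ) : Th 0 t = 0 := by
  rw [Th_lt (by norm_num), Agh_zero]

/-- `3 ≤ y ≤ 4`, `y ≠ 7/2` -/
theorem dl_mid (t : ℝ) {y : ℝ} (h1 : 3 ≤ y) (h2 : y < 7 / 2) : dl t y = 2 * Agh (y - 3) t := by
  unfold dl hh
  rw [← Hh_refl t (y + 1), show 8 - (y + 1) = 7 - y by ring,
    Hh_mid t (y := y - 1) (by rw [abs_le]; constructor <;> linarith),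
    Hh_mid t (y := y) (by rw [abs_le]; constructor <;> linarith),
    Hh_high t (y := 7 - y) (by linarith) (by linarith),
    show y - 1 + 1 / 2 = y - 1 / 2 by ring, show y - 1 - 1 / 2 = y - 3 / 2 by ring,
    show 15 / 2 - (7 - y) = y + 1 / 2 by ring, show 7 - y - 1 / 2 = 13 / 2 - y by ring,
    show 7 - y - 7 / 2 = 7 / 2 - y by ring]
  have c2 := NUMF.conv_unit t (y := y - 1 / 2) (by rw [abs_le]; constructor <;> linarith)
  rw [show y - 1 / 2 + 1 = y + 1 / 2 by ring, show y - 1 / 2 - 1 = y - 3 / 2 by ring] at c2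
  have c1 := NUMF.ext_unit t (y := y + 1 / 2) (by linarith) (by linarith)
  rw [show 7 - (y + 1 / 2) = 13 / 2 - y by ring, show y + 1 / 2 - 1 = y - 1 / 2 by ring,
    show y + 1 / 2 - 3 = y - 5 / 2 by ring] at c1
  have c3 := Ag_neg (7 / 2 - y) t (by rw [abs_lt]; constructor <;> linarith)
  unfold Agh
  rw [show y - 3 + 1 / 2 = y - 5 / 2 by ring, show y - 3 - 1 / 2 = -(7 / 2 - y) by ring, c3]
  linarith

theorem dl_high (t : ℝ) {y : ℝ} (h1 : 7 / 2 < y) (h2 : y ≤ 4) :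
    dl t y = Ag (9 / 2 - y) t + 2 * Ag (y - 7 / 2) t := by
  unfold dl hh
  rw [← Hh_refl t (y + 1), show 8 - (y + 1) = 7 - y by ring,
    Hh_mid t (y := y - 1) (by rw [abs_le]; constructor <;> linarith),
    Hh_high t (y := y) (by linarith) (by linarith),
    Hh_mid t (y := 7 - y) (by rw [abs_le]; constructor <;> linarith),
    show y - 1 + 1 / 2 = y - 1 / 2 by ring, show y - 1 - 1 / 2 = y - 3 / 2 by ring,
    show 7 - y + 1 / 2 = 15 / 2 - y by ring, show 7 - y - 1 / 2 = 13 / 2 - y by ring]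
  have c1 := NUMF.ext_unit t (y := y - 1 / 2) (by linarith) (by linarith)
  rw [show 7 - (y - 1 / 2) = 15 / 2 - y by ring, show y - 1 / 2 - 1 = y - 3 / 2 by ring,
    show y - 1 / 2 - 3 = y - 7 / 2 by ring] at c1
  have c2 := NUMF.ext_unit t (y := 15 / 2 - y) (by linarith) (by linarith)
  rw [show 7 - (15 / 2 - y) = y - 1 / 2 by ring, show 15 / 2 - y - 1 = 13 / 2 - y by ring,
    show 15 / 2 - y - 3 = 9 / 2 - y by ring] at c2
  have e := NUMF.h_refl t (y + 1 / 2)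
  rw [show 8 - (y + 1 / 2) = 15 / 2 - y by ring] at e
  linarith

/-- **the defect on `[3, 4]`** -/
theorem dl_Th (t : ℝ) {y : ℝ} (h1 : 3 ≤ y) (h2 : y ≤ 4) (h3 : y ≠ 7 / 2) :
    dl t y = 2 * Th (y - 3) t := by
  rcases lt_or_gt_of_ne h3 with h | h
  · rw [dl_mid t h1 h, Th_lt (by linarith)]
  · rw [dl_high t h h2, Th_ge (by linarith), show 3 / 2 - (y - 3) = 9 / 2 - y by ring,
      show y - 3 - 1 / 2 = y - 7 / 2 by ring]
    ring

/-- `4 ≤ y ≤ 5` -/
theorem dl_Th' (t : ℝ) {y : ℝ} (h1 : 4 ≤ y) (h2 : y ≤ 5) (h3 : y ≠ 9 / 2) :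
    dl t y = 2 * Th (5 - y) t := by
  rw [← dl_refl, dl_Th t (by linarith) (by linarith) (fun e => h3 (by linarith)),
    show 8 - y - 3 = 5 - y by ring]

/-- `5 ≤ y ≤ 11` -/
theorem dl_zero' (t : ℝ) {y : ℝ} (h1 : 5 ≤ y) (h2 : y ≤ 11) : dl t y = 0 := by
  rw [← dl_refl, dl_zero t (by rw [abs_le]; constructor <;> linarith)]

/-! ### single quanta and strings -/

/-- mean field weight (logarithm) of a single at offset `j` with its own species: average over the
two rows, and cloud -/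
def mo (j t : ℝ) : ℝ := -(hh t (3 - j) + hh t (5 - j)) / 2 + Hh t ((4 - j) * l) +
  (Hh t ((2 - j) * l) + Hh t ((2 + j) * l)) / 2 - (Hh t ((3 - j) * l) + Hh t ((5 - j) * l)) / 2

/-- the same with the other species -/
def mc (j t : ℝ) : ℝ := hh t j + Hh t (j * l) - (Hh t ((j + 1) * l) + Hh t ((j - 1) * l))

lemma mo_eq (j t : ℝ) : mo j t = (dl t (3 - j) + dl t (5 - j)) / 2 := by
  unfold mo dl
  rw [show 3 - j + 1 = 4 - j by ring, show 3 - j - 1 = 2 - j by ring, show 5 - j + 1 = 8 - (2 + j) by ring,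
    show 5 - j - 1 = 4 - j by ring, Hh_refl t (2 + j)]
  ring

lemma mc_eq (j t : ℝ) : mc j t = - dl t j := by
  unfold mc dl
  ring

theorem mc_zero {j : ℝ} (h : |j| ≤ 3) (t : ℝ) : mc j t = 0 := by
  rw [mc_eq, dl_zero t h, neg_zero]

theorem mo_low {j : ℝ} (h0 : 0 ≤ j) (h1 : j ≤ 1) (h2 : j ≠ 1 / 2) (t : ℝ) : mo j t = Th j t := by
  rw [mo_eq, dl_zero t (y := 3 - j) (by rw [abs_le]; constructor <;> linarith),
    dl_Th' t (y := 5 - j) (by linarith) (by linarith) (fun e => h2 (by linarith)),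
    show 5 - (5 - j) = j by ring]
  ring

theorem mo_mid {j : ℝ} (h0 : 1 ≤ j) (h1 : j ≤ 2) (h2 : j ≠ 3 / 2) (t : ℝ) : mo j t = Th (2 - j) t := by
  rw [mo_eq, dl_zero t (y := 3 - j) (by rw [abs_le]; constructor <;> linarith),
    dl_Th t (y := 5 - j) (by linarith) (by linarith) (fun e => h2 (by linarith)),
    show 5 - j - 3 = 2 - j by ring]
  ring

theorem mo_zero {j : ℝ} (h0 : 2 ≤ j) (h1 : j ≤ 6) (t : ℝ) : mo j t = 0 := by
  rw [mo_eq, dl_zero t (y := 3 - j) (by rw [abs_le]; constructor <;> linarith),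
    dl_zero t (y := 5 - j) (by rw [abs_le]; constructor <;> linarith)]
  norm_num

theorem mc_high {j : ℝ} (h0 : 3 ≤ j) (h1 : j ≤ 4) (h2 : j ≠ 7 / 2) (t : ℝ) :
    mc j t = -2 * Th (j - 3) t := by
  rw [mc_eq, dl_Th t h0 h1 h2]
  ring

/-- string at offset `j ∈ [1, 2]`, own and other species -/
theorem str_mid {j : ℝ} (h0 : 1 ≤ j) (h1 : j ≤ 2) (h2 : j ≠ 3 / 2) (t : ℝ) :
    mo j t + mo (j + 1) t = Th (2 - j) t ∧ mc j t + mc (j + 1) t = 0 := by
  rw [mo_mid h0 h1 h2, mo_zero (j := j + 1) (by linarith) (by linarith),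
    mc_zero (j := j) (by rw [abs_le]; constructor <;> linarith),
    mc_zero (j := j + 1) (by rw [abs_le]; constructor <;> linarith)]
  constructor <;> ring

/-- string at offset `j ∈ [2, 3]` -/
theorem str_high {j : ℝ} (h0 : 2 ≤ j) (h1 : j ≤ 3) (h2 : j ≠ 5 / 2) (t : ℝ) :
    mo j t + mo (j + 1) t = 0 ∧ mc j t + mc (j + 1) t = -2 * Th (j - 2) t := by
  rw [mo_zero (j := j) (by linarith) (by linarith), mo_zero (j := j + 1) (by linarith) (by linarith),
    mc_zero (j := j) (by rw [abs_le]; constructor <;> linarith),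
    mc_high (j := j + 1) (by linarith) (by linarith) (fun e => h2 (by linarith)),
    show j + 1 - 3 = j - 2 by ring]
  constructor <;> ring

/-! ### half quanta -/

/-- half quantum at position `p`, species of the quanta it sees through `C` (average of the rows
`1 / s (w - x)`, cloud of `C`) -/
def hC (p t : ℝ) : ℝ :=
  (Hh t ((5 - p) * l) + Hh t ((3 - p) * l) - Hh t ((4 - p) * l) - hh t (4 - p)) / 2

/-- half quantum at position `p`, species it sees through `D` (rows `s (w - y + 3 l)`, cloud of `D`) -/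
def hD (p t : ℝ) : ℝ :=
  (hh t (1 - p) + Hh t ((1 - p) * l) - Hh t (p * l) - Hh t ((2 - p) * l)) / 2

lemma hC_eq (p t : ℝ) : hC p t = dl t (4 - p) / 2 := by
  unfold hC dl
  rw [show 4 - p + 1 = 5 - p by ring, show 4 - p - 1 = 3 - p by ring]

lemma hD_eq (p t : ℝ) : hD p t = - dl t (1 - p) / 2 := by
  unfold hD dl
  rw [show 1 - p + 1 = 2 - p by ring, show 1 - p - 1 = -p by ring,
    show Hh t (-p * l) = Hh t (p * l) by rw [neg_mul, Hh_neg]]
  ring

/-- flat region of `C` -/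
theorem hC_zero {p : ℝ} (h1 : 1 ≤ p) (h2 : p ≤ 7) (t : ℝ) : hC p t = 0 := by
  rw [hC_eq, dl_zero t (by rw [abs_le]; constructor <;> linarith), zero_div]

theorem hC_zero' {p : ℝ} (h1 : -7 ≤ p) (h2 : p ≤ -1) (t : ℝ) : hC p t = 0 := by
  rw [hC_eq, dl_zero' t (by linarith) (by linarith), zero_div]

/-- `C`, position `1 - e` -/
theorem hC_pos {e : ℝ} (h0 : 0 ≤ e) (h1 : e ≤ 1) (h2 : e ≠ 1 / 2) (t : ℝ) : hC (1 - e) t = Th e t := by
  rw [hC_eq, show 4 - (1 - e) = 3 + e by ring,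
    dl_Th t (by linarith) (by linarith) (fun e' => h2 (by linarith)), show 3 + e - 3 = e by ring]
  ring

/-- flat region of `D` -/
theorem hD_zero {p : ℝ} (h1 : -2 ≤ p) (h2 : p ≤ 4) (t : ℝ) : hD p t = 0 := by
  rw [hD_eq, dl_zero t (by rw [abs_le]; constructor <;> linarith), neg_zero, zero_div]

/-- `D`, left line: position `-2 - e` -/
theorem hD_neg {e : ℝ} (h0 : 0 ≤ e) (h1 : e ≤ 1) (h2 : e ≠ 1 / 2) (t : ℝ) :
    hD (-2 - e) t = - Th e t := by
  rw [hD_eq, show 1 - (-2 - e) = 3 + e by ring,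
    dl_Th t (by linarith) (by linarith) (fun e' => h2 (by linarith)), show 3 + e - 3 = e by ring]
  ring

/-! ### the classes (own species of `w` | other species) -/

/-- `W1` (right line, `1 ≤ a ≤ 4`): `0 | 0` -/
theorem cls_W1 {a : ℝ} (h1 : 1 ≤ a) (h2 : a ≤ 4) (t : ℝ) : hC a t = 0 ∧ hD a t = 0 :=
  ⟨hC_zero h1 (by linarith) t, hD_zero (by linarith) h2 t⟩

/-- `F0` (left line `-2 - e`): `0 | - Th e` -/
theorem cls_F0 {e : ℝ} (h0 : 0 ≤ e) (h1 : e ≤ 1) (h2 : e ≠ 1 / 2) (t : ℝ) :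
    hC (-2 - e) t = 0 ∧ hD (-2 - e) t = - Th e t :=
  ⟨hC_zero' (by linarith) (by linarith) t, hD_neg h0 h1 h2 t⟩

/-- `P1` = half quantum at `-2 - e` and a single of the other species at `1 - e`: `0 | 0` -/
theorem cls_P1 {e : ℝ} (h0 : 0 ≤ e) (h1 : e ≤ 1) (h2 : e ≠ 1 / 2) (t : ℝ) :
    hC (-2 - e) t + mc e t = 0 ∧ hD (-2 - e) t + mo e t = 0 := by
  rw [hC_zero' (by linarith) (by linarith), hD_neg h0 h1 h2, mo_low h0 h1 h2,
    mc_zero (by rw [abs_le]; constructor <;> linarith)]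
  constructor <;> ring

/-- `D1` = `w'` at `-2 - e` (`C` with `Y`) and `w` at `1 - e` (`C` with `X`): `0 | 0` -/
theorem cls_D1 {e : ℝ} (h0 : 0 ≤ e) (h1 : e ≤ 1) (h2 : e ≠ 1 / 2) (t : ℝ) :
    hD (-2 - e) t + hC (1 - e) t = 0 ∧ hC (-2 - e) t + hD (1 - e) t = 0 := by
  rw [hD_neg h0 h1 h2, hC_pos h0 h1 h2, hC_zero' (by linarith) (by linarith),
    hD_zero (by linarith) (by linarith)]
  constructor <;> ring

/-- `Hs` = `w` at `1 - e` and a string of the other species at offset `2 + e`: `- Th e | 0` -/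
theorem cls_Hs {e : ℝ} (h0 : 0 ≤ e) (h1 : e ≤ 1) (h2 : e ≠ 1 / 2) (t : ℝ) :
    hC (1 - e) t + (mc (2 + e) t + mc (3 + e) t) = - Th e t ∧
    hD (1 - e) t + (mo (2 + e) t + mo (3 + e) t) = 0 := by
  obtain ⟨s1, s2⟩ := str_high (j := 2 + e) (by linarith) (by linarith) (fun e' => h2 (by linarith)) t
  rw [show 2 + e + 1 = 3 + e by ring, show 2 + e - 2 = e by ring] at s2
  rw [show 2 + e + 1 = 3 + e by ring] at s1
  rw [s1, s2, hC_pos h0 h1 h2, hD_zero (by linarith) (by linarith)]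
  constructor <;> ring

/-- `Hs+` = `Hs` and a single of the species of `w` at `1 - e`: `0 | 0` -/
theorem cls_Hsp {e : ℝ} (h0 : 0 ≤ e) (h1 : e ≤ 1) (h2 : e ≠ 1 / 2) (t : ℝ) :
    hC (1 - e) t + (mc (2 + e) t + mc (3 + e) t) + mo e t = 0 ∧
    hD (1 - e) t + (mo (2 + e) t + mo (3 + e) t) + mc e t = 0 := by
  obtain ⟨s1, s2⟩ := cls_Hs h0 h1 h2 t
  rw [s1, s2, mo_low h0 h1 h2, mc_zero (by rw [abs_le]; constructor <;> linarith)]
  constructor <;> ring

end

end NUHM
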