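import Pool.Agent.NUSea.Two
import Pool.Agent.NUAct.One

/-!
# The one component gas (pair function `ω = w g`) on a deformed contour
-/

set_option autoImplicit false
set_option linter.unusedSectionVars false

open MeasureTheory Set Filter Topology Complex

namespace NUSea

open NUMF (l l_pos w g V)
open NUAct

noncomputable section

variable [Sea]

variable {b c B s : ℝ} {ζ ζ' : ℝ → ℂ} {Fe : ℂ → ℂ}

/-- the one component gas -/
def one (s : ℝ) (ζ ζ' : ℝ → ℂ) (Fe : ℂ → ℂ) : Gas Unit where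
  K0 _ _ t t' := V (t - t')
  K _ _ t t' := Up Uc ζ t t'
  ρ _ t := s * P t
  ρh _ t := s * (Pc (ζ t) * ζ' t)
  v _ t := s * v t
  vh _ t := s * vc (ζ t)
  F _ t := Fe t
  Fh _ t := Fe (ζ t)

lemma V_eq {t : ℝ} (ht : t ≠ 0) : V t = -Real.log (w t) + -Real.log (g t) := by
  have h1 : Uc (|t| : ℝ) = Us (|t| : ℝ) + Ux (|t| : ℝ) := Uc_eq _
  rw [Uc_ofReal (abs_pos.2 ht), Us_ofReal (abs_pos.2 ht), Ux_ofReal] at h1
  have h2 : V |t| = -Real.log (w |t|) + -Real.log (g |t|) := by exact_mod_cast h1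
  rcases abs_choice t with h | h
  · rwa [h] at h2
  · rw [h, V_even, w_neg, g_neg] at h2
    exact h2

lemma conv_V (t : ℝ) : Integrable (fun s => P s * V (t - s)) ∧ ∫ s, P s * V (t - s) = v t := by
  have h1 := conv_w t
  have h2 := conv_g t
  have e : ∀ᵐ s : ℝ, P s * V (t - s) =
      -(P s * Real.log (w (t - s))) + -(P s * Real.log (g (t - s))) := by
    filter_upwards [ae_ne' t] with s hs
    rw [V_eq (sub_ne_zero.2 (Ne.symm hs))]
    ring
  have n1 : Integrable fun s => -(P s * Real.log (w (t - s))) := h1.1.neg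
  have n2 : Integrable fun s => -(P s * Real.log (g (t - s))) := h2.1.neg
  refine ⟨(n1.add n2).congr (e.mono fun s hs => by
    simp only [hs, Pi.add_apply]), ?_⟩
  rw [integral_congr_ae e, integral_add n1 n2, integral_neg, integral_neg, h1.2, h2.2,
    v_eq]
  ring

lemma one_K (s : ℝ) (a b' : Unit) (t t' : ℝ) : (one s ζ ζ' Fe).K a b' t t' = Up Uc ζ t t' := rfl

lemma one_K0 (s : ℝ) (a b' : Unit) (t t' : ℝ) : (one s ζ ζ' Fe).K0 a b' t t' = V (t - t') := rfl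

lemma one_rho (s : ℝ) (a : Unit) (t : ℝ) : (one s ζ ζ' Fe).ρ a t = s * P t := rfl

lemma one_rhoh (s : ℝ) (a : Unit) (t : ℝ) : (one s ζ ζ' Fe).ρh a t = s * (Pc (ζ t) * ζ' t) := rfl

lemma one_B (s : ℝ) (a : Unit) (t : ℝ) :
    (one s ζ ζ' Fe).B a t = (s : ℂ) * (Pc (ζ t) * ζ' t) - ((s * P t : ℝ) : ℂ) := rfl

lemma one_Kbd (s : ℝ) (hb : b ≤ l / 7) (P' : Path b c B ζ ζ') :
    ∃ K : ℝ, 0 ≤ K ∧ ∀ a b t t', t ≠ t' → ‖(one s ζ ζ' Fe).K a b t t'‖ ≤ K * gr |t - t'| := by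
  have hl := l_pos
  obtain ⟨Ks, hKs⟩ := Uc_kern
  have hKs' : Kern (2 * b) Ks Uc := ⟨fun z h0 h => hKs.diff z h0 (by linarith),
    fun z h0 h => hKs.bd z h0 (by linarith), hKs.K0⟩
  have hK1 : 0 ≤ Ks * (3 + 2 * |2 * B| + |Real.log c|) := by have := hKs.K0; positivity
  exact ⟨_, hK1, fun a b' t t' hne => Up_bd hKs' P' t t' hne⟩

lemma one_Km (s : ℝ) (P' : Path b c B ζ ζ') (a b' : Unit) :
    Measurable fun p : ℝ × ℝ => (one s ζ ζ' Fe).K a b' p.1 p.2 := by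
  simp only [one_K]
  exact Up_meas Uc_meas P'.continuous

lemma one_Km1 (s : ℝ) (P' : Path b c B ζ ζ') (a b' : Unit) (t : ℝ) :
    Measurable fun t' : ℝ => (one s ζ ζ' Fe).K a b' t t' :=
  Measurable.of_uncurry_left (f := fun t t' => (one s ζ ζ' Fe).K a b' t t') (one_Km s P' a b')

lemma one_Bbd (s : ℝ) (hb : b ≤ l / 7) (P' : Path b c B ζ ζ') (a : Unit) :
    ∃ C : ℝ, ∀ t, ‖(one s ζ ζ' Fe).B a t‖ ≤ C * Real.exp (-(8 / 3) * |t|) := by
  obtain ⟨C, hC0, hC⟩ := rhoh_bd s hb P'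
  obtain ⟨Cr, hCr0, hCr⟩ := rho_bd s
  refine ⟨C + Cr, fun t => ?_⟩
  rw [one_B]
  refine (norm_sub_le _ _).trans ?_
  rw [add_mul]
  exact add_le_add (hC t) (hCr t)

lemma one_Bm (s : ℝ) (hb : b ≤ l / 7) (P' : Path b c B ζ ζ') (a : Unit) :
    Measurable fun t => (one s ζ ζ' Fe).B a t := by
  simp only [one_B]
  exact (rhoh_cont s hb P').measurable.sub (rho_cont s).measurable

lemma one_i1 (s : ℝ) (hb : b ≤ l / 7) (P' : Path b c B ζ ζ') (a b' : Unit) (t : ℝ) :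
    Integrable fun t' => (one s ζ ζ' Fe).K a b' t t' * (one s ζ ζ' Fe).ρ b' t' := by
  obtain ⟨K, hK0, hK⟩ := one_Kbd (Fe := Fe) s hb P'
  obtain ⟨Cr, hCr0, hCr⟩ := rho_bd s
  simp only [one_rho]
  have h := ker_int (k := fun t' => (one s ζ ζ' Fe).K a b' t t') (f := fun t' => ((s * P t' : ℝ) : ℂ))
    (κ := 8 / 3) (one_Km1 s P' a b' t)
    (rho_cont s).measurable (by norm_num) (fun t' ht => hK a b' t t' ht) hCr
  exact h

lemma one_i2 (s : ℝ) (hb : b ≤ l / 7) (P' : Path b c B ζ ζ') (a b' : Unit) (t : ℝ) :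
    Integrable fun t' => (one s ζ ζ' Fe).K a b' t t' * (one s ζ ζ' Fe).ρh b' t' := by
  obtain ⟨K, hK0, hK⟩ := one_Kbd (Fe := Fe) s hb P'
  obtain ⟨C, hC0, hC⟩ := rhoh_bd s hb P'
  simp only [one_rhoh]
  have h := ker_int (k := fun t' => (one s ζ ζ' Fe).K a b' t t')
    (f := fun t' => (s : ℂ) * (Pc (ζ t') * ζ' t'))
    (κ := 8 / 3) (one_Km1 s P' a b' t)
    (rhoh_cont s hb P').measurable (by norm_num) (fun t' ht => hK a b' t t' ht) hC
  exact h

/-- the field equation of the one component gas on the contour -/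
theorem fe_c (hb : b ≤ l / 7) (P' : Path b c B ζ ζ') (t : ℝ) :
    Integrable (fun t' => Up Uc ζ t t' * (Pc (ζ t') * ζ' t')) ∧
      ∫ t', Up Uc ζ t t' * (Pc (ζ t') * ζ' t') = vc (ζ t) := by
  obtain ⟨i1, e1⟩ := fe_s hb P' t
  obtain ⟨i2, e2⟩ := fe_x hb P' (P'.im_le t)
  have e : (fun t' => Up Uc ζ t t' * (Pc (ζ t') * ζ' t')) = fun t' =>
      Up Us ζ t t' * (Pc (ζ t') * ζ' t') + Ux (ζ t - ζ t') * (Pc (ζ t') * ζ' t') := by
    funext t'
    rw [Up_Uc]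
    ring
  rw [e]
  refine ⟨i1.add i2, ?_⟩
  rw [integral_add i1 i2, e1, e2, vc_eq]

lemma one_p1 (s : ℝ) (hb : b ≤ l / 7) (P' : Path b c B ζ ζ') (a b' : Unit) :
    Integrable fun p : ℝ × ℝ => (one s ζ ζ' Fe).ρ a p.1 * (one s ζ ζ' Fe).K a b' p.1 p.2 *
      (one s ζ ζ' Fe).B b' p.2 := by
  obtain ⟨K, hK0, hK⟩ := one_Kbd (Fe := Fe) s hb P'
  obtain ⟨C, hC⟩ := one_Bbd (Fe := Fe) s hb P' b'
  obtain ⟨Cr, hCr0, hCr⟩ := rho_bd s
  have e83 : -(8 / 3 : ℝ) = -(2 * (4 / 3)) := by norm_num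
  rw [e83] at hC hCr
  simp only [one_rho]
  have h := ker_int2 (k := fun p => (one s ζ ζ' Fe).K a b' p.1 p.2)
    (f1 := fun t => ((s * P t : ℝ) : ℂ)) (f2 := fun t => (one s ζ ζ' Fe).B b' t) (κ := 4 / 3)
    (one_Km s P' a b')
    (rho_cont s).measurable (one_Bm s hb P' b') (by norm_num) (fun t t' ht => hK a b' t t' ht) hCr hC
  exact h

lemma one_p2 (s : ℝ) (hb : b ≤ l / 7) (P' : Path b c B ζ ζ') (a b' : Unit) :
    Integrable fun p : ℝ × ℝ => (one s ζ ζ' Fe).B a p.1 * (one s ζ ζ' Fe).K a b' p.1 p.2 *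
      (one s ζ ζ' Fe).B b' p.2 := by
  obtain ⟨K, hK0, hK⟩ := one_Kbd (Fe := Fe) s hb P'
  obtain ⟨C, hC⟩ := one_Bbd (Fe := Fe) s hb P' b'
  obtain ⟨C', hC'⟩ := one_Bbd (Fe := Fe) s hb P' a
  have e83 : -(8 / 3 : ℝ) = -(2 * (4 / 3)) := by norm_num
  rw [e83] at hC hC'
  exact ker_int2 (k := fun p => (one s ζ ζ' Fe).K a b' p.1 p.2) (κ := 4 / 3) (one_Km s P' a b')
    (one_Bm s hb P' a) (one_Bm s hb P' b') (by norm_num) (fun t t' ht => hK a b' t t' ht) hC' hC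

/-- **the one component gas satisfies the hypotheses of the abstract action identity** -/
theorem one_ok (s : ℝ) (hb : b ≤ l / 7) (P' : Path b c B ζ ζ') (hF : Ext b Fe) :
    (one s ζ ζ' Fe).Ok where
  symm _ _ t t' := Up_symm _ t t'
  i0 _ _ t := by
    simp only [one_K0, one_rho]
    refine ((conv_V t).1.const_mul s).congr (Eventually.of_forall fun t' => ?_)
    simp only
    ring
  i1 := one_i1 s hb P'
  i2 := one_i2 s hb P'
  fe0 a t := by
    simp only [one_K0, one_rho]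
    rw [Fintype.sum_unique]
    show ∫ t', V (t - t') * (s * P t') = s * v t
    rw [← (conv_V t).2, ← integral_const_mul]
    refine integral_congr_ae (Eventually.of_forall fun t' => ?_)
    simp only
    ring
  fe a t := by
    simp only [one_K, one_rhoh]
    rw [Fintype.sum_unique]
    show ∫ t', Up Uc ζ t t' * ((s : ℂ) * (Pc (ζ t') * ζ' t')) = s * vc (ζ t)
    rw [← (fe_c hb P' t).2, ← integral_const_mul]
    refine integral_congr_ae (Eventually.of_forall fun t' => ?_)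
    simp only
    ring
  p1 := one_p1 s hb P'
  p2 := one_p2 s hb P'
  j1 _ := int_rv s
  j2 _ := int_rvh s hb P'
  j3 _ := (int_rhvh s hb P').1
  j4 _ := int_rF s P'.b0 hF
  j5 _ := int_rFh s P' hF
  j6 _ := (cv_gen s hb P' hF).1
  cv _ := (int_rhvh s hb P').2
  cF _ := (cv_gen s hb P' hF).2

end

end NUSea
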