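import Pool.Agent.NUSea.FE
import Pool.Agent.NUAct.Two

/-!
# The two species gas and the one component gas on deformed contours
-/

set_option autoImplicit false
set_option linter.unusedSectionVars false

open MeasureTheory Set Filter Topology Complex

namespace NUSea

open NUMF (l l_pos w g V)
open NUAct

noncomputable section

variable [Sea]

variable {b c B s : ℝ} {ζ ζ' : ℝ → ℂ}

lemma vc_gr : ∃ K : ℝ, 0 ≤ K ∧ ∀ w : ℂ, |w.im| ≤ l / 4 → ‖vc w‖ ≤ K * (1 + |w.re|) := by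
  obtain ⟨K1, h1, h1'⟩ := vs_gr
  obtain ⟨K2, h2, h2'⟩ := vx_gr
  refine ⟨K1 + K2, by positivity, fun w hw => ?_⟩
  rw [vc_eq]
  refine (norm_add_le _ _).trans ?_
  have := h1' w hw
  have := h2' w hw
  linarith

lemma vc_ext (hb : b ≤ l / 7) : Ext b vc := by
  have hl := l_pos
  obtain ⟨K, hK0, hK⟩ := vc_gr
  exact Ext_of_lin (fun z hz => (diff_vs (lt_of_le_of_lt hz (by linarith))).add
    (diff_vx (lt_of_le_of_lt hz (by linarith))))
    (fun z hz => hK z (hz.trans (by linarith)))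

/-- `Pc F` decays -/
lemma ext_dec {F : ℂ → ℂ} (hF : Ext b F) (hb0 : 0 ≤ b) (hb : b < l / 2) :
    ∃ C : ℝ, Dec b C (5 / 3) (fun z => Pc z * F z) := by
  obtain ⟨A, hA⟩ := hF.bd
  obtain ⟨C, hC0, hC1, hC⟩ := Pc_dec hb0 hb
  refine ⟨C * A, fun z hz => (hC1 z hz).mul (hF.diff z hz), fun z hz => ?_⟩
  rw [norm_mul]
  have h8 : Real.exp (-(5 / 3) * |z.re|) = Real.exp (-(8 / 3) * |z.re|) * Real.exp |z.re| := by
    rw [← Real.exp_add]; congr 1; ring
  calc ‖Pc z‖ * ‖F z‖ ≤ (C * Real.exp (-(8 / 3) * |z.re|)) * (A * Real.exp |z.re|) :=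
        mul_le_mul (hC z hz) (hA z hz) (norm_nonneg _) (by positivity)
    _ = _ := by rw [h8]; ring

/-! ### densities -/

lemma rho_bd (s : ℝ) : ∃ C : ℝ, 0 ≤ C ∧ ∀ t : ℝ, ‖((s * P t : ℝ) : ℂ)‖ ≤ C * Real.exp (-(8 / 3) * |t|) := by
  obtain ⟨C, hC, h⟩ := P_le
  refine ⟨|s| * C, by positivity, fun t => ?_⟩
  rw [Complex.norm_real, Real.norm_eq_abs, abs_mul, abs_of_pos (P_pos t), mul_assoc]
  exact mul_le_mul_of_nonneg_left (h t) (abs_nonneg s)

lemma rhoh_bd (s : ℝ) (hb : b ≤ l / 7) (P' : Path b c B ζ ζ') :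
    ∃ C : ℝ, 0 ≤ C ∧ ∀ t : ℝ, ‖(s : ℂ) * (Pc (ζ t) * ζ' t)‖ ≤ C * Real.exp (-(8 / 3) * |t|) := by
  have hl := l_pos
  obtain ⟨C, hC0, hC1, hC⟩ := Pc_dec P'.b0 (lt_of_le_of_lt hb (by linarith))
  have hB := P'.B0
  refine ⟨|s| * (C * Real.exp (8 / 3 * B) * B), by positivity, fun t => ?_⟩
  have h1 := hC _ (P'.im_le t)
  have h2 := P'.re_ge t
  have h3 : Real.exp (-(8 / 3) * |(ζ t).re|) ≤ Real.exp (8 / 3 * B) * Real.exp (-(8 / 3) * |t|) := by
    rw [← Real.exp_add]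
    exact Real.exp_le_exp.2 (by linarith)
  rw [norm_mul, norm_mul, Complex.norm_real, Real.norm_eq_abs, mul_assoc]
  refine mul_le_mul_of_nonneg_left ?_ (abs_nonneg s)
  calc ‖Pc (ζ t)‖ * ‖ζ' t‖ ≤ (C * (Real.exp (8 / 3 * B) * Real.exp (-(8 / 3) * |t|))) * B :=
        mul_le_mul (h1.trans (mul_le_mul_of_nonneg_left h3 hC0)) (P'.dle t) (norm_nonneg _)
          (by positivity)
    _ = _ := by ring

lemma rhoh_cont (s : ℝ) (hb : b ≤ l / 7) (P' : Path b c B ζ ζ') :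
    Continuous fun t => (s : ℂ) * (Pc (ζ t) * ζ' t) := by
  have hl := l_pos
  have hc : ContinuousOn Pc {z : ℂ | |z.im| ≤ b} := fun z hz =>
    (Pc_diff (lt_of_le_of_lt hz (by linarith))).continuousAt.continuousWithinAt
  exact continuous_const.mul ((hc.comp_continuous P'.continuous P'.im_le).mul P'.cont)

lemma rho_cont (s : ℝ) : Continuous fun t => ((s * P t : ℝ) : ℂ) :=
  Complex.continuous_ofReal.comp (continuous_const.mul P_cont)

/-! ### contour invariance -/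

lemma cv_gen (s : ℝ) {F : ℂ → ℂ} (hb : b ≤ l / 7) (P' : Path b c B ζ ζ') (hF : Ext b F) :
    Integrable (fun t => (s : ℂ) * (Pc (ζ t) * ζ' t) * F (ζ t)) ∧
    ∫ t, (s : ℂ) * (Pc (ζ t) * ζ' t) * F (ζ t) = ∫ t : ℝ, ((s * P t : ℝ) : ℂ) * F t := by
  have hl := l_pos
  obtain ⟨C, hD⟩ := ext_dec hF P'.b0 (lt_of_le_of_lt hb (by linarith))
  obtain ⟨i1, i2, e⟩ := path_shift (by norm_num) hD P'
  have e1 : (fun t => (s : ℂ) * (Pc (ζ t) * ζ' t) * F (ζ t)) =
      fun t => (s : ℂ) * (Pc (ζ t) * F (ζ t) * ζ' t) := by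
    funext t
    ring
  rw [e1]
  refine ⟨i1.const_mul _, ?_⟩
  rw [integral_const_mul, e, ← integral_const_mul]
  refine integral_congr_ae (Eventually.of_forall fun t => ?_)
  simp only
  rw [Pc_ofReal]
  push_cast
  ring

/-! ### two species -/

/-- the two species gas on the contours `ζ a` -/
def two (s : ℝ) (ζ ζ' : Bool → ℝ → ℂ) (Fe : Bool → ℂ → ℂ) : Gas Bool where
  K0 a b t t' := if a = b then -Real.log (w (t - t')) else -Real.log (g (t - t'))
  K a b t t' := if a = b then Up Us (ζ a) t t' else Ux (ζ a t - ζ b t')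
  ρ _ t := s * P t
  ρh a t := s * (Pc (ζ a t) * ζ' a t)
  v _ t := s * v t
  vh a t := s * vc (ζ a t)
  F a t := Fe a t
  Fh a t := Fe a (ζ a t)

lemma conv_w (x : ℝ) : Integrable (fun s => P s * Real.log (w (x - s))) ∧
    ∫ s, P s * Real.log (w (x - s)) = -(vs x).re := by
  obtain ⟨K, hK⟩ := ks_bd
  have hx : |(x : ℂ).im| < l / 2 := by
    have := l_pos
    simp only [Complex.ofReal_im, abs_zero]
    linarith
  have i1 := (J_int ks_meas hK hx).re
  have e : (fun u : ℝ => RCLike.re (Pc ((x : ℂ) - u) * ks u)) =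
      fun u => -(P (x - u) * Real.log (w u)) := by
    funext u
    rw [← Complex.ofReal_sub, Pc_ofReal]
    unfold ks
    rw [← Complex.ofReal_mul]
    show ((P (x - u) * -Real.log (w u) : ℝ) : ℂ).re = _
    rw [Complex.ofReal_re]
    ring
  rw [e] at i1
  have e2 : (fun u : ℝ => P (x - u) * Real.log (w u)) =
      fun u => (fun s => P s * Real.log (w (x - s))) (x - u) := by
    funext u
    simp only
    rw [show x - (x - u) = u by ring]
  have i2 : Integrable fun u : ℝ => P (x - u) * Real.log (w u) := by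
    refine i1.neg.congr (Eventually.of_forall fun u => ?_)
    simp
  rw [e2] at i2
  have i3 : Integrable fun s => P s * Real.log (w (x - s)) := by
    have := (integrable_comp_sub_left (fun s => P s * Real.log (w (x - s))) x).1 i2
    exact this
  refine ⟨i3, ?_⟩
  have h1 := integral_sub_left_eq_self (fun s => P s * Real.log (w (x - s))) volume x
  rw [← h1, ← real_s x]
  have h2 : (∫ u : ℝ, (P (x - u) : ℂ) * ks u) = ((∫ u : ℝ, -(P (x - u) * Real.log (w u)) : ℝ) : ℂ) := by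
    rw [← integral_complex_ofReal]
    refine integral_congr_ae (Eventually.of_forall fun u => ?_)
    simp only [ks]
    push_cast
    ring
  rw [h2, Complex.ofReal_re, integral_neg, neg_neg]
  refine integral_congr_ae (Eventually.of_forall fun u => ?_)
  simp only
  rw [show x - (x - u) = u by ring]

lemma conv_g (x : ℝ) : Integrable (fun s => P s * Real.log (g (x - s))) ∧
    ∫ s, P s * Real.log (g (x - s)) = -(vx x).re := by
  obtain ⟨K, hK⟩ := kx_bd
  have hx : |(x : ℂ).im| < l / 2 := by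
    have := l_pos
    simp only [Complex.ofReal_im, abs_zero]
    linarith
  have i1 := (J_int kx_cont.aestronglyMeasurable hK hx).re
  have e : (fun u : ℝ => RCLike.re (Pc ((x : ℂ) - u) * kx u)) =
      fun u => -(P (x - u) * Real.log (g u)) := by
    funext u
    rw [← Complex.ofReal_sub, Pc_ofReal]
    unfold kx
    rw [← Complex.ofReal_mul]
    show ((P (x - u) * -Real.log (g u) : ℝ) : ℂ).re = _
    rw [Complex.ofReal_re]
    ring
  rw [e] at i1
  have e2 : (fun u : ℝ => P (x - u) * Real.log (g u)) =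
      fun u => (fun s => P s * Real.log (g (x - s))) (x - u) := by
    funext u
    simp only
    rw [show x - (x - u) = u by ring]
  have i2 : Integrable fun u : ℝ => P (x - u) * Real.log (g u) := by
    refine i1.neg.congr (Eventually.of_forall fun u => ?_)
    simp
  rw [e2] at i2
  have i3 : Integrable fun s => P s * Real.log (g (x - s)) := by
    have := (integrable_comp_sub_left (fun s => P s * Real.log (g (x - s))) x).1 i2
    exact this
  refine ⟨i3, ?_⟩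
  have h1 := integral_sub_left_eq_self (fun s => P s * Real.log (g (x - s))) volume x
  rw [← h1, ← real_x x]
  have h2 : (∫ u : ℝ, (P (x - u) : ℂ) * kx u) = ((∫ u : ℝ, -(P (x - u) * Real.log (g u)) : ℝ) : ℂ) := by
    rw [← integral_complex_ofReal]
    refine integral_congr_ae (Eventually.of_forall fun u => ?_)
    simp only [kx]
    push_cast
    ring
  rw [h2, Complex.ofReal_re, integral_neg, neg_neg]
  refine integral_congr_ae (Eventually.of_forall fun u => ?_)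
  simp only
  rw [show x - (x - u) = u by ring]

lemma vs_im (t : ℝ) : (vs t).im = 0 := by
  rw [← real_s t]
  have h2 : (∫ u : ℝ, (P (t - u) : ℂ) * ks u) = ((∫ u : ℝ, -(P (t - u) * Real.log (w u)) : ℝ) : ℂ) := by
    rw [← integral_complex_ofReal]
    refine integral_congr_ae (Eventually.of_forall fun u => ?_)
    simp only [ks]
    push_cast
    ring
  rw [h2, Complex.ofReal_im]

lemma vx_im (t : ℝ) : (vx t).im = 0 := by
  rw [← real_x t]
  have h2 : (∫ u : ℝ, (P (t - u) : ℂ) * kx u) = ((∫ u : ℝ, -(P (t - u) * Real.log (g u)) : ℝ) : ℂ) := by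
    rw [← integral_complex_ofReal]
    refine integral_congr_ae (Eventually.of_forall fun u => ?_)
    simp only [kx]
    push_cast
    ring
  rw [h2, Complex.ofReal_im]

lemma vc_ofReal (t : ℝ) : vc t = (v t : ℂ) := by
  apply Complex.ext
  · simp [v]
  · have h1 := vs_im t
    have h2 := vx_im t
    simp [vc, h1, h2]

lemma v_eq (t : ℝ) : v t = (vs t).re + (vx t).re := by
  unfold v vc
  rw [Complex.add_re]

lemma two_K {ζ ζ' : Bool → ℝ → ℂ} {Fe : Bool → ℂ → ℂ} (s : ℝ) (a b' : Bool) (t t' : ℝ) :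
    (two s ζ ζ' Fe).K a b' t t' = if a = b' then Up Us (ζ a) t t' else Ux (ζ a t - ζ b' t') := rfl

lemma two_K0 {ζ ζ' : Bool → ℝ → ℂ} {Fe : Bool → ℂ → ℂ} (s : ℝ) (a b' : Bool) (t t' : ℝ) :
    (two s ζ ζ' Fe).K0 a b' t t' =
      if a = b' then -Real.log (w (t - t')) else -Real.log (g (t - t')) := rfl

lemma two_rho {ζ ζ' : Bool → ℝ → ℂ} {Fe : Bool → ℂ → ℂ} (s : ℝ) (a : Bool) (t : ℝ) :
    (two s ζ ζ' Fe).ρ a t = s * P t := rfl

lemma two_rhoh {ζ ζ' : Bool → ℝ → ℂ} {Fe : Bool → ℂ → ℂ} (s : ℝ) (a : Bool) (t : ℝ) :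
    (two s ζ ζ' Fe).ρh a t = s * (Pc (ζ a t) * ζ' a t) := rfl

lemma two_B {ζ ζ' : Bool → ℝ → ℂ} {Fe : Bool → ℂ → ℂ} (s : ℝ) (a : Bool) (t : ℝ) :
    (two s ζ ζ' Fe).B a t = (s : ℂ) * (Pc (ζ a t) * ζ' a t) - ((s * P t : ℝ) : ℂ) := rfl

section

variable {ζ ζ' : Bool → ℝ → ℂ} {Fe : Bool → ℂ → ℂ}

lemma two_Kbd (s : ℝ) (hb : b ≤ l / 7) (P' : ∀ a, Path b c B (ζ a) (ζ' a)) :
    ∃ K : ℝ, 0 ≤ K ∧ ∀ a b t t', t ≠ t' → ‖(two s ζ ζ' Fe).K a b t t'‖ ≤ K * gr |t - t'| := by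
  have hl := l_pos
  have hb0 := (P' true).b0
  obtain ⟨Ks, hKs⟩ := Us_kern
  have hKs' : Kern (2 * b) Ks Us := ⟨fun z h0 h => hKs.diff z h0 (by linarith),
    fun z h0 h => hKs.bd z h0 (by linarith), hKs.K0⟩
  obtain ⟨Kx, hKx0, hKx⟩ := Ux_gr
  have hB := (P' true).B0
  have hK1 : 0 ≤ Ks * (3 + 2 * |2 * B| + |Real.log c|) := by have := hKs.K0; positivity
  have hK2 : 0 ≤ Kx * (1 + 2 * B) := by positivity
  refine ⟨Ks * (3 + 2 * |2 * B| + |Real.log c|) + Kx * (1 + 2 * B), by linarith,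
    fun a b' t t' hne => ?_⟩
  have hpos : 0 < |t - t'| := abs_pos.2 (sub_ne_zero.2 hne)
  have hg := gr_nonneg hpos
  rw [two_K]
  split_ifs with hab
  · refine (Up_bd hKs' (P' a) t t' hne).trans ?_
    exact mul_le_mul_of_nonneg_right (by linarith) hg
  · have h1 := hKx (ζ a t - ζ b' t') (by
      rw [Complex.sub_im]
      exact (abs_sub _ _).trans (by linarith [(P' a).im_le t, (P' b').im_le t']))
    have h2 : |(ζ a t - ζ b' t').re| ≤ |t - t'| + 2 * B := by
      have a1 := (P' a).re_near t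
      have a2 := (P' b').re_near t'
      have e : (ζ a t - ζ b' t').re = ((ζ a t).re - t) - ((ζ b' t').re - t') + (t - t') := by
        rw [Complex.sub_re]; ring
      rw [e]
      have a3 := abs_add_le (((ζ a t).re - t) - ((ζ b' t').re - t')) (t - t')
      have a4 := abs_sub ((ζ a t).re - t) ((ζ b' t').re - t')
      linarith
    have h3 : 1 + |(ζ a t - ζ b' t').re| ≤ (1 + 2 * B) * gr |t - t'| := by
      unfold gr
      have := abs_nonneg (Real.log |t - t'|)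
      nlinarith [mul_nonneg hB hpos.le, mul_nonneg hB this]
    calc ‖Ux (ζ a t - ζ b' t')‖ ≤ Kx * ((1 + 2 * B) * gr |t - t'|) :=
          h1.trans (mul_le_mul_of_nonneg_left h3 hKx0)
      _ = (Kx * (1 + 2 * B)) * gr |t - t'| := by ring
      _ ≤ _ := mul_le_mul_of_nonneg_right (by linarith) hg

lemma two_Km (s : ℝ) (P' : ∀ a, Path b c B (ζ a) (ζ' a)) (a b' : Bool) :
    Measurable fun p : ℝ × ℝ => (two s ζ ζ' Fe).K a b' p.1 p.2 := by
  simp only [two_K]
  by_cases hab : a = b'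
  · simp only [hab, if_true]
    exact Up_meas Us_meas (P' b').continuous
  · simp only [hab, if_false]
    have h1 := (P' a).continuous.measurable
    have h2 := (P' b').continuous.measurable
    exact Ux_meas.comp ((h1.comp measurable_fst).sub (h2.comp measurable_snd))

lemma two_Km1 (s : ℝ) (P' : ∀ a, Path b c B (ζ a) (ζ' a)) (a b' : Bool) (t : ℝ) :
    Measurable fun t' : ℝ => (two s ζ ζ' Fe).K a b' t t' :=
  Measurable.of_uncurry_left (f := fun t t' => (two s ζ ζ' Fe).K a b' t t') (two_Km s P' a b')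

lemma two_Bbd (s : ℝ) (hb : b ≤ l / 7) (P' : ∀ a, Path b c B (ζ a) (ζ' a)) (a : Bool) :
    ∃ C : ℝ, ∀ t, ‖(two s ζ ζ' Fe).B a t‖ ≤ C * Real.exp (-(8 / 3) * |t|) := by
  obtain ⟨C, hC0, hC⟩ := rhoh_bd s hb (P' a)
  obtain ⟨Cr, hCr0, hCr⟩ := rho_bd s
  refine ⟨C + Cr, fun t => ?_⟩
  rw [two_B]
  refine (norm_sub_le _ _).trans ?_
  rw [add_mul]
  exact add_le_add (hC t) (hCr t)

lemma two_Bm (s : ℝ) (hb : b ≤ l / 7) (P' : ∀ a, Path b c B (ζ a) (ζ' a)) (a : Bool) :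
    Measurable fun t => (two s ζ ζ' Fe).B a t := by
  simp only [two_B]
  exact (rhoh_cont s hb (P' a)).measurable.sub (rho_cont s).measurable

lemma two_symm (s : ℝ) (a b' : Bool) (t t' : ℝ) :
    (two s ζ ζ' Fe).K a b' t t' = (two s ζ ζ' Fe).K b' a t' t := by
  rw [two_K, two_K]
  by_cases hab : a = b'
  · rw [if_pos hab, if_pos hab.symm, hab]
    exact Up_symm _ _ _
  · rw [if_neg hab, if_neg (Ne.symm hab), ← Ux_neg, neg_sub]

lemma two_i0 (s : ℝ) (a b' : Bool) (t : ℝ) :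
    Integrable fun t' => (two s ζ ζ' Fe).K0 a b' t t' * (two s ζ ζ' Fe).ρ b' t' := by
  simp only [two_K0, two_rho]
  by_cases hab : a = b'
  · simp only [hab, if_true]
    refine ((conv_w t).1.const_mul (-s)).congr (Eventually.of_forall fun t' => ?_)
    simp only
    ring
  · simp only [hab, if_false]
    refine ((conv_g t).1.const_mul (-s)).congr (Eventually.of_forall fun t' => ?_)
    simp only
    ring

lemma two_i1 (s : ℝ) (hb : b ≤ l / 7) (P' : ∀ a, Path b c B (ζ a) (ζ' a)) (a b' : Bool) (t : ℝ) :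
    Integrable fun t' => (two s ζ ζ' Fe).K a b' t t' * (two s ζ ζ' Fe).ρ b' t' := by
  obtain ⟨K, hK0, hK⟩ := two_Kbd (Fe := Fe) s hb P'
  obtain ⟨Cr, hCr0, hCr⟩ := rho_bd s
  simp only [two_rho]
  have h := ker_int (k := fun t' => (two s ζ ζ' Fe).K a b' t t') (f := fun t' => ((s * P t' : ℝ) : ℂ))
    (κ := 8 / 3) (two_Km1 s P' a b' t)
    (rho_cont s).measurable (by norm_num) (fun t' ht => hK a b' t t' ht) hCr
  exact h

lemma two_i2 (s : ℝ) (hb : b ≤ l / 7) (P' : ∀ a, Path b c B (ζ a) (ζ' a)) (a b' : Bool) (t : ℝ) :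
    Integrable fun t' => (two s ζ ζ' Fe).K a b' t t' * (two s ζ ζ' Fe).ρh b' t' := by
  obtain ⟨K, hK0, hK⟩ := two_Kbd (Fe := Fe) s hb P'
  obtain ⟨C, hC0, hC⟩ := rhoh_bd s hb (P' b')
  simp only [two_rhoh]
  have h := ker_int (k := fun t' => (two s ζ ζ' Fe).K a b' t t')
    (f := fun t' => (s : ℂ) * (Pc (ζ b' t') * ζ' b' t'))
    (κ := 8 / 3) (two_Km1 s P' a b' t)
    (rhoh_cont s hb (P' b')).measurable (by norm_num) (fun t' ht => hK a b' t t' ht) hC
  exact h

lemma two_fe0 (s : ℝ) (a : Bool) (t : ℝ) :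
    ∑ b', (∫ t', (two s ζ ζ' Fe).K0 a b' t t' * (two s ζ ζ' Fe).ρ b' t') = s * v t := by
  have hs : ∫ t', -Real.log (w (t - t')) * (s * P t') = s * (vs t).re := by
    have e : s * (vs t).re = -(s * -(vs t).re) := by ring
    rw [e, ← (conv_w t).2, ← integral_const_mul, ← integral_neg]
    refine integral_congr_ae (Eventually.of_forall fun t' => ?_)
    simp only
    ring
  have hx : ∫ t', -Real.log (g (t - t')) * (s * P t') = s * (vx t).re := by
    have e : s * (vx t).re = -(s * -(vx t).re) := by ring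
    rw [e, ← (conv_g t).2, ← integral_const_mul, ← integral_neg]
    refine integral_congr_ae (Eventually.of_forall fun t' => ?_)
    simp only
    ring
  have hv : s * (vs t).re + s * (vx t).re = s * v t := by
    rw [v_eq]
    ring
  simp only [two_K0, two_rho]
  rw [Fintype.sum_bool]
  cases a
  · simp only [Bool.false_eq_true, if_false, if_true]
    rw [hs, hx, ← hv]
    ring
  · simp only [Bool.true_eq_false, if_false, if_true]
    rw [hs, hx, ← hv]

lemma two_fe (s : ℝ) (hb : b ≤ l / 7) (P' : ∀ a, Path b c B (ζ a) (ζ' a)) (a : Bool) (t : ℝ) :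
    ∑ b', (∫ t', (two s ζ ζ' Fe).K a b' t t' * (two s ζ ζ' Fe).ρh b' t') = s * vc (ζ a t) := by
  have hs := (fe_s hb (P' a) t).2
  have hx : ∀ b', ∫ t', Ux (ζ a t - ζ b' t') * (Pc (ζ b' t') * ζ' b' t') = vx (ζ a t) :=
    fun b' => (fe_x hb (P' b') ((P' a).im_le t)).2
  have hs' : ∫ t', Up Us (ζ a) t t' * ((s : ℂ) * (Pc (ζ a t') * ζ' a t')) = s * vs (ζ a t) := by
    rw [← hs, ← integral_const_mul]
    refine integral_congr_ae (Eventually.of_forall fun t' => ?_)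
    simp only
    ring
  have hx' : ∀ b', ∫ t', Ux (ζ a t - ζ b' t') * ((s : ℂ) * (Pc (ζ b' t') * ζ' b' t')) =
      s * vx (ζ a t) := by
    intro b'
    rw [← hx b', ← integral_const_mul]
    refine integral_congr_ae (Eventually.of_forall fun t' => ?_)
    simp only
    ring
  simp only [two_K, two_rhoh]
  rw [Fintype.sum_bool, vc_eq]
  cases a
  · simp only [Bool.false_eq_true, if_false, if_true]
    rw [hs', hx']
    ring
  · simp only [Bool.true_eq_false, if_false, if_true]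
    rw [hs', hx']
    ring

lemma two_p1 (s : ℝ) (hb : b ≤ l / 7) (P' : ∀ a, Path b c B (ζ a) (ζ' a)) (a b' : Bool) :
    Integrable fun p : ℝ × ℝ => (two s ζ ζ' Fe).ρ a p.1 * (two s ζ ζ' Fe).K a b' p.1 p.2 *
      (two s ζ ζ' Fe).B b' p.2 := by
  obtain ⟨K, hK0, hK⟩ := two_Kbd (Fe := Fe) s hb P'
  obtain ⟨C, hC⟩ := two_Bbd (Fe := Fe) s hb P' b'
  obtain ⟨Cr, hCr0, hCr⟩ := rho_bd s
  have e83 : -(8 / 3 : ℝ) = -(2 * (4 / 3)) := by norm_num
  rw [e83] at hC hCr
  simp only [two_rho]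
  have h := ker_int2 (k := fun p => (two s ζ ζ' Fe).K a b' p.1 p.2)
    (f1 := fun t => ((s * P t : ℝ) : ℂ)) (f2 := fun t => (two s ζ ζ' Fe).B b' t) (κ := 4 / 3)
    (two_Km s P' a b')
    (rho_cont s).measurable (two_Bm s hb P' b') (by norm_num) (fun t t' ht => hK a b' t t' ht) hCr hC
  exact h

lemma two_p2 (s : ℝ) (hb : b ≤ l / 7) (P' : ∀ a, Path b c B (ζ a) (ζ' a)) (a b' : Bool) :
    Integrable fun p : ℝ × ℝ => (two s ζ ζ' Fe).B a p.1 * (two s ζ ζ' Fe).K a b' p.1 p.2 *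
      (two s ζ ζ' Fe).B b' p.2 := by
  obtain ⟨K, hK0, hK⟩ := two_Kbd (Fe := Fe) s hb P'
  obtain ⟨C, hC⟩ := two_Bbd (Fe := Fe) s hb P' b'
  obtain ⟨C', hC'⟩ := two_Bbd (Fe := Fe) s hb P' a
  have e83 : -(8 / 3 : ℝ) = -(2 * (4 / 3)) := by norm_num
  rw [e83] at hC hC'
  exact ker_int2 (k := fun p => (two s ζ ζ' Fe).K a b' p.1 p.2) (κ := 4 / 3) (two_Km s P' a b')
    (two_Bm s hb P' a) (two_Bm s hb P' b') (by norm_num) (fun t t' ht => hK a b' t t' ht) hC' hC

end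

/-- `ρ v` -/
lemma int_rv (s : ℝ) : Integrable fun t : ℝ => s * P t * (s * v t) := by
  have hl := l_pos
  have hb0 : (0:ℝ) ≤ l / 7 := by linarith
  obtain ⟨Cr, hCr0, hCr⟩ := rho_bd s
  have hv := (vc_ext (b := l / 7) le_rfl)
  obtain ⟨A, hA⟩ := hv.bd
  have h1 : Integrable fun t : ℝ => ((s * P t : ℝ) : ℂ) * ((s : ℂ) * vc t) :=
    int_dens (A := |s| * A) (rho_cont s) (continuous_const.mul (hv.cont' hb0)) hCr fun t => by
      rw [norm_mul, Complex.norm_real, Real.norm_eq_abs, mul_assoc]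
      exact mul_le_mul_of_nonneg_left (by simpa using hA t (by simpa using hb0)) (abs_nonneg _)
  refine h1.re.congr (Eventually.of_forall fun t => ?_)
  show (((s * P t : ℝ) : ℂ) * ((s : ℂ) * vc t)).re = s * P t * (s * v t)
  rw [vc_ofReal, ← Complex.ofReal_mul, ← Complex.ofReal_mul, Complex.ofReal_re]

/-- `ρ vh` -/
lemma int_rvh (s : ℝ) (hb : b ≤ l / 7) (P' : Path b c B ζ ζ') :
    Integrable fun t : ℝ => ((s * P t : ℝ) : ℂ) * ((s : ℂ) * vc (ζ t)) := by
  obtain ⟨Cr, hCr0, hCr⟩ := rho_bd s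
  have hv := (vc_ext hb (b := b))
  obtain ⟨A, hA0, hA⟩ := hv.bd_path P'
  exact int_dens (A := |s| * A) (rho_cont s) (continuous_const.mul (hv.cont P')) hCr fun t => by
      rw [norm_mul, Complex.norm_real, Real.norm_eq_abs, mul_assoc]
      exact mul_le_mul_of_nonneg_left (hA t) (abs_nonneg _)

lemma int_rhvh (s : ℝ) (hb : b ≤ l / 7) (P' : Path b c B ζ ζ') :
    Integrable (fun t : ℝ => (s : ℂ) * (Pc (ζ t) * ζ' t) * ((s : ℂ) * vc (ζ t))) ∧
    ∫ t, (s : ℂ) * (Pc (ζ t) * ζ' t) * ((s : ℂ) * vc (ζ t)) =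
      ∫ t, ((s * P t : ℝ) : ℂ) * ((s * v t : ℝ) : ℂ) := by
  have h0 := cv_gen s hb P' (vc_ext hb)
  have e : (fun t : ℝ => (s : ℂ) * (Pc (ζ t) * ζ' t) * ((s : ℂ) * vc (ζ t))) =
      fun t => (s : ℂ) * ((s : ℂ) * (Pc (ζ t) * ζ' t) * vc (ζ t)) := by
    funext t
    ring
  rw [e]
  refine ⟨h0.1.const_mul _, ?_⟩
  rw [integral_const_mul, h0.2, ← integral_const_mul]
  refine integral_congr_ae (Eventually.of_forall fun t => ?_)
  simp only
  rw [vc_ofReal]
  push_cast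
  ring

lemma int_rF (s : ℝ) {F : ℂ → ℂ} (hb0 : 0 ≤ b) (hF : Ext b F) :
    Integrable fun t : ℝ => ((s * P t : ℝ) : ℂ) * F t := by
  obtain ⟨Cr, hCr0, hCr⟩ := rho_bd s
  obtain ⟨A, hA⟩ := hF.bd
  exact int_dens (A := A) (rho_cont s) (hF.cont' hb0) hCr fun t => by
    simpa using hA t (by simpa using hb0)

lemma int_rFh (s : ℝ) {F : ℂ → ℂ} (P' : Path b c B ζ ζ') (hF : Ext b F) :
    Integrable fun t : ℝ => ((s * P t : ℝ) : ℂ) * F (ζ t) := by
  obtain ⟨Cr, hCr0, hCr⟩ := rho_bd s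
  obtain ⟨A, hA0, hA⟩ := hF.bd_path P'
  exact int_dens (A := A) (rho_cont s) (hF.cont P') hCr hA

/-- **the two species gas satisfies the hypotheses of the abstract action identity** -/
theorem two_ok {ζ ζ' : Bool → ℝ → ℂ} {Fe : Bool → ℂ → ℂ} (s : ℝ) (hb : b ≤ l / 7)
    (P' : ∀ a, Path b c B (ζ a) (ζ' a)) (hF : ∀ a, Ext b (Fe a)) : (two s ζ ζ' Fe).Ok where
  symm := two_symm s
  i0 := two_i0 s
  i1 := two_i1 s hb P'
  i2 := two_i2 s hb P'
  fe0 := two_fe0 s
  fe := two_fe s hb P'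
  p1 := two_p1 s hb P'
  p2 := two_p2 s hb P'
  j1 _ := int_rv s
  j2 a := int_rvh s hb (P' a)
  j3 a := (int_rhvh s hb (P' a)).1
  j4 a := int_rF s (P' a).b0 (hF a)
  j5 a := int_rFh s (P' a) (hF a)
  j6 a := (cv_gen s hb (P' a) (hF a)).1
  cv a := (int_rhvh s hb (P' a)).2
  cF a := (cv_gen s hb (P' a) (hF a)).2

end

end NUSea
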