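import Pool.Agent.NUSea.Sea
import Pool.Agent.NUP.MF.Str

/-!
# The cloud of a quantum in a general sea

`clo j t = ∫ P(s) lq j (t - s) ds + ∫ P(s) lqg j (t - s) ds`; integrability by comparison with the
density `NUMF.P`.
-/

set_option autoImplicit false
set_option linter.unusedSectionVars false

open MeasureTheory Set Filter Topology

namespace NUSea.O

open NUMF (l l_pos lq lqg)

noncomputable section

variable [Sea]

/-- the density is comparable with that of the rows at `0` -/
lemma P_le_NUMF : ∃ C : ℝ, 0 < C ∧ ∀ t : ℝ, P t ≤ C * NUMF.P t := by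
  obtain ⟨C, hC, h⟩ := P_le
  obtain ⟨c, hcd⟩ : ∃ c : ℝ, c = 4 / (√3 * Real.pi) := ⟨_, rfl⟩
  have hc : 0 < c := by
    rw [hcd]
    have := Real.pi_pos
    positivity
  have h' : ∀ t : ℝ, c * Real.exp (-(8 / 3) * |t|) ≤ NUMF.P t := fun t => by
    rw [hcd]
    exact NUMF.le_P t
  refine ⟨C / c, by positivity, fun t => (h t).trans ?_⟩
  calc C * Real.exp (-(8 / 3) * |t|) = C / c * (c * Real.exp (-(8 / 3) * |t|)) := by field_simp
    _ ≤ _ := mul_le_mul_of_nonneg_left (h' t) (by positivity)

/-- integrability against the density of a general sea from that against `NUMF.P` -/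
lemma int_of {f : ℝ → ℝ} (hf : Integrable fun s => NUMF.P s * f s) :
    Integrable fun s => P s * f s := by
  obtain ⟨C, hC, h⟩ := P_le_NUMF
  have hcont : Continuous fun s => P s / NUMF.P s :=
    P_cont.div NUMF.P_cont fun s => (NUMF.P_pos s).ne'
  have h1 := hf.bdd_mul (c := C) hcont.aestronglyMeasurable (Eventually.of_forall fun s => by
    have h1 := NUMF.P_pos s
    rw [Real.norm_eq_abs, abs_of_nonneg (div_nonneg (P_pos s).le h1.le), div_le_iff₀ h1]
    exact h s)
  refine h1.congr (Eventually.of_forall fun s => ?_)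
  have h1 := (NUMF.P_pos s).ne'
  simp only
  field_simp

lemma int_lq (j t : ℝ) : Integrable fun s => P s * lq j (t - s) := int_of (NUMF.int_lq j t).1

lemma int_lqg (j t : ℝ) : Integrable fun s => P s * lqg j (t - s) := int_of (NUMF.int_lqg j t).1

lemma int_h (t y : ℝ) : Integrable fun s => P s * NUMF.h (t - s) y :=
  int_of (NUMF.Ph_integrable t y)

/-- the cloud of a quantum at offset `j`, height `t` -/
def clo (j t : ℝ) : ℝ := (∫ s, P s * lq j (t - s)) + ∫ s, P s * lqg j (t - s)

end

end NUSea.O
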