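import Pool.Agent.NUO.OneB
import Pool.Agent.NUSea.Clo

/-!
# Clouds of the objects in a general sea

`mfo B = ∫ P (log ppN true + log ppN false)` with the density `P` of a general sea: copy of the second
half of `NUO/OneB`.
-/

set_option autoImplicit false
set_option linter.unusedSectionVars false

noncomputable section

open Complex MeasureTheory Set

namespace NUSea.O

open NUP1 NUO

variable [Sea]

/-! ### clouds -/

/-- interaction of the constituents `B` with the clouds of one row pair -/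
def mfo (B : List (Bool × Bool × ℂ)) : ℝ := ∫ t, P t * lpL B (vl l t)

/-- `v` is the interaction of `B` with the clouds -/
structure Cloud (B : List (Bool × Bool × ℂ)) (v : ℝ) : Prop where
  int : Integrable fun t => P t * lpL B (vl l t)
  val : mfo B = v
  ne : ∀ᵐ t : ℝ, ∀ s, ppN [(s, false, vl l t)] B ≠ 0

theorem Cloud.nil : Cloud [] 0 := by
  have h : ∀ z, lpL [] z = 0 := fun z => by simp [lpL, ppN]
  refine ⟨by simp [h], by simp [mfo, h], Filter.Eventually.of_forall fun t s => by simp [ppN]⟩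

theorem Cloud.cons {b : Bool × Bool × ℂ} {B : List (Bool × Bool × ℂ)} {v v' : ℝ} (hb : Cloud [b] v)
    (hB : Cloud B v') : Cloud (b :: B) (v + v') := by
  have e : ∀ᵐ t : ℝ, lpL (b :: B) (vl l t) = lpL [b] (vl l t) + lpL B (vl l t) := by
    filter_upwards [hb.ne, hB.ne] with t h1 h2
    have e1 : ∀ s, Real.log (ppN [(s, false, vl l t)] (b :: B)) =
        Real.log (ppN [(s, false, vl l t)] [b]) + Real.log (ppN [(s, false, vl l t)] B) := by
      intro s
      rw [← Real.log_mul (h1 s) (h2 s), ppN_single, ppN_single, ppN_single, List.map_cons,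
        List.prod_cons, List.map_singleton, List.prod_singleton]
    unfold lpL
    rw [e1, e1]
    ring
  have e' : (fun t => P t * lpL (b :: B) (vl l t)) =ᵐ[volume]
      fun t => P t * lpL [b] (vl l t) + P t * lpL B (vl l t) := by
    filter_upwards [e] with t ht
    rw [ht, mul_add]
  refine ⟨(hb.int.add hB.int).congr e'.symm, ?_, ?_⟩
  · unfold mfo
    rw [integral_congr_ae e', integral_add hb.int hB.int, ← hb.val, ← hB.val]
    rfl
  · filter_upwards [hb.ne, hB.ne] with t h1 h2 s
    rw [ppN_single, List.map_cons, List.prod_cons]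
    have h1' := h1 s
    have h2' := h2 s
    rw [ppN_single, List.map_singleton, List.prod_singleton] at h1'
    rw [ppN_single] at h2'
    exact mul_ne_zero h1' h2'

/-- constituent: general principle -/
theorem Cloud.of {σ ty : Bool} {u : ℂ} {f g : ℝ → ℝ} {τ : ℝ}
    (h1 : ∀ t : ℝ, t ≠ τ → Kn.pz false ty (vl l t - u) ≠ 0 ∧
      Real.log ‖Kn.pz false ty (vl l t - u)‖ = f t)
    (h2 : ∀ t : ℝ, t ≠ τ → Kn.cz false ty (vl l t - u) ≠ 0 ∧
      Real.log ‖Kn.cz false ty (vl l t - u)‖ = g t)
    (hf : Integrable fun t => P t * f t) (hg : Integrable fun t => P t * g t) :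
    Cloud [(σ, ty, u)] ((∫ t, P t * f t) + ∫ t, P t * g t) := by
  have ht : ∀ᵐ t : ℝ, t ≠ τ := by
    have : ({τ} : Set ℝ)ᶜ ∈ ae (volume : Measure ℝ) := compl_mem_ae_iff.2 (by simp)
    filter_upwards [this] with t ht using ht
  have e : (fun t => P t * lpL [(σ, ty, u)] (vl l t)) =ᵐ[volume]
      fun t => P t * f t + P t * g t := by
    filter_upwards [ht] with t ht
    rw [lpL_single, (h1 t ht).2, (h2 t ht).2, mul_add]
  refine ⟨(hf.add hg).congr e.symm, ?_, ?_⟩
  · unfold mfo
    rw [integral_congr_ae e, integral_add hf hg]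
  · filter_upwards [ht] with t ht s
    rw [ppN_single, List.map_singleton, List.prod_singleton, pp_false]
    split_ifs
    · exact norm_ne_zero_iff.2 (h1 t ht).1
    · exact norm_ne_zero_iff.2 (h2 t ht).1

/-- the cloud of a quantum at offset `j` -/
theorem good_quantum (σ : Bool) (j τ : ℝ) : Cloud [(σ, false, vl ((1 - j) * l) τ)] (clo j τ) := by
  have i1 := int_lq j τ
  have i2 := int_lqg j τ
  have h := Cloud.of (σ := σ) (ty := false) (u := vl ((1 - j) * l) τ) (τ := τ)
    (f := fun t => NUMF.lq j (τ - t)) (g := fun t => NUMF.lqg j (τ - t)) (fun t ht => ?_)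
    (fun t ht => ?_) i1 i2
  · exact h
  · have := NUMF.log_q (j := j) (sub_ne_zero.2 ht)
    rw [vl_sub]
    change q _ ≠ 0 ∧ Real.log ‖q _‖ = _
    rw [q_bridge]
    refine ⟨this.1, this.2.trans ?_⟩
    rw [← lq_neg, neg_sub]
  · have := NUMF.log_qg (j := j) (sub_ne_zero.2 ht)
    rw [vl_sub]
    change Bd.qg _ ≠ 0 ∧ Real.log ‖Bd.qg _‖ = _
    rw [qg_bridge]
    refine ⟨this.1, this.2.trans ?_⟩
    rw [← lqg_neg, neg_sub]

/-- the cloud of a string at offset `j` (quanta at `j` and `j + 1`) -/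
theorem good_string (σ : Bool) (j τ : ℝ) :
    Cloud [(σ, true, vl ((1 - j) * l) τ)] (clo j τ + clo (j + 1) τ) := by
  have i1 := int_lq j τ
  have i2 := int_lqg j τ
  have i3 := int_lq (j + 1) τ
  have i4 := int_lqg (j + 1) τ
  have j1 : Integrable fun t => P t * (NUMF.lq j (τ - t) + NUMF.lq (j + 1) (τ - t)) := by
    refine (i1.add i3).congr (Filter.Eventually.of_forall fun t => ?_)
    simp only [Pi.add_apply]
    ring
  have j2 : Integrable fun t => P t * (NUMF.lqg j (τ - t) + NUMF.lqg (j + 1) (τ - t)) := by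
    refine (i2.add i4).congr (Filter.Eventually.of_forall fun t => ?_)
    simp only [Pi.add_apply]
    ring
  have h := Cloud.of (σ := σ) (ty := true) (u := vl ((1 - j) * l) τ) (τ := τ)
    (f := fun t => NUMF.lq j (τ - t) + NUMF.lq (j + 1) (τ - t))
    (g := fun t => NUMF.lqg j (τ - t) + NUMF.lqg (j + 1) (τ - t)) (fun t ht => ?_)
    (fun t ht => ?_) j1 j2
  · have e : clo j τ + clo (j + 1) τ =
        (∫ t, P t * (NUMF.lq j (τ - t) + NUMF.lq (j + 1) (τ - t))) +
        ∫ t, P t * (NUMF.lqg j (τ - t) + NUMF.lqg (j + 1) (τ - t)) := by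
      simp only [mul_add]
      rw [integral_add i1 i3, integral_add i2 i4]
      unfold clo
      ring
    rw [e]
    exact h
  · have hne := sub_ne_zero.2 ht
    have k1 := NUMF.log_q (j := j) hne
    have k2 := NUMF.log_q (j := j + 1) hne
    rw [← q_bridge] at k1 k2
    rw [vl_sub]
    change q1 _ ≠ 0 ∧ Real.log ‖q1 _‖ = _
    have hz := zj_l j (t - τ)
    have n0 := NUMF.zsin_ne (j := j) hne
    have n1 := NUMF.zsin_ne (j := j + 1) hne
    have n2 := NUMF.zsin_ne (j := j + 2) hne
    have n3 := NUMF.zsin_ne (j := j + -1) hne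
    have e2 := NUMF.zj_add j (t - τ) 2
    have e3 := NUMF.zj_add j (t - τ) (-1)
    rw [l_eq] at e2 e3
    rw [← hz] at n1 k2
    rw [← e2] at n2
    rw [← e3] at n3
    have hq := q1_eq n0 n1 (by
      rw [sub_eq_add_neg]
      convert n3 using 3
      push_cast
      ring) (by
      convert n2 using 3
      push_cast
      ring)
    rw [← hq, norm_mul, Real.log_mul (norm_ne_zero_iff.2 k1.1) (norm_ne_zero_iff.2 k2.1), k1.2, k2.2]
    refine ⟨mul_ne_zero k1.1 k2.1, ?_⟩
    rw [← lq_neg, neg_sub, ← lq_neg (j + 1), neg_sub]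
  · have hne := sub_ne_zero.2 ht
    have k1 := NUMF.log_qg (j := j) hne
    have k2 := NUMF.log_qg (j := j + 1) hne
    rw [← qg_bridge] at k1 k2
    rw [vl_sub]
    change Bd.qg _ * Bd.qg _ ≠ 0 ∧ Real.log ‖Bd.qg _ * Bd.qg _‖ = _
    rw [← zj_l] at k2
    rw [norm_mul, Real.log_mul (norm_ne_zero_iff.2 k1.1) (norm_ne_zero_iff.2 k2.1), k1.2, k2.2]
    refine ⟨mul_ne_zero k1.1 k2.1, ?_⟩
    rw [← lqg_neg, neg_sub, ← lqg_neg (j + 1), neg_sub]

end NUSea.O
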