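import Pool.Agent.NUAct.PhiQ3

/-!
# A general sea

`class Sea`: a positive even density `P` of mass one on the line with tail `e^{-8|t|/3}`, analytic in
`|Im z| < l / 2`, with field equations `(-log w) * P = vs`, `(-log g) * P = vx` for analytic `vs`,
`vx` of linear growth.  Instances (`NUSea/Inst.lean`): `seaP` (rows at 0) and `seaH` (rows at
`± l / 2`).  All of `NUAct` is repeated for a general sea: same names, namespace `NUSea`.
-/

set_option autoImplicit false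

open MeasureTheory Set Filter Topology Complex

namespace NUSea

open NUMF (l l_pos)

noncomputable section

/-- a sea -/
class Sea where
  /-- the density -/
  dens : ℝ → ℝ
  /-- its continuation -/
  densc : ℂ → ℂ
  /-- field of the own species -/
  fs : ℂ → ℂ
  /-- field of the other species -/
  fx : ℂ → ℂ
  real : ∀ t : ℝ, densc t = (dens t : ℂ)
  diff : ∀ z : ℂ, |z.im| < l / 2 → DifferentiableAt ℂ densc z
  bd : ∀ (n : ℕ) (b : ℝ), 0 ≤ b → b < l / 2 → ∃ C : ℝ, 0 ≤ C ∧ ∀ z : ℂ, |z.im| ≤ b →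
    ‖iteratedDeriv n densc z‖ ≤ C * Real.exp (-(8 / 3) * |z.re|)
  low : ∃ c : ℝ, 0 < c ∧ ∀ t : ℝ, c * Real.exp (-(8 / 3) * |t|) ≤ dens t
  even : ∀ t, dens (-t) = dens t
  mass : ∫ t, dens t = 1
  conv_s : ∀ x : ℝ, ∫ u : ℝ, (dens (x - u) : ℂ) * NUAct.ks u = fs x
  conv_x : ∀ x : ℝ, ∫ u : ℝ, (dens (x - u) : ℂ) * NUAct.kx u = fx x
  fs_diff : ∀ z : ℂ, |z.im| < l / 2 → DifferentiableAt ℂ fs z
  fx_diff : ∀ z : ℂ, |z.im| < l / 2 → DifferentiableAt ℂ fx z
  fs_gr : ∃ K : ℝ, 0 ≤ K ∧ ∀ z : ℂ, |z.im| ≤ l / 4 → ‖fs z‖ ≤ K * (1 + |z.re|)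
  fx_gr : ∃ K : ℝ, 0 ≤ K ∧ ∀ z : ℂ, |z.im| ≤ l / 4 → ‖fx z‖ ≤ K * (1 + |z.re|)

lemma strip_open : IsOpen {z : ℂ | |z.im| < l / 2} :=
  isOpen_lt (continuous_abs.comp Complex.continuous_im) continuous_const

variable [X : Sea]

/-- the density -/
def P : ℝ → ℝ := X.dens

/-- the density on complex arguments -/
def Pc : ℂ → ℂ := X.densc

/-- field of the own species -/
def vs : ℂ → ℂ := X.fs

/-- field of the other species -/
def vx : ℂ → ℂ := X.fx

/-- the field of both species -/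
def vc (z : ℂ) : ℂ := vs z + vx z

/-- the field on the line -/
def v (t : ℝ) : ℝ := (vc t).re

lemma Pc_ofReal (t : ℝ) : Pc t = (P t : ℂ) := X.real t

lemma P_neg (t : ℝ) : P (-t) = P t := X.even t

lemma Pc_diff {z : ℂ} (hz : |z.im| < l / 2) : DifferentiableAt ℂ Pc z := X.diff z hz

lemma vc_eq (z : ℂ) : vc z = vs z + vx z := rfl

/-- `Pc` is analytic on the open strip -/
theorem Pc_analyticAt {z : ℂ} (hz : |z.im| < l / 2) : AnalyticAt ℂ Pc z := by
  have hd : DifferentiableOn ℂ Pc {z : ℂ | |z.im| < l / 2} := fun w hw =>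
    (Pc_diff hw).differentiableWithinAt
  exact hd.analyticAt (strip_open.mem_nhds hz)

lemma diff_vs {z : ℂ} (hz : |z.im| < l / 2) : DifferentiableAt ℂ vs z := X.fs_diff z hz

lemma diff_vx {z : ℂ} (hz : |z.im| < l / 2) : DifferentiableAt ℂ vx z := X.fx_diff z hz

/-- all derivatives of `Pc` decay like `exp (-(8/3)|Re z|)` in every closed strip -/
theorem Pc_deriv_exp {b : ℝ} (hb0 : 0 ≤ b) (hb : b < l / 2) (n : ℕ) : ∃ C : ℝ, 0 ≤ C ∧
    ∀ z : ℂ, |z.im| ≤ b → ‖iteratedDeriv n Pc z‖ ≤ C * Real.exp (-(8 / 3) * |z.re|) :=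
  X.bd n b hb0 hb

theorem le_P : ∃ c : ℝ, 0 < c ∧ ∀ t : ℝ, c * Real.exp (-(8 / 3) * |t|) ≤ P t := X.low

lemma P_pos (t : ℝ) : 0 < P t := by
  obtain ⟨c, hc, h⟩ := le_P
  exact lt_of_lt_of_le (by positivity) (h t)

theorem P_le : ∃ C : ℝ, 0 < C ∧ ∀ t : ℝ, P t ≤ C * Real.exp (-(8 / 3) * |t|) := by
  obtain ⟨C, hC, h⟩ := Pc_deriv_exp (b := 0) le_rfl (by have := l_pos; linarith) 0
  refine ⟨C + 1, by positivity, fun t => ?_⟩
  have h1 := h t (by simp)
  rw [iteratedDeriv_zero, Pc_ofReal, Complex.norm_real, Real.norm_eq_abs, abs_of_pos (P_pos t),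
    Complex.ofReal_re] at h1
  have := Real.exp_pos (-(8 / 3) * |t|)
  nlinarith

lemma P_cont : Continuous P := by
  have h1 : Continuous fun t : ℝ => (Pc t).re := by
    have hc : ContinuousOn Pc {w : ℂ | |w.im| < l / 2} := fun w hw =>
      (Pc_diff hw).continuousAt.continuousWithinAt
    refine Complex.continuous_re.comp (hc.comp_continuous Complex.continuous_ofReal fun t => ?_)
    simpa using l_pos
  refine h1.congr fun t => ?_
  rw [Pc_ofReal, Complex.ofReal_re]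

/-- all derivatives of `Pc` are dominated by `P (Re z)` -/
theorem Pc_deriv_P {b : ℝ} (hb0 : 0 ≤ b) (hb : b < l / 2) (n : ℕ) : ∃ C : ℝ, 0 ≤ C ∧
    ∀ z : ℂ, |z.im| ≤ b → ‖iteratedDeriv n Pc z‖ ≤ C * P z.re := by
  obtain ⟨C, hC, h⟩ := Pc_deriv_exp hb0 hb n
  obtain ⟨c, hc, h'⟩ := le_P
  refine ⟨C / c, by positivity, fun z hz => ?_⟩
  calc ‖iteratedDeriv n Pc z‖ ≤ C * Real.exp (-(8 / 3) * |z.re|) := h z hz
    _ = C / c * (c * Real.exp (-(8 / 3) * |z.re|)) := by field_simp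
    _ ≤ _ := by gcongr; exact h' _

/-- exponential weights -/
theorem P_comp_exp : ∃ c : ℝ, 0 < c ∧ ∀ t u : ℝ, c * (Real.exp (-(8 / 3) * |t - u|) * P u) ≤ P t := by
  obtain ⟨C, hC, h1⟩ := P_le
  obtain ⟨c, hc, h2⟩ := le_P
  refine ⟨c / C, by positivity, fun t u => ?_⟩
  have h3 : |t| ≤ |t - u| + |u| := by
    have := abs_add_le (t - u) u
    rwa [sub_add_cancel] at this
  have h4 : Real.exp (-(8 / 3) * |t - u|) * Real.exp (-(8 / 3) * |u|) ≤
      Real.exp (-(8 / 3) * |t|) := by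
    rw [← Real.exp_add]
    exact Real.exp_le_exp.2 (by linarith)
  calc c / C * (Real.exp (-(8 / 3) * |t - u|) * P u) ≤
        c / C * (Real.exp (-(8 / 3) * |t - u|) * (C * Real.exp (-(8 / 3) * |u|))) := by
        gcongr
        exact h1 u
    _ = c * (Real.exp (-(8 / 3) * |t - u|) * Real.exp (-(8 / 3) * |u|)) := by
        field_simp
    _ ≤ c * Real.exp (-(8 / 3) * |t|) := by gcongr
    _ ≤ _ := h2 t

theorem P_int : Integrable P := by
  obtain ⟨C, hC, h1⟩ := P_le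
  refine ((NUAct.int_exp_abs' (κ := 8 / 3) (by norm_num)).const_mul C).mono'
    P_cont.aestronglyMeasurable (Eventually.of_forall fun t => ?_)
  rw [Real.norm_eq_abs, abs_of_pos (P_pos t)]
  exact h1 t

theorem P_mass : ∫ t, P t = 1 := X.mass

end

end NUSea
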