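import Pool.Agent.NU42.Phi
import Pool.Agent.NUSea.Sea

/-!
# The cutoff factor for the shells, general sea and general cutoff (copy of `NU42/Phi.lean`)

* `exists_B`: the majorant `B` for ANY cutoff factor: a number `x ≤ 1 + e^{-c M e^{-p|t|}}` and
  `x ≤ C1 M e^{-p|t|}` is at most `e^{B t}` and `C M e^{-p|t|}`;
* `exists_B1`: the instance of rows `X` on the real axis of the cutoff `NUP1.phi`;
* `shell_phi`: the shell decomposition with an arbitrary cutoff factor.
-/

set_option autoImplicit false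

open MeasureTheory Set Filter Topology

namespace NUSea.N42

noncomputable section

open NU42 NU42.PhiB

variable [Sea]

/-- **the smooth majorant of a cutoff factor** -/
theorem exists_B {p c C1 : ℝ} (hp0 : 0 < p) (hp : p ≤ 8 / 3) (hc0 : 0 < c) (hC10 : 0 < C1) :
    ∃ C : ℝ, 1 ≤ C ∧ ∀ M : ℕ, 1 ≤ M →
    ∃ B B' : ℝ → ℝ, ContDiff ℝ 4 B ∧ (∀ t, HasDerivAt B (B' t) t) ∧ (∀ t, 0 ≤ B t) ∧ (∀ t, B t ≤ C) ∧
      (∀ j ≤ 4, ∀ t, |iteratedDeriv j B t| ≤ C) ∧ (∀ t, Real.log M / p + C ≤ |t| → B t = 0) ∧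
      Integrable (fun t => M * P t * B t) ∧ (∫ t, M * P t * B t) ≤ C ∧
      Integrable (fun t => B t ^ 2 + B' t ^ 2) ∧ (∫ t, B t ^ 2 + B' t ^ 2) ≤ C ∧
      ∀ t x : ℝ, x ≤ 1 + Real.exp (-(c * (M * Real.exp (-p * |t|)))) →
        x ≤ C1 * (M * Real.exp (-p * |t|)) →
        x ≤ Real.exp (B t) ∧ x ≤ C * M * Real.exp (-p * |t|) := by
  obtain ⟨x1, hx1⟩ : ∃ x1 : ℝ, x1 = max 0 (Real.log C1 / p) := ⟨_, rfl⟩
  have hx10 : 0 ≤ x1 := by rw [hx1]; exact le_max_left _ _
  have hx11 : C1 * Real.exp (-(p * x1)) ≤ 1 := by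
    have h1 : Real.log C1 ≤ p * x1 := by
      have h2 : Real.log C1 / p ≤ x1 := by rw [hx1]; exact le_max_right _ _
      rw [div_le_iff₀ hp0] at h2
      linarith
    calc C1 * Real.exp (-(p * x1)) = Real.exp (Real.log C1) * Real.exp (-(p * x1)) := by rw [Real.exp_log hC10]
      _ = Real.exp (Real.log C1 - p * x1) := by rw [← Real.exp_add]; rfl
      _ ≤ 1 := by rw [Real.exp_le_one_iff]; linarith
  obtain ⟨r, hr⟩ : ∃ r : ℝ, r = x1 + 2 := ⟨_, rfl⟩
  obtain ⟨C4, hC4⟩ := G_bd hp0 hc0 r 4 0 0 0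
  obtain ⟨K0, hK0, hG0⟩ := G_dom hp0 hc0 r 0 0 0
  obtain ⟨K1, hK1, hG1⟩ := G_dom hp0 hc0 r 1 0 1
  obtain ⟨K2, hK2, hG2⟩ := G_dom hp0 hc0 r 0 1 1
  obtain ⟨q, hq0, hPle⟩ := P_le
  obtain ⟨K3, hK3⟩ : ∃ K3 : ℝ, K3 = p * c * K1 + K2 := ⟨_, rfl⟩
  have hK30 : 0 ≤ K3 := by rw [hK3]; positivity
  have hC40 : 0 ≤ C4 := (hC4 0).nonneg
  refine ⟨1 + C4 + r + 1 + C1 + q * K0 * (4 / p) + (K0 * K0 + K3 * K3) * (4 / p), ?_, ?_⟩
  · have : 0 ≤ q * K0 * (4 / p) + (K0 * K0 + K3 * K3) * (4 / p) := by positivity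
    rw [hr]
    linarith
  intro M hM
  have hM1 : (1 : ℝ) ≤ M := by exact_mod_cast hM
  have hM0 : (0 : ℝ) < M := by linarith
  obtain ⟨a, ha⟩ : ∃ a : ℝ, a = Real.log M / p := ⟨_, rfl⟩
  have ha0 : 0 ≤ a := by
    rw [ha]
    exact div_nonneg (Real.log_nonneg hM1) hp0.le
  have hMa : (M : ℝ) = Real.exp (p * a) := by
    rw [ha, mul_div_cancel₀ _ hp0.ne', Real.exp_log hM0]
  have hq1 : 0 ≤ q * K0 * (4 / p) := by positivity
  have hq2 : 0 ≤ (K0 * K0 + K3 * K3) * (4 / p) := by positivity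
  obtain ⟨hdi, hdv⟩ := dom_int hp0 (a + r)
  have hd0 : ∀ t, 0 < dom p (a + r) t := fun t => by
    unfold dom
    positivity
  have hB' : ∀ t, |B1' p c r a t| ≤ K3 ∧ |B1' p c r a t| ≤ K3 * dom p (a + r) t := by
    intro t
    obtain ⟨g1, g2, _⟩ := hG1 a t
    obtain ⟨k1, k2, _⟩ := hG2 a t
    have hpc : 0 ≤ p * c := by positivity
    have h0 : |B1' p c r a t| ≤ p * c * |G p c r a 1 0 1 t| + |G p c r a 0 1 1 t| := by
      unfold B1'
      refine (abs_add_le _ _).trans (add_le_add ?_ le_rfl)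
      rw [abs_mul, abs_of_nonneg hpc]
    constructor
    · refine h0.trans ?_
      rw [hK3]
      exact add_le_add (mul_le_mul_of_nonneg_left g1 hpc) k1
    · refine h0.trans ?_
      rw [hK3, add_mul, mul_assoc (p * c) K1]
      exact add_le_add (mul_le_mul_of_nonneg_left g2 hpc) k2
  have hBc : Continuous (G p c r a 0 0 0) := G_cont 0 0 0
  have hB'c : Continuous (B1' p c r a) := by
    unfold B1'
    exact (continuous_const.mul (G_cont 1 0 1)).add (G_cont 0 1 1)
  -- the density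
  have hP : ∀ t, |M * P t * G p c r a 0 0 0 t| ≤ q * K0 * dom p (a + r) t := by
    intro t
    obtain ⟨_, _, g3⟩ := hG0 a t
    have h1 := hPle t
    have h2 : M * P t ≤ q * Real.exp (-(p * (|t| - a))) := by
      calc M * P t ≤ Real.exp (p * a) * (q * Real.exp (-(8 / 3) * |t|)) := by
            rw [hMa]
            exact mul_le_mul_of_nonneg_left h1 (Real.exp_pos _).le
        _ ≤ Real.exp (p * a) * (q * Real.exp (-p * |t|)) := by
            gcongr
        _ = q * Real.exp (-(p * (|t| - a))) := by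
            rw [show -(p * (|t| - a)) = p * a + -p * |t| by ring, Real.exp_add]
            ring
    rw [abs_mul, abs_of_nonneg (mul_nonneg hM0.le (P_pos t).le)]
    calc _ ≤ q * Real.exp (-(p * (|t| - a))) * |G p c r a 0 0 0 t| :=
          mul_le_mul_of_nonneg_right h2 (abs_nonneg _)
      _ = q * (Real.exp (-(p * (|t| - a))) * |G p c r a 0 0 0 t|) := by ring
      _ ≤ q * (K0 * dom p (a + r) t) := mul_le_mul_of_nonneg_left g3 hq0.le
      _ = _ := by ring
  have hPi : Integrable (fun t => M * P t * G p c r a 0 0 0 t) := by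
    refine Integrable.mono' (hdi.const_mul (q * K0)) ?_ (Eventually.of_forall fun t => ?_)
    · exact ((continuous_const.mul P_cont).mul hBc).aestronglyMeasurable
    · rw [Real.norm_eq_abs]
      exact hP t
  have hS : ∀ t, G p c r a 0 0 0 t ^ 2 + B1' p c r a t ^ 2 ≤ (K0 * K0 + K3 * K3) * dom p (a + r) t := by
    intro t
    obtain ⟨g1, g2, _⟩ := hG0 a t
    obtain ⟨k1, k2⟩ := hB' t
    have e1 : G p c r a 0 0 0 t ^ 2 ≤ K0 * (K0 * dom p (a + r) t) := by
      rw [← sq_abs, sq]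
      exact mul_le_mul g1 g2 (abs_nonneg _) hK0
    have e2 : B1' p c r a t ^ 2 ≤ K3 * (K3 * dom p (a + r) t) := by
      rw [← sq_abs, sq]
      exact mul_le_mul k1 k2 (abs_nonneg _) hK30
    linarith
  have hSi : Integrable (fun t => G p c r a 0 0 0 t ^ 2 + B1' p c r a t ^ 2) := by
    refine Integrable.mono' (hdi.const_mul (K0 * K0 + K3 * K3)) ?_ (Eventually.of_forall fun t => ?_)
    · exact ((hBc.pow 2).add (hB'c.pow 2)).aestronglyMeasurable
    · rw [Real.norm_eq_abs, abs_of_nonneg (by positivity)]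
      exact hS t
  refine ⟨G p c r a 0 0 0, B1' p c r a, ?_, hasDerivAt_B1 p c r a, G_nonneg p c r a, ?_, ?_, ?_, hPi, ?_, hSi, ?_, ?_⟩
  · exact_mod_cast (hC4 a).contDiff
  · intro t
    refine (le_abs_self _).trans (((hC4 a).bdd t).trans ?_)
    rw [hr]
    linarith
  · intro j hj t
    refine ((hC4 a).iter j hj t).trans ?_
    rw [hr]
    linarith
  · intro t ht
    rw [← ha] at ht
    obtain ⟨K, hK, hK'⟩ := G_le (r := r) hp0 hc0 0 0 0
    refine (hK' a t).2 ?_
    linarith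
  · calc ∫ t, M * P t * G p c r a 0 0 0 t ≤ ∫ t, q * K0 * dom p (a + r) t := by
          refine integral_mono hPi (hdi.const_mul _) fun t => (le_abs_self _).trans (hP t)
      _ = q * K0 * (4 / p) := by rw [integral_const_mul, hdv]
      _ ≤ _ := by
          rw [hr]
          linarith
  · calc ∫ t, G p c r a 0 0 0 t ^ 2 + B1' p c r a t ^ 2 ≤ ∫ t, (K0 * K0 + K3 * K3) * dom p (a + r) t := by
          refine integral_mono hSi (hdi.const_mul _) fun t => hS t
      _ = (K0 * K0 + K3 * K3) * (4 / p) := by rw [integral_const_mul, hdv]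
      _ ≤ _ := by
          rw [hr]
          linarith
  · intro t x h1 h2
    have hMe : M * Real.exp (-p * |t|) = Real.exp (-(p * (|t| - a))) := by
      rw [hMa, ← Real.exp_add]
      ring_nf
    constructor
    · by_cases hc1 : |t| - a ≤ x1
      · have hg1 := gg_le t
        have hg2 := abs_le_gg t
        rw [G_eq (by rw [hr]; linarith)]
        rw [hMe] at h1
        have h5 : Real.exp (-(c * Real.exp (-(p * (|t| - a))))) ≤
            Real.exp (-(c * Real.exp (-(p * (gg t - a))))) := by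
          gcongr
        have h6 := Real.add_one_le_exp (Real.exp (-(c * Real.exp (-(p * (gg t - a))))))
        linarith
      · push Not at hc1
        have h3 : x ≤ 1 := by
          refine h2.trans ?_
          rw [hMe]
          refine le_trans ?_ hx11
          gcongr
        exact h3.trans (Real.one_le_exp (G_nonneg _ _ _ _ _))
    · refine h2.trans ?_
      rw [← mul_assoc]
      refine mul_le_mul_of_nonneg_right ?_ (by positivity)
      refine mul_le_mul_of_nonneg_right ?_ hM0.le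
      rw [hr]
      linarith

omit [Sea] in
lemma list_sum' (b : ℝ) {X : List ℂ} (hX : ∀ x ∈ X, x.im = 0) (u : ℂ) :
    (X.map fun x => Real.exp (-(2 * b) * |(u - x).im|)).sum =
      X.length * Real.exp (-(2 * b) * |u.im|) := by
  have : ∀ x ∈ X, Real.exp (-(2 * b) * |(u - x).im|) = Real.exp (-(2 * b) * |u.im|) := by
    intro x hx
    rw [Complex.sub_im, hX x hx, sub_zero]
  rw [List.map_congr_left this, List.map_const', List.sum_replicate, nsmul_eq_mul]

/-- the majorant for the cutoff `NUP1.phi` of rows on the real axis -/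
theorem exists_B1 {b s : ℝ} (h : NUP1.Adm b s) (hb : 2 * b ≤ 8 / 3) : ∃ C : ℝ, 1 ≤ C ∧ ∀ M : ℕ, 1 ≤ M →
    ∃ B B' : ℝ → ℝ, ContDiff ℝ 4 B ∧ (∀ t, HasDerivAt B (B' t) t) ∧ (∀ t, 0 ≤ B t) ∧ (∀ t, B t ≤ C) ∧
      (∀ j ≤ 4, ∀ t, |iteratedDeriv j B t| ≤ C) ∧ (∀ t, Real.log M / (2 * b) + C ≤ |t| → B t = 0) ∧
      Integrable (fun t => M * P t * B t) ∧ (∫ t, M * P t * B t) ≤ C ∧
      Integrable (fun t => B t ^ 2 + B' t ^ 2) ∧ (∫ t, B t ^ 2 + B' t ^ 2) ≤ C ∧
      ∀ X : List ℂ, X.length = M → (∀ x ∈ X, x.im = 0) →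
      ∀ u : ℂ, (∀ x ∈ X, |(u - x).re + NUP1.l / 2| ≤ s) →
        ‖NUP1.phi b X u‖ ≤ Real.exp (B u.im) ∧
        ‖NUP1.phi b X u‖ ≤ C * M * Real.exp (-(2 * b) * |u.im|) := by
  have hk := h.kap_pos
  have hcl := h.cl_pos
  have hb0 := h.pos
  obtain ⟨C, hC1, hC⟩ := exists_B (p := 2 * b) (c := NUP1.cl b * NUP1.kap b s / 2)
    (C1 := 4 / NUP1.kap b s) (by positivity) hb (by positivity) (by positivity)
  refine ⟨C, hC1, fun M hM => ?_⟩
  obtain ⟨B, B', g1, g2, g3, g4, g5, g6, g7, g8, g9, g10, g11⟩ := hC M hM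
  refine ⟨B, B', g1, g2, g3, g4, g5, g6, g7, g8, g9, g10, fun X hXM hX u hu => g11 _ _ ?_ ?_⟩
  · have h1 := NUP1.norm_phi_sub_one h hu
    rw [list_sum' b hX, hXM] at h1
    have h4 := norm_le_norm_add_norm_sub' (NUP1.phi b X u) 1
    rw [norm_one] at h4
    linarith
  · have h2 := NUP1.norm_phi_le h hu
    rwa [list_sum' b hX, hXM] at h2

open scoped ENNReal in
omit [Sea] in
/-- **the shell decomposition with a cutoff factor** `φ` (`φ t` = the modulus at height `t`);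
windows `[-(T0 + j), T0 + j]` -/
theorem shell_phi {ι Ω : Type*} [Fintype ι] [MeasurableSpace Ω] {μ : Measure Ω} (x : ι → Ω → ℝ)
    (hx : ∀ i, Measurable (x i)) {W : Ω → ℝ≥0∞} (hW : Measurable W) {p C T0 : ℝ} (hp : 0 < p) (hC : 0 ≤ C) {M : ℕ}
    {B : ℝ → ℝ} (hB : Measurable B) (hB0 : ∀ t, 0 ≤ B t) {φ : ℝ → ℝ}
    (h1 : ∀ t, φ t ≤ Real.exp (B t))
    (h2 : ∀ t, φ t ≤ C * M * Real.exp (-p * |t|)) :
    ∫⁻ t, W t * ∏ i, ENNReal.ofReal (φ (x i t)) ∂μ ≤
      ∫⁻ t in win x (Icc (-T0) T0), W t * ∏ i, ENNReal.ofReal (Real.exp (B (x i t))) ∂μ +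
        ∑' j : ℕ, ENNReal.ofReal (C * M * Real.exp (-p * (T0 + j))) *
          ∫⁻ t in win x (Icc (-(T0 + (j + 1))) (T0 + (j + 1))),
            W t * ∏ i, ENNReal.ofReal (Real.exp (B (x i t))) ∂μ := by
  have hK : Monotone (fun j : ℕ => Icc (-(T0 + (j : ℝ))) (T0 + j)) := by
    intro i j hij
    have : (i : ℝ) ≤ j := by exact_mod_cast hij
    exact Icc_subset_Icc (by linarith) (by linarith)
  have hU : ⋃ j : ℕ, Icc (-(T0 + (j : ℝ))) (T0 + j) = univ := by
    refine eq_univ_of_forall fun t => mem_iUnion.2 ?_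
    obtain ⟨j, hj⟩ := exists_nat_ge (|t| - T0)
    refine ⟨j, ?_⟩
    rw [mem_Icc, ← abs_le]
    linarith
  have key := shell (μ := μ) x hx hW (c := fun t => ENNReal.ofReal (φ t))
    (b := fun t => ENNReal.ofReal (Real.exp (B t))) (by fun_prop) hK (fun j => measurableSet_Icc) hU
    (fun t => ENNReal.ofReal_le_ofReal (h1 t))
    (ε := fun j => ENNReal.ofReal (C * M * Real.exp (-p * (T0 + ((j : ℝ) - 1))))) (by
      intro j t ht
      have ht' : T0 + j < |t| := by
        by_contra hcon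
        push Not at hcon
        exact ht (abs_le.1 hcon)
      have h3 : φ t ≤ C * M * Real.exp (-p * (T0 + (((j + 1 : ℕ) : ℝ) - 1))) := by
        refine (h2 t).trans (mul_le_mul_of_nonneg_left ?_ (by positivity))
        rw [Real.exp_le_exp]
        push_cast
        nlinarith
      calc ENNReal.ofReal (φ t)
          ≤ ENNReal.ofReal (C * M * Real.exp (-p * (T0 + (((j + 1 : ℕ) : ℝ) - 1)))) * 1 := by
            rw [mul_one]
            exact ENNReal.ofReal_le_ofReal h3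
        _ ≤ _ := by
            gcongr
            rw [← ENNReal.ofReal_one]
            exact ENNReal.ofReal_le_ofReal (Real.one_le_exp (hB0 t)))
  refine key.trans (le_of_eq ?_)
  simp only [Nat.cast_zero, add_zero, Nat.cast_add, Nat.cast_one, add_sub_cancel_right]

end

end NUSea.N42
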