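import Pool.Agent.NUSea.Sea

/-!
# Analytic continuation of the field equation
-/

set_option autoImplicit false
set_option linter.unusedSectionVars false

open MeasureTheory Set Filter Topology Complex

namespace NUSea

open NUMF (l l_pos)
open NUAct

noncomputable section

variable [Sea]

variable {k : ℝ → ℂ} {K : ℝ}

lemma J_int (hk : AEStronglyMeasurable k) (hkb : ∀ u : ℝ, u ≠ 0 → ‖k u‖ ≤ K * gr |u|) {z : ℂ}
    (hz : |z.im| < l / 2) : Integrable fun u : ℝ => Pc (z - u) * k u := by
  obtain ⟨C, hC0, hC⟩ := Pc_deriv_exp (abs_nonneg z.im) hz 0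
  have hK : 0 ≤ K := by
    have h1 := (norm_nonneg _).trans (hkb 1 one_ne_zero)
    have h2 : 0 < gr |(1:ℝ)| := by simp [gr]
    exact nonneg_of_mul_nonneg_left h1 h2
  refine ((gr_int (κ := 8 / 3) (by norm_num)).const_mul (C * Real.exp (8 / 3 * |z.re|) * K)).mono' ?_ ?_
  · refine AEStronglyMeasurable.mul (Continuous.aestronglyMeasurable ?_) hk
    have hc : ContinuousOn Pc {w : ℂ | |w.im| < l / 2} := fun w hw =>
      (Pc_diff hw).continuousAt.continuousWithinAt
    refine hc.comp_continuous (by fun_prop) fun u => ?_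
    simpa using hz
  · filter_upwards [NUMF.ae_ne_zero] with u hu
    rw [norm_mul]
    have h1 := hC (z - u) (by simp)
    rw [iteratedDeriv_zero] at h1
    have h2 : (z - u).re = z.re - u := by simp
    rw [h2] at h1
    have h3 := exp_shift (κ := 8 / 3) (by norm_num) z.re u
    calc ‖Pc (z - u)‖ * ‖k u‖ ≤ (C * (Real.exp (8 / 3 * |z.re|) * Real.exp (-(8 / 3) * |u|))) *
          (K * gr |u|) := by
          refine mul_le_mul (h1.trans (mul_le_mul_of_nonneg_left h3 hC0)) (hkb u hu) (norm_nonneg _)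
            (by positivity)
      _ = _ := by ring

lemma J_diff (hk : AEStronglyMeasurable k) (hkb : ∀ u : ℝ, u ≠ 0 → ‖k u‖ ≤ K * gr |u|) {z : ℂ}
    (hz : |z.im| < l / 2) : DifferentiableAt ℂ (fun z => ∫ u : ℝ, Pc (z - u) * k u) z := by
  set b := (|z.im| + l / 2) / 2 with hb
  have hb0 : 0 ≤ b := by have := abs_nonneg z.im; rw [hb]; linarith
  have hbl : b < l / 2 := by rw [hb]; linarith
  have hzb : |z.im| < b := by rw [hb]; linarith
  obtain ⟨C, hC0, hC⟩ := Pc_deriv_exp hb0 hbl 1
  have hK : 0 ≤ K := by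
    have h1 := (norm_nonneg _).trans (hkb 1 one_ne_zero)
    have h2 : 0 < gr |(1:ℝ)| := by simp [gr]
    exact nonneg_of_mul_nonneg_left h1 h2
  set s : Set ℂ := {w : ℂ | |w.im| < b ∧ |w.re - z.re| < 1} with hs
  have hso : IsOpen s := by
    refine IsOpen.inter ?_ ?_
    · exact isOpen_lt (continuous_abs.comp Complex.continuous_im) continuous_const
    · exact isOpen_lt (continuous_abs.comp (Complex.continuous_re.sub continuous_const)) continuous_const
  have hsn : s ∈ 𝓝 z := hso.mem_nhds ⟨hzb, by simp⟩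
  have hdc : ∀ w : ℂ, |w.im| < l / 2 → Continuous fun u : ℝ => deriv Pc (w - u) := by
    intro w hw
    have hc : ContinuousOn (deriv Pc) {w : ℂ | |w.im| < l / 2} := fun w hw =>
      (Pc_analyticAt hw).deriv.continuousAt.continuousWithinAt
    refine hc.comp_continuous (by fun_prop) fun u => ?_
    simpa using hw
  have hpc : ∀ w : ℂ, |w.im| < l / 2 → Continuous fun u : ℝ => Pc (w - u) := by
    intro w hw
    have hc : ContinuousOn Pc {w : ℂ | |w.im| < l / 2} := fun w hw =>
      (Pc_diff hw).continuousAt.continuousWithinAt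
    refine hc.comp_continuous (by fun_prop) fun u => ?_
    simpa using hw
  have key := hasDerivAt_integral_of_dominated_loc_of_deriv_le (μ := volume) (𝕜 := ℂ) (s := s)
    (F := fun w u => Pc (w - (u:ℝ)) * k u) (F' := fun w u => deriv Pc (w - (u:ℝ)) * k u) (x₀ := z)
    (bound := fun u : ℝ => C * Real.exp (8 / 3 * (|z.re| + 1)) * K *
      (Real.exp (-(8 / 3) * |u|) * gr |u|)) hsn ?_ ?_ ?_ ?_ ?_ ?_
  · exact key.2.differentiableAt
  · filter_upwards [hsn] with w hw
    exact (hpc w (hw.1.trans hbl)).aestronglyMeasurable.mul hk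
  · exact J_int hk hkb hz
  · exact (hdc z hz).aestronglyMeasurable.mul hk
  · filter_upwards [NUMF.ae_ne_zero] with u hu w hw
    rw [norm_mul]
    have h1 := hC (w - u) (by simpa using hw.1.le)
    rw [iteratedDeriv_one] at h1
    have h2 : (w - u).re = w.re - u := by simp
    rw [h2] at h1
    have h3 := exp_shift (κ := 8 / 3) (by norm_num) w.re u
    have h4 : |w.re| ≤ |z.re| + 1 := by
      have := abs_add_le (w.re - z.re) z.re
      have e : w.re - z.re + z.re = w.re := by ring
      rw [e] at this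
      linarith [hw.2]
    have h5 : Real.exp (8 / 3 * |w.re|) ≤ Real.exp (8 / 3 * (|z.re| + 1)) :=
      Real.exp_le_exp.2 (by linarith)
    calc ‖deriv Pc (w - u)‖ * ‖k u‖ ≤ (C * (Real.exp (8 / 3 * (|z.re| + 1)) *
          Real.exp (-(8 / 3) * |u|))) * (K * gr |u|) := by
          refine mul_le_mul (h1.trans (mul_le_mul_of_nonneg_left (h3.trans ?_) hC0)) (hkb u hu)
            (norm_nonneg _) (by positivity)
          gcongr
      _ = _ := by ring
  · exact (gr_int (by norm_num)).const_mul _
  · refine Eventually.of_forall fun u w hw => ?_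
    have h1 : HasDerivAt Pc (deriv Pc (w - u)) (w - u) :=
      (Pc_diff (by simpa using hw.1.trans hbl)).hasDerivAt
    have h2 := h1.comp w ((hasDerivAt_id w).sub_const (u : ℂ))
    rw [mul_one] at h2
    exact h2.mul_const _

/-- **analytic continuation of a field equation** -/
theorem cont_of_real (hk : AEStronglyMeasurable k) (hkb : ∀ u : ℝ, u ≠ 0 → ‖k u‖ ≤ K * gr |u|)
    {F : ℂ → ℂ} (hF : ∀ z : ℂ, |z.im| < l / 2 → DifferentiableAt ℂ F z)
    (h : ∀ x : ℝ, ∫ u : ℝ, (P (x - u) : ℂ) * k u = F x) {z : ℂ} (hz : |z.im| < l / 2) :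
    ∫ u : ℝ, Pc (z - u) * k u = F z := by
  set S : Set ℂ := {w : ℂ | |w.im| < l / 2} with hS
  have hSo : IsOpen S := isOpen_lt (continuous_abs.comp Complex.continuous_im) continuous_const
  have hSc : IsPreconnected S := by
    have : Convex ℝ S := by
      have e : S = Complex.imLm ⁻¹' (Ioo (-(l / 2)) (l / 2)) := by
        ext z
        simp [hS, abs_lt]
      rw [e]
      exact (convex_Ioo _ _).linear_preimage _
    exact this.isPreconnected
  have a1 : AnalyticOnNhd ℂ (fun z => ∫ u : ℝ, Pc (z - u) * k u) S :=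
    DifferentiableOn.analyticOnNhd (fun w hw => (J_diff hk hkb hw).differentiableWithinAt) hSo
  have a2 : AnalyticOnNhd ℂ F S :=
    DifferentiableOn.analyticOnNhd (fun w hw => (hF w hw).differentiableWithinAt) hSo
  have h0 : (0:ℂ) ∈ S := by simpa [hS] using l_pos
  have hfr : ∃ᶠ w in 𝓝[≠] (0:ℂ), (∫ u : ℝ, Pc (w - u) * k u) = F w := by
    have t1 : Tendsto (fun x : ℝ => (x : ℂ)) (𝓝[≠] 0) (𝓝[≠] 0) := by
      refine tendsto_nhdsWithin_iff.2 ⟨?_, ?_⟩
      · have := Complex.continuous_ofReal.tendsto 0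
        rw [Complex.ofReal_zero] at this
        exact this.mono_left nhdsWithin_le_nhds
      · filter_upwards [self_mem_nhdsWithin] with x hx
        simpa using hx
    refine t1.frequently ?_
    refine Eventually.frequently (Eventually.of_forall fun x => ?_)
    rw [← h x]
    refine integral_congr_ae (Eventually.of_forall fun u => ?_)
    simp only
    rw [← Complex.ofReal_sub, Pc_ofReal]
  exact a1.eqOn_of_preconnected_of_frequently_eq a2 hSc h0 hfr hz

end

end NUSea
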