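import Pool.Agent.NUSea.Cont

/-!
# The field equations on a deformed contour

`Us = - log w` (same species), `Ux = - log g` (cross).  For `z` on the path:
`∫ P(ζ') Us(ζ(t) - ζ') dζ' = vs (ζ t)`, `∫ P(ζ') Ux(z - ζ') dζ' = vx z`.
-/

set_option autoImplicit false
set_option linter.unusedSectionVars false

open MeasureTheory Set Filter Topology Complex

namespace NUSea

open NUMF (l l_pos)
open NUAct

noncomputable section

variable [Sea]

lemma real_s (x : ℝ) : ∫ u : ℝ, (P (x - u) : ℂ) * ks u = vs x := Sea.conv_s x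

lemma real_x (x : ℝ) : ∫ u : ℝ, (P (x - u) : ℂ) * kx u = vx x := Sea.conv_x x

lemma vs_gr : ∃ K : ℝ, 0 ≤ K ∧ ∀ z : ℂ, |z.im| ≤ l / 4 → ‖vs z‖ ≤ K * (1 + |z.re|) := Sea.fs_gr

lemma vx_gr : ∃ K : ℝ, 0 ≤ K ∧ ∀ z : ℂ, |z.im| ≤ l / 4 → ‖vx z‖ ≤ K * (1 + |z.re|) := Sea.fx_gr

lemma horiz_s {z : ℂ} (hz : |z.im| < l / 2) : ∫ u : ℝ, Pc (z - u) * ks u = vs z := by
  obtain ⟨K, hK⟩ := ks_bd
  exact cont_of_real ks_meas hK (fun w hw => diff_vs hw) real_s hz

lemma horiz_x {z : ℂ} (hz : |z.im| < l / 2) : ∫ u : ℝ, Pc (z - u) * kx u = vx z := by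
  obtain ⟨K, hK⟩ := kx_bd
  exact cont_of_real kx_cont.aestronglyMeasurable hK (fun w hw => diff_vx hw) real_x hz

/-! ### on a path -/

variable {b c B : ℝ} {ζ ζ' : ℝ → ℂ}

lemma Pc_dec {b : ℝ} (hb0 : 0 ≤ b) (hb : b < l / 2) : ∃ C : ℝ, 0 ≤ C ∧ Dec b C (8 / 3) Pc := by
  obtain ⟨C, hC0, hC⟩ := Pc_deriv_exp hb0 hb 0
  exact ⟨C, hC0, fun z hz => Pc_diff (lt_of_le_of_lt hz hb), fun z hz => by simpa using hC z hz⟩

/-- **the field equation, same species** -/
theorem fe_s (hb : b ≤ l / 7) (P' : Path b c B ζ ζ') (t : ℝ) :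
    Integrable (fun t' => Up Us ζ t t' * (Pc (ζ t') * ζ' t')) ∧
      ∫ t', Up Us ζ t t' * (Pc (ζ t') * ζ' t') = vs (ζ t) := by
  have hl := l_pos
  have hb0 := P'.b0
  obtain ⟨K, hK⟩ := Us_kern
  obtain ⟨C, hC0, hC1, hC⟩ := Pc_dec (b := 3 * b) (by linarith) (by linarith)
  have hK' : Kern (2 * b) K Us := ⟨fun z h0 h => hK.diff z h0 (by linarith),
    fun z h0 h => hK.bd z h0 (by linarith), hK.K0⟩
  obtain ⟨i1, i2, i3, e⟩ := sing_shift (κ := 8 / 3) (by norm_num) hC0 hC1 hC hK' P' t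
  have hcomm : (fun t' => Up Us ζ t t' * (Pc (ζ t') * ζ' t')) =
      fun t' => Pc (ζ t') * ζ' t' * Up Us ζ t t' := by
    funext t'
    ring
  rw [hcomm]
  refine ⟨i1, ?_⟩
  rw [e]
  have hz : |(ζ t).im| < l / 2 := lt_of_le_of_lt (P'.im_le t) (by linarith)
  rw [← horiz_s hz]
  -- split the line
  obtain ⟨K2, hK2⟩ := ks_bd
  have hi := J_int ks_meas hK2 hz
  rw [← intervalIntegral.integral_Iic_add_Ioi hi.integrableOn hi.integrableOn (b := 0)]
  have e1 : ∫ u in Iic (0:ℝ), Pc (ζ t - u) * ks u = ∫ u in Ioi (0:ℝ), Pc (ζ t + u) * Us u := by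
    have h1 := integral_comp_neg_Ioi (0:ℝ) (fun u : ℝ => Pc (ζ t - u) * ks u)
    rw [neg_zero] at h1
    rw [← h1]
    refine setIntegral_congr_fun measurableSet_Ioi fun u hu => ?_
    have hu' : (0:ℝ) < u := hu
    have h2 : ks (-u) = Us u := by
      rw [ks_abs (neg_ne_zero.2 hu'.ne'), abs_neg, abs_of_pos hu']
    rw [h2, Complex.ofReal_neg, sub_neg_eq_add]
  have e2 : ∫ u in Ioi (0:ℝ), Pc (ζ t - u) * ks u = ∫ u in Ioi (0:ℝ), Pc (ζ t - u) * Us u := by
    refine setIntegral_congr_fun measurableSet_Ioi fun u hu => ?_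
    have hu' : (0:ℝ) < u := hu
    have h2 : ks u = Us u := by
      rw [ks_abs hu'.ne', abs_of_pos hu']
    rw [h2]
  rw [e1, e2]

/-- **the field equation, other species** -/
theorem fe_x (hb : b ≤ l / 7) (P' : Path b c B ζ ζ') {z : ℂ} (hz : |z.im| ≤ b) :
    Integrable (fun t' => Ux (z - ζ t') * (Pc (ζ t') * ζ' t')) ∧
      ∫ t', Ux (z - ζ t') * (Pc (ζ t') * ζ' t') = vx z := by
  have hl := l_pos
  have hb0 := P'.b0
  obtain ⟨K, hK0, hK⟩ := Ux_gr
  obtain ⟨C, hC0, hC1, hC⟩ := Pc_dec (b := b) hb0 (by linarith)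
  -- the integrand as a function of the second point
  have D : Dec b (C * (K * (2 + |z.re|))) (5 / 3) (fun w' => Pc w' * Ux (z - w')) := by
    refine ⟨fun w' hw => ?_, fun w' hw => ?_⟩
    · refine (hC1 w' hw).mul ?_
      have h1 : |(z - w').im| < l := by
        rw [Complex.sub_im]
        exact lt_of_le_of_lt ((abs_sub _ _).trans (by linarith : _ ≤ 2 * b)) (by linarith)
      exact (diff_Ux h1).comp w' ((differentiableAt_const _).sub differentiableAt_id)
    · rw [norm_mul]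
      have h1 : |(z - w').im| ≤ l / 2 := by
        rw [Complex.sub_im]
        exact (abs_sub _ _).trans (by linarith)
      have h2 := hK _ h1
      have h3 : |(z - w').re| ≤ |z.re| + |w'.re| := by
        rw [Complex.sub_re]
        exact abs_sub _ _
      have h4 : 1 + |(z - w').re| ≤ (2 + |z.re|) * Real.exp |w'.re| := by
        have h5 := Real.add_one_le_exp |w'.re|
        have h6 := abs_nonneg z.re
        have h7 := abs_nonneg w'.re
        nlinarith
      have h8 : Real.exp (-(5 / 3) * |w'.re|) = Real.exp (-(8 / 3) * |w'.re|) * Real.exp |w'.re| := by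
        rw [← Real.exp_add]; congr 1; ring
      calc ‖Pc w'‖ * ‖Ux (z - w')‖ ≤ (C * Real.exp (-(8 / 3) * |w'.re|)) *
            (K * ((2 + |z.re|) * Real.exp |w'.re|)) :=
            mul_le_mul (hC w' hw) (h2.trans (mul_le_mul_of_nonneg_left h4 hK0)) (norm_nonneg _)
              (by positivity)
        _ = _ := by rw [h8]; ring
  obtain ⟨i1, i2, e⟩ := path_shift (by norm_num) D P'
  have hcomm : (fun t' => Ux (z - ζ t') * (Pc (ζ t') * ζ' t')) =
      fun t' => Pc (ζ t') * Ux (z - ζ t') * ζ' t' := by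
    funext t'
    ring
  rw [hcomm]
  refine ⟨i1, ?_⟩
  rw [e]
  -- the horizontal path through `z`
  have Q : Path b 1 (1 + b) (fun t : ℝ => (t : ℂ) + z.im * I) (fun _ => 1) :=
    { der := fun t => (Complex.ofRealCLM.hasDerivAt (x := t)).add_const _
      cont := continuous_const
      im_le := fun t => by simpa using hz
      dle := fun t => by rw [norm_one]; linarith
      c_pos := one_pos
      c_le := le_rfl
      mono := fun s t _ => by simp
      near := fun t => by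
        rw [add_sub_cancel_left, norm_mul, Complex.norm_I, mul_one, Complex.norm_real,
          Real.norm_eq_abs]
        linarith }
  obtain ⟨_, _, e'⟩ := path_shift (by norm_num) D Q
  have hz' : |z.im| < l / 2 := lt_of_le_of_lt hz (by linarith)
  rw [← e', ← horiz_x hz']
  have h1 := integral_sub_left_eq_self (fun u : ℝ => Pc (z - u) * kx u) volume z.re
  rw [← h1]
  refine integral_congr_ae (Eventually.of_forall fun u => ?_)
  simp only
  have h2 : z - ((z.re - u : ℝ) : ℂ) = (u : ℂ) + z.im * I := by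
    apply Complex.ext <;> simp
  have h3 : z - ((u : ℂ) + z.im * I) = ((z.re - u : ℝ) : ℂ) := by
    apply Complex.ext <;> simp
  rw [h2, h3, mul_one]
  unfold kx
  rw [Ux_ofReal]

end

end NUSea
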