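import Pool.Agent.NU42.Act
import Pool.Agent.NUSea.Two

/-!
# The action for a general sea (copy of `NU42/Act.lean`)

Only what depends on the sea is repeated (`XX`, `kap_eq`, `dens_P`, `kr_eq`, `act`, `CS`, `phi`,
`WO_act`), in the namespace `NUSea.N42`; everything else is used from `NU42`.
-/

set_option autoImplicit false

open MeasureTheory Set Filter Topology

namespace NUSea.N42

open NUKer NUE NU42

noncomputable section

variable [Sea]

variable {p n : ℕ} {DX DX1 DY DY1 : ℝ → ℂ} {b c B : ℝ}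

/-- the gas -/
abbrev XX (s : ℝ) (DX DX1 DY DY1 : ℝ → ℂ) (Fe : Bool → ℂ → ℂ) : NUAct.Gas Bool :=
  NUSea.two s (zz DX DY) (zz1 DX1 DY1) Fe

lemma kap_eq (hs : Small DX DX1 DY DY1) (hb : b ≤ NUMF.l / 7)
    (P' : ∀ a, NUAct.Path b c B (zz DX DY a) (zz1 DX1 DY1 a)) (s : ℝ) (Fe : Bool → ℂ → ℂ) (a d : Bool)
    {t t' : ℝ} (hne : t ≠ t') : (XX s DX DX1 DY DY1 Fe).κ a d t t' = kd DX DX1 DY DY1 a d t t' := by
  have hb4 : b ≤ NUMF.l / 4 := hb.trans (by have := NUMF.l_pos; linarith)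
  have hX : ∀ t : ℝ, |((t : ℂ) + DX t).im| ≤ b := fun t => by simpa [zz] using (P' true).im_le t
  have hY : ∀ t : ℝ, |((t : ℂ) + DY t).im| ≤ b := fun t => by simpa [zz] using (P' false).im_le t
  have PX : NUAct.Path b c B (fun t => t + DX t) fun t => 1 + DX1 t := P' true
  have PY : NUAct.Path b c B (fun t => t + DY t) fun t => 1 + DY1 t := P' false
  unfold NUAct.Gas.κ XX
  rw [NUSea.two_K, NUSea.two_K0]
  cases a <;> cases d
  · exact re_Up hs.sY hb4 PY hne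
  · have h1 := re_Ux' hs.sXY hb4 hX hY t' t
    show -Real.log (NUMF.g (t - t')) - (NUAct.Ux ((t + DY t) - (t' + DX t'))).re = kg DY DX t t'
    rw [kg_symm, ← h1, ← neg_sub t' t, NU42.g_even, ← neg_sub ((t' : ℂ) + DX t'), NUAct.Ux_neg]
  · exact re_Ux' hs.sXY hb4 hX hY t t'
  · exact re_Up hs.sX hb4 PX hne

/-! ### the centred form of the exponent -/

lemma dens_P {s : ℝ} (hs : 0 ≤ s) : Dens fun t => s * NUSea.P t where
  int := by
    obtain ⟨C, hC0, hC⟩ := NUSea.rho_bd s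
    refine ((NUAct.int_exp_abs' (κ := 8 / 3) (by norm_num)).const_mul C).mono'
      (continuous_const.mul NUSea.P_cont).aestronglyMeasurable (ae_of_all _ fun t => ?_)
    have := hC t
    rwa [Complex.norm_real] at this
  nonneg t := mul_nonneg hs (NUSea.P_pos t).le
  cont := continuous_const.mul NUSea.P_cont

variable {C s : ℝ} {Fe : Bool → ℂ → ℂ}

lemma kr_eq (hs : Small DX DX1 DY DY1) (hb : b ≤ NUMF.l / 7)
    (P' : ∀ a, NUAct.Path b c B (zz DX DY a) (zz1 DX1 DY1 a)) (s : ℝ) (Fe : Bool → ℂ → ℂ) (a d : Bool)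
    (t : ℝ) : (XX s DX DX1 DY DY1 Fe).κρ a d t = ∫ u, kd DX DX1 DY DY1 a d t u * (s * NUSea.P u) := by
  unfold NUAct.Gas.κρ
  refine integral_congr_ae ?_
  have h0 : ({t}ᶜ : Set ℝ) ∈ ae volume := compl_mem_ae_iff.2 (measure_singleton t)
  filter_upwards [h0] with u hu
  rw [kap_eq hs hb P' s Fe a d (Ne.symm hu)]
  rfl

/-- **the exponent in centred form** -/
theorem act (hs : Small DX DX1 DY DY1) (hb : b ≤ NUMF.l / 7)
    (P' : ∀ a, NUAct.Path b c B (zz DX DY a) (zz1 DX1 DY1 a)) (hs0 : 0 ≤ s)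
    (hF : ∀ a, NUAct.Ext b (Fe a)) (hk : ∀ a d, Bk C (kd DX DX1 DY DY1 a d))
    (t : Fin p → ℝ) (t' : Fin n → ℝ) :
    KE DX DX1 DY DY1 t t' + (∑ i, (XX s DX DX1 DY DY1 Fe).G true (t i) +
      ∑ j, (XX s DX DX1 DY DY1 Fe).G false (t' j)) =
    (XX s DX DX1 DY DY1 Fe).S - (∫ u, s * NUSea.P u * (XX s DX DX1 DY DY1 Fe).lin true u) -
      (∫ u, s * NUSea.P u * (XX s DX DX1 DY DY1 Fe).lin false u) +
      (∑ i, (XX s DX DX1 DY DY1 Fe).lin true (t i) + ∑ j, (XX s DX DX1 DY DY1 Fe).lin false (t' j)) +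
      QF (fun u => s * NUSea.P u) (kd DX DX1 DY DY1) t t' := by
  have hok : (XX s DX DX1 DY DY1 Fe).Ok := NUSea.two_ok s hb P' hF
  have hρ := dens_P hs0
  have h1 := hok.expo (I := Fin p ⊕ Fin n) (Sum.elim (fun _ => true) fun _ => false) (Sum.elim t t')
    (kd DX DX1 DY DY1)
  have ib : ∀ a d, Integrable fun u : ℝ => s * NUSea.P u *
      ∫ v, kd DX DX1 DY DY1 a d u v * (s * NUSea.P v) := fun a d => by
    refine (int_bd hρ (cv_cont hρ (hk a d)) fun t => abs_int_le hρ ((hk a d).le t)).congr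
      (ae_of_all _ fun t => mul_comm _ _)
  have e1 := nuF2_exp' hρ t t (hk true true) (κ' := kd DX DX1 DY DY1 true true)
    fun u u' => kd_swap hs _ _ _ _
  have e2 := nuF2_exp' hρ t t' (hk true false) (κ' := kd DX DX1 DY DY1 false true)
    fun u u' => kd_swap hs _ _ _ _
  have e3 := nuF2_exp' hρ t' t (hk false true) (κ' := kd DX DX1 DY DY1 true false)
    fun u u' => kd_swap hs _ _ _ _
  have e4 := nuF2_exp' hρ t' t' (hk false false) (κ' := kd DX DX1 DY DY1 false false)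
    fun u u' => kd_swap hs _ _ _ _
  have e5 : nuF2 (fun u => s * NUSea.P u) (fun u => s * NUSea.P u) t' t (kd DX DX1 DY DY1 false true) =
      nuF2 (fun u => s * NUSea.P u) (fun u => s * NUSea.P u) t t' (kd DX DX1 DY DY1 true false) := by
    have := nuF2_swap hρ hρ t t' (hk true false)
    rw [← this]
    congr 1
    funext u u'
    exact kd_swap hs _ _ _ _
  rw [e5] at e3
  have e6 : ∀ (u : ℝ) (a : Bool), s * NUSea.P u * ∑ d, ∫ v, kd DX DX1 DY DY1 a d u v * (s * NUSea.P v) =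
      s * NUSea.P u * (∫ v, kd DX DX1 DY DY1 a true u v * (s * NUSea.P v)) +
      s * NUSea.P u * ∫ v, kd DX DX1 DY DY1 a false u v * (s * NUSea.P v) := by
    intro u a
    rw [Fintype.sum_bool, mul_add]
  have e7 : ∀ a, ∫ u, (XX s DX DX1 DY DY1 Fe).ρ a u * ∑ d, (XX s DX DX1 DY DY1 Fe).κρ a d u =
      (∫ u, s * NUSea.P u * ∫ v, kd DX DX1 DY DY1 a true u v * (s * NUSea.P v)) +
      ∫ u, s * NUSea.P u * ∫ v, kd DX DX1 DY DY1 a false u v * (s * NUSea.P v) := by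
    intro a
    rw [← integral_add (ib a true) (ib a false)]
    refine integral_congr_ae (ae_of_all _ fun u => ?_)
    simp only [← e6]
    rw [NUSea.two_rho]
    congr 1
    exact Finset.sum_congr rfl fun d _ => kr_eq hs hb P' s Fe a d u
  have e8 : ∑ i, ∑ j, kg DY DX (t' i) (t j) = ∑ i, ∑ j, kg DX DY (t i) (t' j) := by
    rw [Finset.sum_comm]
    exact Finset.sum_congr rfl fun i _ => Finset.sum_congr rfl fun j _ => kg_symm _ _ _ _
  unfold NUAct.Gas.nu NUAct.Gas.nu2 at h1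
  simp only [Fintype.sum_sum_type, Sum.elim_inl, Sum.elim_inr, Fintype.sum_bool,
    kr_eq hs hb P' s Fe, Finset.sum_add_distrib] at h1
  simp only [Fintype.sum_bool, kr_eq hs hb P' s Fe] at e7
  rw [e7 true, e7 false] at h1
  unfold QF
  have e9 : ∑ i, ∑ j, kd DX DX1 DY DY1 false true (t' i) (t j) =
      ∑ i, ∑ j, kd DX DX1 DY DY1 true false (t i) (t' j) := e8
  have e10 : KE DX DX1 DY DY1 t t' = 1 / 2 * ∑ i, ∑ j, kd DX DX1 DY DY1 true true (t i) (t j) +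
      1 / 2 * ∑ i, ∑ j, kd DX DX1 DY DY1 false false (t' i) (t' j) +
      ∑ i, ∑ j, kd DX DX1 DY DY1 true false (t i) (t' j) := rfl
  have e11 : ∀ a, ∫ u, (XX s DX DX1 DY DY1 Fe).ρ a u * (XX s DX DX1 DY DY1 Fe).lin a u =
      ∫ u, s * NUSea.P u * (XX s DX DX1 DY DY1 Fe).lin a u := fun a => rfl
  rw [e11 true, e11 false] at h1
  rw [e9] at h1 e3
  rw [e10]
  linarith [h1, e1, e2, e3, e4]

/-! ### the final pointwise splitting -/

/-- constant of the splitting -/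
def CS (s : ℝ) (DX DX1 DY DY1 : ℝ → ℂ) (Fe : Bool → ℂ → ℂ) : ℝ :=
  (XX s DX DX1 DY DY1 Fe).S - (∫ u, s * NUSea.P u * (XX s DX DX1 DY DY1 Fe).lin true u) -
      ∫ u, s * NUSea.P u * (XX s DX DX1 DY DY1 Fe).lin false u

/-- the one body potential of species `d` -/
def phi (s : ℝ) (DX DX1 DY DY1 : ℝ → ℂ) (Fe : Bool → ℂ → ℂ) (β : ℝ → ℝ) (τ : ℝ → ℝ) (d : Bool)
    (t : ℝ) : ℝ :=
  s * NUSea.v t + (XX s DX DX1 DY DY1 Fe).lin d t + β t +
    (if d then NUE.cv lgm τ t else -NUE.cv lgm τ t)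

/-- **final pointwise splitting, whole line quadratic form** -/
theorem WO_act {ch : ℝ → ℝ} (hc : Continuous ch) (hce : ∀ k, ch (-k) = ch k) {K h : ℝ} (hh : 0 < h)
    (hK : K * h < Real.pi) (hcs : ∀ k, K < |k| → ch k = 0) (hL : ∀ k, 0 < k → ch k ^ 2 ≤ NUMF.Lh k)
    (La : Finset ℤ) (a0 : ℝ) {τ : ℝ → ℝ} (hτ : Integrable τ) (hτ1 : Integrable fun x => τ x * x)
    (h0 : ∫ x, τ x = (p : ℝ) - n)
    (hs : Small DX DX1 DY DY1) (hb : b ≤ NUMF.l / 7)
    (P' : ∀ a, NUAct.Path b c B (zz DX DY a) (zz1 DX1 DY1 a)) (hs0 : 0 ≤ s)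
    (hF : ∀ a, NUAct.Ext b (Fe a)) (hk : ∀ a d, Bk C (kd DX DX1 DY DY1 a d))
    {a a' βX βY : ℝ → ℝ} (ha : ∀ t, 0 ≤ a t) (ha' : ∀ t, 0 ≤ a' t)
    (hla : ∀ t, a t ≤ Real.exp (s * NUSea.v t + (XX s DX DX1 DY DY1 Fe).G true t + βX t))
    (hla' : ∀ t, a' t ≤ Real.exp (s * NUSea.v t + (XX s DX DX1 DY DY1 Fe).G false t + βY t))
    (t : Fin p → ℝ) (t' : Fin n → ℝ) :
    WO DX DX1 DY DY1 a a' t t' * Real.exp (1 / 2 * ∑ l ∈ La, Fst ch h a0 τ l t t' ^ 2) ≤
      Real.exp (Ctau p n τ + CS s DX DX1 DY DY1 Fe) *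
        W1 (phi s DX DX1 DY DY1 Fe βX τ true) t * W1 (phi s DX DX1 DY DY1 Fe βY τ false) t' *
        Real.exp (QF (fun u => s * NUSea.P u) (kd DX DX1 DY DY1) t t') := by
  refine (WO_tau hc hce hh hK hcs hL La a0 hτ hτ1 h0 hs ha ha' t t').trans ?_
  have e1 := act hs hb P' hs0 hF hk t t'
  have f1 : ∏ i, (a (t i) * Real.exp (NUE.cv lgm τ (t i))) ≤
      Real.exp (∑ i, (s * NUSea.v (t i) + (XX s DX DX1 DY DY1 Fe).G true (t i) + βX (t i) +
        NUE.cv lgm τ (t i))) := by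
    rw [Real.exp_sum]
    refine Finset.prod_le_prod (fun i _ => mul_nonneg (ha _) (Real.exp_pos _).le) fun i _ => ?_
    rw [Real.exp_add _ (NUE.cv lgm τ (t i))]
    exact mul_le_mul_of_nonneg_right (hla _) (Real.exp_pos _).le
  have f2 : ∏ i, (a' (t' i) * Real.exp (-NUE.cv lgm τ (t' i))) ≤
      Real.exp (∑ i, (s * NUSea.v (t' i) + (XX s DX DX1 DY DY1 Fe).G false (t' i) + βY (t' i) +
        -NUE.cv lgm τ (t' i))) := by
    rw [Real.exp_sum]
    refine Finset.prod_le_prod (fun i _ => mul_nonneg (ha' _) (Real.exp_pos _).le) fun i _ => ?_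
    rw [Real.exp_add _ (-NUE.cv lgm τ (t' i))]
    exact mul_le_mul_of_nonneg_right (hla' _) (Real.exp_pos _).le
  have p1 := pom_nonneg t
  have p2 := pom_nonneg t'
  have q1 : 0 ≤ ∏ i, (a (t i) * Real.exp (NUE.cv lgm τ (t i))) :=
    Finset.prod_nonneg fun i _ => mul_nonneg (ha _) (Real.exp_pos _).le
  have q2 : 0 ≤ ∏ i, (a' (t' i) * Real.exp (-NUE.cv lgm τ (t' i))) :=
    Finset.prod_nonneg fun i _ => mul_nonneg (ha' _) (Real.exp_pos _).le
  calc _ ≤ Real.exp (Ctau p n τ) *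
        (pom t * Real.exp (∑ i, (s * NUSea.v (t i) + (XX s DX DX1 DY DY1 Fe).G true (t i) + βX (t i) +
          NUE.cv lgm τ (t i)))) *
        (pom t' * Real.exp (∑ i, (s * NUSea.v (t' i) + (XX s DX DX1 DY DY1 Fe).G false (t' i) +
          βY (t' i) + -NUE.cv lgm τ (t' i)))) * Real.exp (KE DX DX1 DY DY1 t t') := by gcongr
    _ = pom t * pom t' * Real.exp (Ctau p n τ +
        ∑ i, (s * NUSea.v (t i) + (XX s DX DX1 DY DY1 Fe).G true (t i) + βX (t i) + NUE.cv lgm τ (t i)) +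
        ∑ i, (s * NUSea.v (t' i) + (XX s DX DX1 DY DY1 Fe).G false (t' i) + βY (t' i) +
          -NUE.cv lgm τ (t' i)) + KE DX DX1 DY DY1 t t') := by
        rw [Real.exp_add, Real.exp_add, Real.exp_add]
        ring
    _ = pom t * pom t' * Real.exp (Ctau p n τ + CS s DX DX1 DY DY1 Fe +
        ∑ i, phi s DX DX1 DY DY1 Fe βX τ true (t i) +
        ∑ i, phi s DX DX1 DY DY1 Fe βY τ false (t' i) +
        QF (fun u => s * NUSea.P u) (kd DX DX1 DY DY1) t t') := by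
        congr 2
        unfold phi CS
        simp only [Finset.sum_add_distrib, if_true, Bool.false_eq_true, if_false]
        linarith
    _ = _ := by
        unfold W1
        rw [← Real.exp_sum, ← Real.exp_sum]
        rw [Real.exp_add _ (QF _ _ _ _), Real.exp_add _ (∑ i, phi s DX DX1 DY DY1 Fe βY τ false (t' i)),
          Real.exp_add _ (∑ i, phi s DX DX1 DY DY1 Fe βX τ true (t i))]
        ring

end

end NUSea.N42
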