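import Pool.Agent.NUSea.Inst
import Pool.Agent.NUP.MF.Str

/-!
# Mean field calculus of the sea `Ph` (rows at `± l / 2`)

`Hh t y = ∫ Ph (s) h (t - s, y) ds`.  All mean field weights are combinations of
`dl t y = Hh (y + 1) + Hh (y - 1) - Hh (y) - (h (y + 1/2) + h (y - 1/2)) / 2` (units `l`), an even function
of `y` of period `8`, symmetric about `4`, with `dl = 0` for `|y| ≤ 3` and `dl = 2 Th (y - 3)` for
`3 ≤ y ≤ 4`.
-/

set_option autoImplicit false

open MeasureTheory Set Filter Topology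

namespace NUHM

open NUMF (l l_pos h H Ag ck1 sk dom P hk)
open NUSea (Ph)

noncomputable section

lemma l8 : 8 * l = Real.pi := by unfold NUMF.l; ring

/-! ### the density -/

lemma Ph_pos (t : ℝ) : 0 < Ph t :=
  lt_of_lt_of_le (by have := Real.pi_pos; positivity) (NUSea.Ph_low t)

lemma Ph_cont : Continuous Ph := by
  unfold NUSea.Ph
  refine continuous_const.mul (Continuous.div ?_ ?_ fun t => ?_)
  · exact (continuous_const.mul (NUMF.ch_cont.pow 2)).sub continuous_const
  · exact NUMF.ch_cont.mul ((continuous_const.mul (NUMF.ch_cont.pow 2)).sub continuous_const)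
  · exact (mul_pos (NUMF.ch_pos t) (NUSea.d3_pos t)).ne'

lemma Ph_le (t : ℝ) : Ph t ≤ 2 * P t := by
  have h1 := NUMF.one_le_ch t
  have h2 := NUSea.d3_pos t
  have h3 := NUMF.den_pos t
  have hpi := Real.pi_pos
  have h4 := NUMF.sq3_pos
  have h5 := NUMF.sq3
  have h6 : √3 ≤ 2 := by nlinarith
  have hc : 0 < NUMF.ch t := by linarith
  have k1 : (2 * NUMF.ch t ^ 2 - 1) / (NUMF.ch t * (4 * NUMF.ch t ^ 2 - 3)) ≤
      3 * (NUMF.ch t / (4 * NUMF.ch t ^ 2 - 1)) := by
    rw [← mul_div_assoc, div_le_div_iff₀ (mul_pos hc h2) h3]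
    have h7 : 1 ≤ NUMF.ch t ^ 2 := by nlinarith
    nlinarith [mul_nonneg (by linarith : (0:ℝ) ≤ NUMF.ch t ^ 2 - 1)
      (by nlinarith : (0:ℝ) ≤ 4 * NUMF.ch t ^ 2 + 1)]
  have k2 : 4 / Real.pi * 3 ≤ 2 * (16 / (√3 * Real.pi)) := by
    rw [div_mul_eq_mul_div, ← mul_div_assoc, div_le_div_iff₀ hpi (mul_pos h4 hpi)]
    nlinarith
  have k3 : 0 < NUMF.ch t / (4 * NUMF.ch t ^ 2 - 1) := div_pos hc h3
  unfold NUSea.Ph NUMF.P
  calc 4 / Real.pi * ((2 * NUMF.ch t ^ 2 - 1) / (NUMF.ch t * (4 * NUMF.ch t ^ 2 - 3))) ≤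
        4 / Real.pi * (3 * (NUMF.ch t / (4 * NUMF.ch t ^ 2 - 1))) := by gcongr
    _ = (4 / Real.pi * 3) * (NUMF.ch t / (4 * NUMF.ch t ^ 2 - 1)) := by ring
    _ ≤ (2 * (16 / (√3 * Real.pi))) * (NUMF.ch t / (4 * NUMF.ch t ^ 2 - 1)) := by gcongr
    _ = _ := by ring

lemma Ph_int_of {f : ℝ → ℝ} (hf : Integrable fun s => P s * f s)
    (hm : AEStronglyMeasurable f) : Integrable fun s => Ph s * f s := by
  refine (hf.norm.const_mul 2).mono' (Ph_cont.aestronglyMeasurable.mul hm)
    (Eventually.of_forall fun s => ?_)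
  rw [norm_mul, norm_mul, Real.norm_eq_abs, Real.norm_eq_abs (P s), abs_of_pos (Ph_pos s),
    abs_of_pos (NUMF.P_pos s), ← mul_assoc]
  exact mul_le_mul_of_nonneg_right (Ph_le s) (norm_nonneg _)

lemma Ph_integrable : Integrable Ph := by
  have h1 := Ph_int_of (f := fun _ => 1) (by simpa using NUMF.P_integrable) aestronglyMeasurable_const
  simpa using h1

lemma Ph_re (t : ℝ) : (NUMF.Pc ((t : ℂ) + (l / 2 : ℝ) * Complex.I)).re = Ph t := by
  have h1 := NUSea.shift_eq t (σ := 1) (Or.inl rfl)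
  have hc := (NUMF.ch_pos t).ne'
  have hd := (NUSea.d3_pos t).ne'
  have h3 := NUMF.sq3_pos.ne'
  have hpi := Real.pi_ne_zero
  have hc' : (NUMF.ch t : ℂ) ≠ 0 := by exact_mod_cast hc
  have hd' : (4 * (NUMF.ch t : ℂ) ^ 2 - 3) ≠ 0 := by exact_mod_cast hd
  have h3' : ((√3 : ℝ) : ℂ) ≠ 0 := by exact_mod_cast h3
  have hpi' : (Real.pi : ℂ) ≠ 0 := by exact_mod_cast hpi
  have e : NUMF.Pc ((t : ℂ) + (l / 2 : ℝ) * Complex.I) = ((Ph t : ℝ) : ℂ) +
      ((-(8 / (√3 * Real.pi) * (Real.sinh (8 / 3 * t) / (4 * NUMF.ch t ^ 2 - 3))) : ℝ) : ℂ) *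
        Complex.I := by
    rw [show (t : ℂ) + (l / 2 : ℝ) * Complex.I = (t : ℂ) + ((1 : ℝ) : ℂ) * (l / 2 : ℝ) * Complex.I by
      push_cast; ring, h1]
    unfold NUSea.Ph
    push_cast
    field_simp
    ring
  rw [e, Complex.add_re, Complex.ofReal_re, Complex.re_ofReal_mul, Complex.I_re, mul_zero, add_zero]

/-- transform of `Ph` -/
theorem Ph_cos (k x : ℝ) : Integrable (fun s => Ph s * Real.cos ((x - s) * k)) ∧
    ∫ s, Ph s * Real.cos ((x - s) * k) =
      Real.cosh (l / 2 * k) * (Real.cos (x * k) / (2 * ck1 k - 1)) := by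
  have hl := l_pos
  obtain ⟨i0, e0⟩ := NUMF.P_cos_conv k x
  obtain ⟨C, hC, hb⟩ := NUMF.Pc_deriv_exp (b := l / 2) (by linarith) (by linarith) 0
  simp only [iteratedDeriv_zero] at hb
  set Φ : ℂ → ℂ := fun z => NUMF.Pc z * Complex.cos (((x : ℂ) - z + (l / 2 : ℝ) * Complex.I) * k)
    with hΦ
  have him : ∀ z : ℂ, 0 ≤ z.im → z.im ≤ l / 2 → |z.im| ≤ l / 2 := fun z h1 h2 => by
    rw [abs_of_nonneg h1]; exact h2
  obtain ⟨i1, i2, e⟩ := NUMF.hshift (Φ := Φ) (θ := l / 2) (C := C * Real.exp (l / 2 * |k|))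
    (κ := 8 / 3) (by linarith) (by norm_num) (by
      intro z hz
      refine ContinuousAt.continuousWithinAt ?_
      have hd : DifferentiableAt ℂ NUMF.Pc z := NUMF.Pc_diff (by
        rw [abs_of_nonneg hz.1]; linarith [hz.2])
      have hcc : Continuous fun z : ℂ =>
        Complex.cos (((x : ℂ) - z + (l / 2 : ℝ) * Complex.I) * k) := by fun_prop
      exact hd.continuousAt.mul hcc.continuousAt) (by
      intro z h1 h2
      have hd : DifferentiableAt ℂ NUMF.Pc z := NUMF.Pc_diff (by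
        rw [abs_of_pos h1]; linarith)
      have hcc : Differentiable ℂ fun z : ℂ =>
        Complex.cos (((x : ℂ) - z + (l / 2 : ℝ) * Complex.I) * k) := by fun_prop
      exact hd.mul (hcc z)) (by
      intro z h1 h2 _
      have g1 := hb z (him z h1 h2)
      have g2 : ‖Complex.cos (((x : ℂ) - z + (l / 2 : ℝ) * Complex.I) * k)‖ ≤
          Real.exp (l / 2 * |k|) := by
        have g3 := NUMF.norm_cosh_le (((x : ℂ) - z + (l / 2 : ℝ) * Complex.I) * k * Complex.I)
        rw [Complex.cosh_mul_I] at g3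
        refine g3.trans ?_
        refine NUMF.cosh_le_exp ?_
        have e3 : ((((x : ℂ) - z + (l / 2 : ℝ) * Complex.I) * k * Complex.I)).re =
            -((l / 2 - z.im) * k) := by
          have e4 : ((x : ℂ) - z + (l / 2 : ℝ) * Complex.I).im = l / 2 - z.im := by
            rw [Complex.add_im, Complex.sub_im, Complex.ofReal_im, Complex.im_ofReal_mul,
              Complex.I_im]
            ring
          rw [Complex.mul_I_re, Complex.im_mul_ofReal, e4]
        rw [e3, abs_neg, abs_mul, abs_of_nonneg (by linarith : 0 ≤ l / 2 - z.im)]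
        exact mul_le_mul_of_nonneg_right (by linarith) (abs_nonneg _)
      rw [hΦ]
      simp only
      rw [norm_mul]
      calc ‖NUMF.Pc z‖ * ‖Complex.cos (((x : ℂ) - z + (l / 2 : ℝ) * Complex.I) * k)‖ ≤
            (C * Real.exp (-(8 / 3) * |z.re|)) * Real.exp (l / 2 * |k|) := by gcongr
        _ = _ := by ring)
  have hR : ∀ s : ℝ, (Φ (s + (l / 2 : ℝ) * Complex.I)).re = Ph s * Real.cos ((x - s) * k) := by
    intro s
    have e1 : ((x : ℂ) - (s + (l / 2 : ℝ) * Complex.I) + (l / 2 : ℝ) * Complex.I) * k =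
        (((x - s) * k : ℝ) : ℂ) := by push_cast; ring
    rw [hΦ]
    simp only
    rw [e1, ← Complex.ofReal_cos, Complex.re_mul_ofReal, Ph_re]
  have hL : ∀ s : ℝ, (Φ s).re = Real.cosh (l / 2 * k) * (P s * Real.cos ((x - s) * k)) := by
    intro s
    have e1 : ((x : ℂ) - s + (l / 2 : ℝ) * Complex.I) * k =
        (((x - s) * k : ℝ) : ℂ) + ((l / 2 * k : ℝ) : ℂ) * Complex.I := by push_cast; ring
    rw [hΦ]
    simp only
    rw [e1, NUMF.Pc_ofReal, Complex.re_ofReal_mul, Complex.cos_add, Complex.cos_mul_I,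
      Complex.sin_mul_I, ← Complex.ofReal_cos, ← Complex.ofReal_sin, ← Complex.ofReal_cosh,
      ← Complex.ofReal_sinh]
    have e2 : (Real.cos ((x - s) * k) : ℂ) * (Real.cosh (l / 2 * k) : ℂ) -
        (Real.sin ((x - s) * k) : ℂ) * ((Real.sinh (l / 2 * k) : ℂ) * Complex.I) =
        ((Real.cos ((x - s) * k) * Real.cosh (l / 2 * k) : ℝ) : ℂ) +
        ((-(Real.sin ((x - s) * k) * Real.sinh (l / 2 * k)) : ℝ) : ℂ) * Complex.I := by
      push_cast; ring
    rw [e2, Complex.add_re, Complex.ofReal_re, Complex.re_ofReal_mul, Complex.I_re, mul_zero,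
      add_zero]
    ring
  have j1 := i1.re
  have j2 := i2.re
  have e1 := integral_re i1
  have e2 := integral_re i2
  simp only [RCLike.re_to_complex, hL] at j1 e1
  simp only [RCLike.re_to_complex, hR] at j2 e2
  refine ⟨j2, ?_⟩
  rw [e2, ← e, ← e1, integral_const_mul, e0]

theorem Ph_mass : ∫ s, Ph s = 1 := NUSea.Ph_mass

/-! ### the potential of the cloud -/

/-- potential of the cloud of one row -/
def Hh (t y : ℝ) : ℝ := ∫ s, Ph s * h (t - s) y

lemma h_meas' (t y : ℝ) : AEStronglyMeasurable (fun s : ℝ => h (t - s) y) :=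
  ((NUMF.h_meas y).comp (measurable_const.sub measurable_id)).aestronglyMeasurable

lemma Hh_int (t y : ℝ) : Integrable fun s => Ph s * h (t - s) y :=
  Ph_int_of (NUMF.Ph_integrable t y) (h_meas' t y)

lemma Hh_neg (t y : ℝ) : Hh t (-y) = Hh t y := by
  unfold Hh
  simp_rw [NUMF.h_neg_right]

lemma Hh_per (t y : ℝ) : Hh t (y + 8 * l) = Hh t y := by
  unfold Hh
  simp_rw [NUMF.h_per]

lemma Hh_refl (t y : ℝ) : Hh t ((8 - y) * l) = Hh t (y * l) := by
  rw [← Hh_neg, ← Hh_per]
  congr 1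
  ring

lemma Hh_cont (t : ℝ) : Continuous fun y => Hh t y := by
  unfold Hh
  have hb : Integrable fun s => 2 * NUMF.maj t s := (NUMF.maj_integrable t).const_mul 2
  refine continuous_of_dominated (bound := fun s => 2 * NUMF.maj t s)
    (fun y => (Hh_int t y).aestronglyMeasurable) ?_ hb ?_
  · intro y
    filter_upwards [NUMF.ae_ne t] with s hs
    have h1 := NUMF.Ph_le hs y
    rw [norm_mul] at h1 ⊢
    rw [Real.norm_eq_abs, abs_of_pos (NUMF.P_pos s)] at h1
    rw [Real.norm_eq_abs, abs_of_pos (Ph_pos s)]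
    have h2 := mul_le_mul_of_nonneg_right (Ph_le s) (norm_nonneg (h (t - s) y))
    linarith
  · filter_upwards [NUMF.ae_ne t] with s hs
    refine continuous_const.mul ?_
    unfold NUMF.h
    refine Continuous.log (by fun_prop) fun y => ?_
    have h1 := NUMF.arg_ge (t - s) y
    have h2 : 0 < 2 * (t - s) ^ 2 := by positivity
    exact (lt_of_lt_of_le h2 h1).ne'

/-- **Fourier representation** -/
theorem Hh_fourier {a : ℝ} (ha : |a| < Real.pi / 2) (x : ℝ) :
    IntegrableOn (fun k => 2 * (1 - Real.cosh (a * k) * (Real.cosh (l / 2 * k) *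
      (Real.cos (x * k) / (2 * ck1 k - 1)))) / (k * sk k)) (Ioi 0) ∧
    Hh x a = Real.log 2 + ∫ k in Ioi (0:ℝ), 2 * (1 - Real.cosh (a * k) * (Real.cosh (l / 2 * k) *
      (Real.cos (x * k) / (2 * ck1 k - 1)))) / (k * sk k) := by
  set ν : Measure ℝ := volume.restrict (Ioi (0:ℝ)) with hν
  have hq : Integrable fun s => Ph s * (2 * (a ^ 2 + (x - s) ^ 2)) :=
    Ph_int_of (NUMF.P_quad_integrable x a) (Continuous.aestronglyMeasurable (by fun_prop))
  have hprod : Integrable (fun p : ℝ × ℝ => Ph p.1 * hk a (x - p.1) p.2) (volume.prod ν) := by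
    have h1 : Integrable (fun p : ℝ × ℝ => (Ph p.1 * (2 * (a ^ 2 + (x - p.1) ^ 2))) * dom |a| p.2)
        (volume.prod ν) := hq.mul_prod (NUMF.dom_integrable ha)
    refine h1.mono' ?_ ?_
    · exact ((Ph_cont.measurable.comp measurable_fst).mul (NUMF.hk_meas2 a x)).aestronglyMeasurable
    · have h2 : ∀ᵐ p : ℝ × ℝ ∂(volume.prod ν), 0 < p.2 := by
        have h3 : ∀ᵐ k ∂ν, 0 < k := by
          rw [hν]
          filter_upwards [ae_restrict_mem measurableSet_Ioi] with k hk
          exact hk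
        have h4 := (Measure.quasiMeasurePreserving_snd (μ := (volume : Measure ℝ)) (ν := ν)).ae h3
        exact h4
      filter_upwards [h2] with p hp
      rw [Real.norm_eq_abs, abs_mul, abs_of_pos (Ph_pos _)]
      have h5 := NUMF.hk_le (le_refl |a|) (x - p.1) hp
      have h6 := (Ph_pos p.1).le
      calc Ph p.1 * |hk a (x - p.1) p.2| ≤
            Ph p.1 * (2 * (a ^ 2 + (x - p.1) ^ 2) * dom |a| p.2) := by gcongr
        _ = _ := by ring
  have hswap := integral_integral_swap (f := fun s k => Ph s * hk a (x - s) k) (μ := volume)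
    (ν := ν) hprod
  have hi2 : Integrable (fun k => ∫ s, Ph s * hk a (x - s) k) ν := hprod.integral_prod_right
  have hin : ∀ k : ℝ, ∫ s, Ph s * hk a (x - s) k =
      2 * (1 - Real.cosh (a * k) * (Real.cosh (l / 2 * k) *
        (Real.cos (x * k) / (2 * ck1 k - 1)))) / (k * sk k) := by
    intro k
    obtain ⟨i1, e1⟩ := Ph_cos k x
    have hf : ∀ s, Ph s * hk a (x - s) k = 2 / (k * sk k) * Ph s -
        2 * Real.cosh (a * k) / (k * sk k) * (Ph s * Real.cos ((x - s) * k)) := by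
      intro s
      unfold NUMF.hk
      ring
    simp_rw [hf]
    rw [integral_sub (Ph_integrable.const_mul _) (i1.const_mul _), integral_const_mul,
      integral_const_mul, Ph_mass, e1]
    ring
  simp_rw [hin] at hi2 hswap
  refine ⟨hi2, ?_⟩
  rw [← hswap]
  have hH : ∀ s, Ph s * h (x - s) a = Ph s * Real.log 2 + ∫ k, Ph s * hk a (x - s) k ∂ν := by
    intro s
    rw [(NUMF.h_fourier ha (x - s)).2, mul_add, integral_const_mul]
    rfl
  unfold Hh
  simp_rw [hH]
  rw [integral_add (Ph_integrable.mul_const _) hprod.integral_prod_left, integral_mul_const, Ph_mass,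
    one_mul]

/-! ### the cloud of a row at `± l / 2` and the cloud of a row at `0` -/

lemma avg_lt (t : ℝ) {a : ℝ} (h1 : |a| < 7 / 2 * l) :
    Hh t a = (H t (a + l / 2) + H t (a - l / 2)) / 2 := by
  have hl := l_pos
  have hpi := l8
  have ha := abs_lt.1 h1
  obtain ⟨i1, f1⟩ := Hh_fourier (a := a) (by rw [abs_lt]; constructor <;> linarith) t
  obtain ⟨i2, f2⟩ := NUMF.H_fourier_hf (a := a + l / 2) (by rw [abs_lt]; constructor <;> linarith) t
  obtain ⟨i3, f3⟩ := NUMF.H_fourier_hf (a := a - l / 2) (by rw [abs_lt]; constructor <;> linarith) t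
  have key : ∀ k ∈ Ioi (0:ℝ), 2 * (1 - Real.cosh (a * k) * (Real.cosh (l / 2 * k) *
      (Real.cos (t * k) / (2 * ck1 k - 1)))) / (k * sk k) =
      (1 / 2) * (2 * (1 - Real.cosh ((a + l / 2) * k) * Real.cos (t * k) / (2 * ck1 k - 1)) / (k * sk k)) +
      (1 / 2) * (2 * (1 - Real.cosh ((a - l / 2) * k) * Real.cos (t * k) / (2 * ck1 k - 1)) /
        (k * sk k)) := by
    intro k _
    rw [add_mul, sub_mul, Real.cosh_add, Real.cosh_sub]
    ring
  have b4 := setIntegral_congr_fun (μ := volume) measurableSet_Ioi key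
  rw [integral_add (i2.const_mul _) (i3.const_mul _), integral_const_mul, integral_const_mul] at b4
  rw [f1, f2, f3, b4]
  ring

lemma avg_gt (t : ℝ) {a : ℝ} (h1 : 7 / 2 * l < a) (h2 : a < 4 * l) :
    Hh t a = (H t (15 / 2 * l - a) + H t (a - l / 2)) / 2 - Ag (a / l - 7 / 2) t := by
  have hl := l_pos
  have hpi := l8
  have e4 : (4:ℝ) * l = Real.pi / 2 := by linarith
  obtain ⟨i1, f1⟩ := Hh_fourier (a := a) (by rw [abs_lt]; constructor <;> linarith) t
  obtain ⟨i2, f2⟩ := NUMF.H_fourier_hf (a := 15 / 2 * l - a)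
    (by rw [abs_lt]; constructor <;> linarith) t
  obtain ⟨i3, f3⟩ := NUMF.H_fourier_hf (a := a - l / 2) (by rw [abs_lt]; constructor <;> linarith) t
  obtain ⟨i5, f5⟩ := NUMF.Gc_im_fourier t (τ := a - 7 / 2 * l)
    (by rw [abs_of_pos (by linarith)]; linarith)
  have key : ∀ k ∈ Ioi (0:ℝ), 2 * (1 - Real.cosh (a * k) * (Real.cosh (l / 2 * k) *
      (Real.cos (t * k) / (2 * ck1 k - 1)))) / (k * sk k) =
      (1 / 2) * (2 * (1 - Real.cosh ((15 / 2 * l - a) * k) * Real.cos (t * k) / (2 * ck1 k - 1)) /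
        (k * sk k)) +
      (1 / 2) * (2 * (1 - Real.cosh ((a - l / 2) * k) * Real.cos (t * k) / (2 * ck1 k - 1)) /
        (k * sk k)) -
      2 * (Real.cos (k * t) * Real.sinh (k * (a - 7 / 2 * l)) / (k * (2 * ck1 k - 1))) := by
    intro k hk
    have hk' : (0:ℝ) < k := hk
    have hs := NUMF.sk_pos hk'
    have hd := NUMF.dkp k
    have a1 : Real.cosh (a * k) * Real.cosh (l / 2 * k) =
        (Real.cosh ((a + l / 2) * k) + Real.cosh ((a - l / 2) * k)) / 2 := by
      rw [add_mul, sub_mul, Real.cosh_add, Real.cosh_sub]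
      ring
    have a2 : Real.cosh ((a + l / 2) * k) - Real.cosh ((15 / 2 * l - a) * k) =
        2 * (sk k * Real.sinh (k * (a - 7 / 2 * l))) := by
      unfold NUMF.sk
      rw [← e4, show (a + l / 2) * k = 4 * l * k + k * (a - 7 / 2 * l) by ring,
        show (15 / 2 * l - a) * k = 4 * l * k - k * (a - 7 / 2 * l) by ring, Real.cosh_add,
        Real.cosh_sub]
      ring
    have a3 : Real.cosh (a * k) * (Real.cosh (l / 2 * k) * (Real.cos (t * k) / (2 * ck1 k - 1))) =
        ((Real.cosh ((15 / 2 * l - a) * k) + 2 * (sk k * Real.sinh (k * (a - 7 / 2 * l))) +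
          Real.cosh ((a - l / 2) * k)) / 2) * Real.cos (t * k) / (2 * ck1 k - 1) := by
      rw [← a2, ← mul_assoc, a1]
      ring
    rw [a3, mul_comm k t]
    have hk0 := hk'.ne'
    have hs0 := hs.ne'
    have hd0 := hd.ne'
    field_simp
    ring
  have b4 := setIntegral_congr_fun (μ := volume) measurableSet_Ioi key
  have i23 := (i2.const_mul (1 / 2)).add (i3.const_mul (1 / 2))
  have b5 := integral_sub i23 (i5.const_mul 2)
  have b6 := integral_add (i2.const_mul (1 / 2)) (i3.const_mul (1 / 2))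
  simp only [Pi.add_apply] at b5 b6
  rw [b5, b6, integral_const_mul, integral_const_mul, integral_const_mul, ← f5] at b4
  have e5 : (a / l - 7 / 2) * l = a - 7 / 2 * l := by field_simp
  rw [f1, f2, f3, b4]
  unfold NUMF.Ag
  rw [e5]
  ring

end

end NUHM
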