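import Pool.Agent.NUSea.Disp

/-!
# Weighted recursive calculus and the second order part of the transported density

`OC j e f`: `f : ℝ → ℂ` and its first `j` derivatives are bounded by the weight `e t`.
-/

set_option autoImplicit false
set_option linter.unusedSectionVars false

open MeasureTheory Set Filter Topology Complex

namespace NUSea

open NUMF (l l_pos)
open NUAct

noncomputable section

variable [Sea]

/-! ### the density along a displaced line -/

lemma Pr_OC (j : ℕ) : ∀ k : ℕ, ∃ C : ℝ, 0 < C ∧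
    OC j (fun t => C * P t) fun t => iteratedDeriv k Pc (t : ℂ) := by
  induction j with
  | zero =>
    intro k
    obtain ⟨C, hC, h⟩ := Pn_bd k
    refine ⟨C, hC, continuous_iff_continuousAt.2 fun x => (hasDerivAt_real k x).continuousAt,
      fun t => ?_⟩
    have := h t 0 (by simp)
    rwa [add_zero] at this
  | succ j ih =>
    intro k
    obtain ⟨C, hC, h⟩ := Pn_bd k
    obtain ⟨C', hC', h'⟩ := ih (k + 1)
    refine ⟨C + C', by positivity, fun t => ?_, fun t => iteratedDeriv (k + 1) Pc (t : ℂ),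
      hasDerivAt_real k, h'.mono fun t => ?_⟩
    · have := h t 0 (by simp)
      rw [add_zero] at this
      have := P_pos t
      nlinarith
    · have := P_pos t
      nlinarith

/-- first order increments -/
def Tn (k : ℕ) (δ : ℝ → ℂ) (t : ℝ) : ℂ := iteratedDeriv k Pc (t + δ t) - iteratedDeriv k Pc t

/-- second order increments -/
def Sn (k : ℕ) (δ : ℝ → ℂ) (t : ℝ) : ℂ :=
  iteratedDeriv k Pc (t + δ t) - iteratedDeriv k Pc t - iteratedDeriv (k + 1) Pc t * δ t

lemma im_small {z : ℂ} (hz : ‖z‖ ≤ 1 / 20) (t : ℝ) : |((t : ℂ) + z).im| < l / 2 :=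
  ball_strip (t := t) (by simpa using hz)

lemma hasDerivAt_PcD (k : ℕ) {δ δ1 : ℝ → ℂ} (hδ : ∀ t, HasDerivAt δ (δ1 t) t)
    (hs : ∀ t, ‖δ t‖ ≤ 1 / 20) (t : ℝ) : HasDerivAt (fun t : ℝ => iteratedDeriv k Pc (t + δ t))
      (iteratedDeriv (k + 1) Pc (t + δ t) * (1 + δ1 t)) t := by
  have h1 := hasDerivAt_iter k (im_small (hs t) t)
  have h2 : HasDerivAt (fun t : ℝ => (t : ℂ) + δ t) (1 + δ1 t) t :=
    (Complex.ofRealCLM.hasDerivAt (x := t)).add (hδ t)
  have h3 := h1.scomp t h2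
  rw [smul_eq_mul, mul_comm] at h3
  exact h3

lemma cont_PcD (k : ℕ) {δ : ℝ → ℂ} (hδ : Continuous δ) (hs : ∀ t, ‖δ t‖ ≤ 1 / 20) :
    Continuous fun t : ℝ => iteratedDeriv k Pc (t + δ t) := by
  have hc : ContinuousOn (iteratedDeriv k Pc) {z : ℂ | |z.im| < l / 2} := fun z hz =>
    (an_iter k z hz).continuousAt.continuousWithinAt
  exact hc.comp_continuous (Complex.continuous_ofReal.add hδ) fun t => im_small (hs t) t

theorem Tn_OC (j : ℕ) : ∀ k : ℕ, ∃ C : ℝ, 0 < C ∧ ∀ {e : ℝ → ℝ} {δ : ℝ → ℂ}, OC j e δ →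
    (∀ t, e t ≤ 1 / 20) → OC j (fun t => C * (P t * e t)) (Tn k δ) := by
  induction j with
  | zero =>
    intro k
    obtain ⟨C, hC, h⟩ := tay1 k
    refine ⟨C, hC, fun {e δ} hδ he => ⟨?_, fun t => ?_⟩⟩
    · exact (cont_PcD k hδ.cont fun t => (hδ.le t).trans (he t)).sub (Pr_OC 0 k).choose_spec.2.cont
    · refine (h t (δ t) ((hδ.le t).trans (he t))).trans ?_
      have := P_pos t
      have := hδ.le t
      calc C * P t * ‖δ t‖ ≤ C * P t * e t := by gcongr
        _ = _ := by ring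
  | succ j ih =>
    intro k
    obtain ⟨C, hC, h⟩ := tay1 k
    obtain ⟨C', hC', h'⟩ := ih (k + 1)
    obtain ⟨C2, hC2, h2⟩ := Pr_OC j (k + 1)
    refine ⟨C + (2 ^ j * (C' * 2) + 2 ^ j * C2), by positivity, fun {e δ} hδ he => ?_⟩
    have hδl := hδ.lower
    have hsm : ∀ t, ‖δ t‖ ≤ 1 / 20 := fun t => (hδ.le t).trans (he t)
    have he0 := hδ.nonneg
    obtain ⟨d0, δ1, d1, d2⟩ := hδ
    refine ⟨fun t => ?_, fun t => Tn (k + 1) δ t * (1 + δ1 t) + δ1 t * iteratedDeriv (k + 1) Pc t,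
      fun t => ?_, ?_⟩
    · refine (h t (δ t) (hsm t)).trans ?_
      have hp := P_pos t
      have h0 : 0 ≤ P t * e t := mul_nonneg hp.le (he0 t)
      calc C * P t * ‖δ t‖ ≤ C * P t * e t := by
            have := d0 t
            gcongr
        _ = C * (P t * e t) := by ring
        _ ≤ _ := by
            refine mul_le_mul_of_nonneg_right ?_ h0
            have : 0 ≤ 2 ^ j * (C' * 2) + 2 ^ j * C2 := by positivity
            linarith
    · have h3 := (hasDerivAt_PcD k d1 hsm t).sub (hasDerivAt_real k t)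
      refine h3.congr_deriv ?_
      unfold Tn
      ring
    · have e1 : OC j (fun _ => (2:ℝ)) fun t => 1 + δ1 t := by
        have := (OC.const j (e := fun _ => (1:ℝ)) (c := 1) (by simp)).add d2
        refine this.mono fun t => ?_
        have := he t
        linarith
      have e2 := ((h' hδl he).mul e1).add (d2.mul h2)
      refine e2.mono fun t => ?_
      have hp := P_pos t
      have h0 : 0 ≤ P t * e t := mul_nonneg hp.le (he0 t)
      have h1 : 0 ≤ C * (P t * e t) := by positivity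
      calc 2 ^ j * (C' * (P t * e t) * 2) + 2 ^ j * (e t * (C2 * P t)) =
            (2 ^ j * (C' * 2) + 2 ^ j * C2) * (P t * e t) := by ring
        _ ≤ _ := by rw [add_mul C]; linarith

theorem Sn_OC (j : ℕ) : ∀ k : ℕ, ∃ C : ℝ, 0 < C ∧ ∀ {e : ℝ → ℝ} {δ : ℝ → ℂ}, OC j e δ →
    (∀ t, e t ≤ 1 / 20) → OC j (fun t => C * (P t * e t ^ 2)) (Sn k δ) := by
  induction j with
  | zero =>
    intro k
    obtain ⟨C, hC, h⟩ := tay2 k
    refine ⟨C, hC, fun {e δ} hδ he => ⟨?_, fun t => ?_⟩⟩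
    · exact ((cont_PcD k hδ.cont fun t => (hδ.le t).trans (he t)).sub
        (Pr_OC 0 k).choose_spec.2.cont).sub ((Pr_OC 0 (k + 1)).choose_spec.2.cont.mul hδ.cont)
    · refine (h t (δ t) ((hδ.le t).trans (he t))).trans ?_
      have := P_pos t
      have := hδ.le t
      calc C * P t * ‖δ t‖ ^ 2 ≤ C * P t * e t ^ 2 := by gcongr
        _ = _ := by ring
  | succ j ih =>
    intro k
    obtain ⟨C, hC, h⟩ := tay2 k
    obtain ⟨C', hC', h'⟩ := ih (k + 1)
    obtain ⟨C2, hC2, h2⟩ := Tn_OC j (k + 1)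
    refine ⟨C + (C' + 2 ^ j * C2), by positivity, fun {e δ} hδ he => ?_⟩
    have hδl := hδ.lower
    have hsm : ∀ t, ‖δ t‖ ≤ 1 / 20 := fun t => (hδ.le t).trans (he t)
    have he0 := hδ.nonneg
    obtain ⟨d0, δ1, d1, d2⟩ := hδ
    refine ⟨fun t => ?_, fun t => Sn (k + 1) δ t + δ1 t * Tn (k + 1) δ t, fun t => ?_, ?_⟩
    · refine (h t (δ t) (hsm t)).trans ?_
      have hp := P_pos t
      have h0 : 0 ≤ P t * e t ^ 2 := by positivity
      calc C * P t * ‖δ t‖ ^ 2 ≤ C * P t * e t ^ 2 := by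
            have := d0 t
            gcongr
        _ = C * (P t * e t ^ 2) := by ring
        _ ≤ _ := by
            refine mul_le_mul_of_nonneg_right ?_ h0
            have : 0 ≤ C' + 2 ^ j * C2 := by positivity
            linarith
    · have h3 := ((hasDerivAt_PcD k d1 hsm t).sub (hasDerivAt_real k t)).sub
        ((hasDerivAt_real (k + 1) t).mul (d1 t))
      refine h3.congr_deriv ?_
      unfold Sn Tn
      ring
    · have e2 := (h' hδl he).add (d2.mul (h2 hδl he))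
      refine e2.mono fun t => ?_
      have hp := P_pos t
      have h0 : 0 ≤ P t * e t ^ 2 := by positivity
      have h1 : 0 ≤ C * (P t * e t ^ 2) := by positivity
      calc C' * (P t * e t ^ 2) + 2 ^ j * (e t * (C2 * (P t * e t))) =
            (C' + 2 ^ j * C2) * (P t * e t ^ 2) := by ring
        _ ≤ _ := by rw [add_mul C]; linarith

/-- second order part of the transported density -/
def Br (s : ℝ) (δ δ1 : ℝ → ℂ) (t : ℝ) : ℂ := (s : ℂ) * (Sn 0 δ t + δ1 t * Tn 0 δ t)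

lemma Bf_eq (s : ℝ) (δ δ1 : ℝ → ℂ) (t : ℝ) : Bf s δ δ1 t = af s δ δ1 t + Br s δ δ1 t := by
  unfold Bf af Br Sn Tn zt zd
  simp only [iteratedDeriv_zero, zero_add]
  rw [Complex.ofReal_mul, ← Pc_ofReal]
  ring

theorem Br_OC (j : ℕ) : ∃ C : ℝ, 0 < C ∧ ∀ {s : ℝ} {e : ℝ → ℝ} {δ δ1 : ℝ → ℂ}, 0 ≤ s →
    (∀ t, HasDerivAt δ (δ1 t) t) → OC j e δ → OC j e δ1 →
    (∀ t, e t ≤ 1 / 20) → OC j (fun t => C * (s * P t * e t ^ 2)) (Br s δ δ1) := by
  obtain ⟨C1, h1, H1⟩ := Sn_OC j 0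
  obtain ⟨C2, h2, H2⟩ := Tn_OC j 0
  refine ⟨C1 + 2 ^ j * C2, by positivity, fun {s e δ δ1} hs _ h h' he => ?_⟩
  have := (((H1 h he).add (h'.mul (H2 h he))).smul (s : ℂ))
  refine this.mono fun t => le_of_eq ?_
  rw [Complex.norm_real, Real.norm_eq_abs, abs_of_nonneg hs]
  ring

theorem af_OC (j : ℕ) : ∃ C : ℝ, 0 < C ∧ ∀ {s : ℝ} {e : ℝ → ℝ} {δ δ1 : ℝ → ℂ}, 0 ≤ s →
    OC j e δ → OC j e δ1 → OC j (fun t => C * (s * P t * e t)) (af s δ δ1) := by
  obtain ⟨C1, h1, H1⟩ := Pr_OC j 1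
  obtain ⟨C0, h0, H0⟩ := Pr_OC j 0
  simp only [iteratedDeriv_zero] at H0
  refine ⟨2 ^ j * (C1 + C0), by positivity, fun {s e δ δ1} hs h h' => ?_⟩
  have := (((H1.mul h).add (H0.mul h')).smul (s : ℂ))
  refine this.mono fun t => le_of_eq ?_
  rw [Complex.norm_real, Real.norm_eq_abs, abs_of_nonneg hs]
  ring

end

end NUSea
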