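import Pool.Agent.NUSea.Sfin

/-!
# The quadratic part of the one body potential on the whole line
-/

set_option autoImplicit false
set_option linter.unusedSectionVars false

open MeasureTheory Set Filter Topology Complex

namespace NUSea

open NUMF (l l_pos w g V)
open NUAct NUKer

noncomputable section

variable [Sea]

variable {s ε M R : ℝ} {δ δ1 δ2 : ℝ → ℂ}

lemma Disp.bd2 (D : Disp s ε M R δ δ1 δ2) (t y : ℝ) : ‖δ t - δ y‖ ≤ 2 * ε ∧ ‖δ1 t - δ1 y‖ ≤ 2 * ε := by
  have a1 := norm_sub_le (δ t) (δ y)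
  have a2 := norm_sub_le (δ1 t) (δ1 y)
  constructor
  · linarith [D.e0 t, D.e0 y]
  · linarith [D.e1 t, D.e1 y]

/-- kernels of the path against the real one -/
theorem exists_ker : ∃ K : ℝ, 1 ≤ K ∧ ∀ {s ε M R : ℝ} {δ δ1 δ2 : ℝ → ℂ}, Disp s ε M R δ δ1 δ2 →
    ε ≤ 1 / 20 → ∀ t y, t ≠ y →
    ‖Up Uc (zt δ) t y - (V (t - y) : ℂ)‖ ≤ K * ε * Real.exp (-|t - y|) ∧
    ‖Q1 δ δ1 t y‖ ≤ K * ε * Real.exp (-|t - y|) := by
  obtain ⟨K, hK, H⟩ := Uc_incr
  refine ⟨1 + 3 * K, by linarith, fun {s ε M R δ δ1 δ2} D hε t y hne => ?_⟩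
  have hε0 := D.ε0
  have key : ∀ t y, y < t →
      ‖Uc (zt δ t - zt δ y) - (V (t - y) : ℂ)‖ ≤ 3 * K * ε * Real.exp (-(t - y)) ∧
      ‖Ud (zt δ t - zt δ y) * (δ1 t - δ1 y)‖ ≤ 3 * K * ε * Real.exp (-(t - y)) := by
    intro t y hty
    have hx : 0 < t - y := by linarith
    obtain ⟨x, hxd⟩ : ∃ x, x = t - y := ⟨_, rfl⟩
    have d0 := D.diff t y
    have d1 := D.diff1 t y
    have d2 := D.bd2 t y
    rw [abs_of_pos hx] at d0 d1
    have e : zt δ t - zt δ y = ((t - y : ℝ) : ℂ) + (δ t - δ y) := by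
      unfold zt
      push_cast
      ring
    rw [e]
    rw [← hxd] at hx d0 d1 ⊢
    have h1 := H x (δ t - δ y) hx (by nlinarith) (by linarith [d2.1])
    rw [Uc_ofReal hx] at h1
    have hE := Real.exp_pos (-x)
    have c0 : (1 + 1 / x) * ‖δ t - δ y‖ ≤ 3 * ε := by
      have : 1 / x * ‖δ t - δ y‖ ≤ ε := by
        rw [one_div, inv_mul_le_iff₀ hx]
        linarith
      linarith [d2.1]
    have c1 : (1 + 1 / x) * ‖δ1 t - δ1 y‖ ≤ 3 * ε := by
      have : 1 / x * ‖δ1 t - δ1 y‖ ≤ ε := by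
        rw [one_div, inv_mul_le_iff₀ hx]
        linarith
      linarith [d2.2]
    constructor
    · calc _ ≤ K * (1 + 1 / x) * Real.exp (-x) * ‖δ t - δ y‖ := h1.1
        _ = K * Real.exp (-x) * ((1 + 1 / x) * ‖δ t - δ y‖) := by ring
        _ ≤ K * Real.exp (-x) * (3 * ε) := by gcongr
        _ = _ := by ring
    · rw [norm_mul]
      calc _ ≤ K * (1 + 1 / x) * Real.exp (-x) * ‖δ1 t - δ1 y‖ := by
            gcongr
            exact h1.2
        _ = K * Real.exp (-x) * ((1 + 1 / x) * ‖δ1 t - δ1 y‖) := by ring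
        _ ≤ K * Real.exp (-x) * (3 * ε) := by gcongr
        _ = _ := by ring
  have hmono : ∀ x : ℝ, 3 * K * ε * Real.exp (-x) ≤ (1 + 3 * K) * ε * Real.exp (-x) := by
    intro x
    have := Real.exp_pos (-x)
    gcongr
    linarith
  rcases lt_or_gt_of_ne hne with h | h
  · have h1 := key y t h
    rw [Up_of_le h.le, abs_of_neg (by linarith : t - y < 0), neg_sub]
    have e1 : Q1 δ δ1 t y = Ud (zt δ y - zt δ t) * (δ1 y - δ1 t) := if_neg (not_lt.2 h.le)
    have e2 : V (t - y) = V (y - t) := by rw [← V_even, neg_sub]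
    rw [e1, e2]
    exact ⟨h1.1.trans (hmono _), h1.2.trans (hmono _)⟩
  · have h1 := key t y h
    rw [Up_of_lt h, abs_of_pos (by linarith : 0 < t - y)]
    have e1 : Q1 δ δ1 t y = Ud (zt δ t - zt δ y) * (δ1 t - δ1 y) := if_pos h
    rw [e1]
    exact ⟨h1.1.trans (hmono _), h1.2.trans (hmono _)⟩

lemma Up_Uc_bd (D : Disp s ε M R δ δ1 δ2) (hε : ε ≤ 1 / 20) :
    ∃ K : ℝ, 0 ≤ K ∧ ∀ t y, t ≠ y → ‖Up Uc (zt δ) t y‖ ≤ K * gr |t - y| := by
  obtain ⟨K, hK0, hK⟩ := one_Kbd (Fe := fun _ => 0) s le_rfl (D.path hε)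
  exact ⟨K, hK0, fun t y h => hK () () t y h⟩

lemma Q1_meas (D : Disp s ε M R δ δ1 δ2) : Measurable fun p : ℝ × ℝ => Q1 δ δ1 p.1 p.2 := by
  have h1 := D.c1.measurable
  have h2 : Measurable (zt δ) := by
    have := D.c0.measurable
    unfold zt
    fun_prop
  have h3 := Ud_meas
  unfold Q1
  refine Measurable.ite (measurableSet_lt measurable_snd measurable_fst) ?_ ?_ <;> fun_prop

/-- **the derivative of `K B`** -/
theorem hasDerivAt_KB (D : Disp s ε M R δ δ1 δ2) (hε : ε ≤ 1 / 20) (t0 : ℝ) :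
    HasDerivAt (fun t => ∫ y, Up Uc (zt δ) t y * Bf s δ δ1 y)
      (∫ y, (Q1 δ δ1 t0 y * Bf s δ δ1 y + Up Uc (zt δ) t0 y * Bf1 s δ δ1 δ2 y)) t0 := by
  have hP := D.path hε
  have hl := l_pos
  obtain ⟨K, hK, HK⟩ := exists_ker
  obtain ⟨K1, hK1, HU⟩ := Up_Uc_bd D hε
  have hε0 := D.ε0
  have cB : Continuous (Bf s δ δ1) :=
    continuous_iff_continuousAt.2 fun t => (hasDerivAt_Bf D hε t).continuousAt
  have cB1 : Continuous (Bf1 s δ δ1 δ2) := by
    have c1 : Continuous fun t => iteratedDeriv 1 Pc (zt δ t) :=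
      cont_PcD 1 D.c0 fun t => (D.e0 t).trans hε
    have c0 : Continuous fun t => Pc (zt δ t) := by
      have := cont_PcD 0 D.c0 fun t => (D.e0 t).trans hε
      simp only [iteratedDeriv_zero] at this
      exact this
    have cz : Continuous (zd δ1) := continuous_const.add D.c1
    have cr : Continuous fun t : ℝ => iteratedDeriv 1 Pc (t : ℂ) :=
      continuous_iff_continuousAt.2 fun t => (hasDerivAt_real 1 t).continuousAt
    unfold Bf1
    exact (continuous_const.mul (((c1.mul cz).mul cz).add (c0.mul D.c2))).sub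
      (continuous_const.mul cr)
  have z0 : ∀ y, R ≤ |y| → Bf s δ δ1 y = 0 ∧ Bf1 s δ δ1 δ2 y = 0 := by
    intro y hy
    obtain ⟨a0, a1, a2⟩ := D.supp y hy
    unfold Bf Bf1 zt zd
    rw [a0, a1, a2]
    simp only [add_zero, mul_one, mul_zero, Pc_ofReal]
    push_cast
    constructor <;> ring
  obtain ⟨CB, hCB⟩ : ∃ C : ℝ, ∀ y, ‖Bf s δ δ1 y‖ ≤ C := by
    obtain ⟨C, hC⟩ := (isCompact_Icc (a := -R) (b := R)).exists_bound_of_continuousOn
      cB.continuousOn
    refine ⟨max C 0, fun y => ?_⟩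
    by_cases hy : y ∈ Icc (-R) R
    · exact (hC y hy).trans (le_max_left _ _)
    · rw [(z0 y (by
        by_contra h
        exact hy (abs_le.1 (not_le.1 h).le))).1, norm_zero]
      exact le_max_right _ _
  obtain ⟨CB1, hCB1⟩ : ∃ C : ℝ, ∀ y, ‖Bf1 s δ δ1 δ2 y‖ ≤ C := by
    obtain ⟨C, hC⟩ := (isCompact_Icc (a := -R) (b := R)).exists_bound_of_continuousOn
      cB1.continuousOn
    refine ⟨max C 0, fun y => ?_⟩
    by_cases hy : y ∈ Icc (-R) R
    · exact (hC y hy).trans (le_max_left _ _)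
    · rw [(z0 y (by
        by_contra h
        exact hy (abs_le.1 (not_le.1 h).le))).2, norm_zero]
      exact le_max_right _ _
  have hCB0 : 0 ≤ CB := (norm_nonneg _).trans (hCB 0)
  have hCB10 : 0 ≤ CB1 := (norm_nonneg _).trans (hCB1 0)
  have mU : Measurable fun p : ℝ × ℝ => Up Uc (zt δ) p.1 p.2 := Up_meas Uc_meas hP.continuous
  have mQ := Q1_meas D
  have mB := cB.measurable
  have mB1 := cB1.measurable
  have mU1 : ∀ t, Measurable fun u : ℝ => Up Uc (zt δ) t (t + u) := fun t =>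
    mU.comp (measurable_const.prodMk (measurable_const.add measurable_id))
  have mQ1 : ∀ t, Measurable fun u : ℝ => Q1 δ δ1 t (t + u) := fun t =>
    mQ.comp (measurable_const.prodMk (measurable_const.add measurable_id))
  have e1 : (fun t => ∫ y, Up Uc (zt δ) t y * Bf s δ δ1 y) =
      fun t => ∫ u, Up Uc (zt δ) t (t + u) * Bf s δ δ1 (t + u) := by
    funext t
    exact (integral_add_left_eq_self (fun y => Up Uc (zt δ) t y * Bf s δ δ1 y) t).symm
  have e2 : (∫ y, (Q1 δ δ1 t0 y * Bf s δ δ1 y + Up Uc (zt δ) t0 y * Bf1 s δ δ1 δ2 y)) =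
      ∫ u, (Q1 δ δ1 t0 (t0 + u) * Bf s δ δ1 (t0 + u) +
        Up Uc (zt δ) t0 (t0 + u) * Bf1 s δ δ1 δ2 (t0 + u)) :=
    (integral_add_left_eq_self (fun y => Q1 δ δ1 t0 y * Bf s δ δ1 y +
      Up Uc (zt δ) t0 y * Bf1 s δ δ1 δ2 y) t0).symm
  rw [e1, e2]
  have hR : 0 ≤ |R| := abs_nonneg R
  obtain ⟨ρ, hρ⟩ : ∃ ρ, ρ = |R| + |t0| + 1 := ⟨_, rfl⟩
  obtain ⟨A, hA⟩ : ∃ A, A = K * ε * CB + K1 * CB1 + K1 * CB := ⟨_, rfl⟩
  have hA0 : 0 ≤ A := by rw [hA]; positivity
  have hgr1 : ∀ u : ℝ, 1 ≤ gr |u| := fun u => by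
    unfold gr
    have := abs_nonneg u
    have := abs_nonneg (Real.log |u|)
    linarith
  have bi : Integrable (indicator (Icc (-ρ) ρ) fun u => A * gr |u|) := by
    rw [integrable_indicator_iff measurableSet_Icc]
    exact (NUR2.gr_li.integrableOn_isCompact isCompact_Icc).const_mul A
  have out : ∀ t u, |t - t0| < 1 → u ∉ Icc (-ρ) ρ → R ≤ |t + u| := by
    intro t u ht hu
    have h1 : ρ < |u| := by
      by_contra h
      exact hu (abs_le.1 (not_lt.1 h))
    have h2 : |u| ≤ |t + u| + |t| := by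
      have := abs_sub (t + u) t
      rwa [add_sub_cancel_left] at this
    have h3 : |t| ≤ |t - t0| + |t0| := by
      have := abs_add_le (t - t0) t0
      rwa [sub_add_cancel] at this
    have h4 := le_abs_self R
    rw [hρ] at h1
    linarith
  have hb : ∀ t u, |t - t0| < 1 → u ≠ 0 →
      ‖Q1 δ δ1 t (t + u) * Bf s δ δ1 (t + u) + Up Uc (zt δ) t (t + u) * Bf1 s δ δ1 δ2 (t + u)‖ ≤
        indicator (Icc (-ρ) ρ) (fun u => A * gr |u|) u := by
    intro t u ht hu
    by_cases hm : u ∈ Icc (-ρ) ρ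
    · rw [indicator_of_mem hm]
      have hne : t ≠ t + u := by
        intro h
        exact hu (by linarith)
      have e3 : t - (t + u) = -u := by ring
      have h1 := (HK D hε t (t + u) hne).2
      have h2 := HU t (t + u) hne
      rw [e3, abs_neg] at h1 h2
      refine (norm_add_le _ _).trans ?_
      rw [norm_mul, norm_mul]
      have h3 : Real.exp (-|u|) ≤ 1 := Real.exp_le_one_iff.2 (by simp)
      have h4 : ‖Q1 δ δ1 t (t + u)‖ ≤ K * ε := h1.trans (by
        have : 0 ≤ K * ε := by positivity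
        nlinarith)
      have g1 := hgr1 u
      have p0 : 0 ≤ K * ε * CB := by positivity
      have p2 : 0 ≤ K1 * CB := by positivity
      calc _ ≤ (K * ε) * CB + (K1 * gr |u|) * CB1 := by
            refine add_le_add (mul_le_mul h4 (hCB _) (norm_nonneg _) (by positivity)) ?_
            exact mul_le_mul h2 (hCB1 _) (norm_nonneg _) ((norm_nonneg _).trans h2)
        _ ≤ (K * ε * CB) * gr |u| + (K1 * CB1) * gr |u| + (K1 * CB) * gr |u| := by
            have q1 : K * ε * CB ≤ (K * ε * CB) * gr |u| := le_mul_of_one_le_right p0 g1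
            have q2 : 0 ≤ (K1 * CB) * gr |u| := by positivity
            linarith
        _ = _ := by rw [hA]; ring
    · rw [indicator_of_notMem hm]
      have h1 := z0 (t + u) (out t u ht hm)
      rw [h1.1, h1.2]
      simp
  have hb0 : ∀ t u, |t - t0| < 1 → u ≠ 0 →
      ‖Up Uc (zt δ) t (t + u) * Bf s δ δ1 (t + u)‖ ≤
        indicator (Icc (-ρ) ρ) (fun u => A * gr |u|) u := by
    intro t u ht hu
    by_cases hm : u ∈ Icc (-ρ) ρ
    · rw [indicator_of_mem hm]
      have hne : t ≠ t + u := by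
        intro h
        exact hu (by linarith)
      have e3 : t - (t + u) = -u := by ring
      have h2 := HU t (t + u) hne
      rw [e3, abs_neg] at h2
      rw [norm_mul]
      have g1 := hgr1 u
      have p0 : 0 ≤ K * ε * CB * gr |u| := by positivity
      have p1 : 0 ≤ K1 * CB1 * gr |u| := by positivity
      calc _ ≤ (K1 * gr |u|) * CB := mul_le_mul h2 (hCB _) (norm_nonneg _)
              ((norm_nonneg _).trans h2)
        _ ≤ K * ε * CB * gr |u| + K1 * CB1 * gr |u| + (K1 * CB) * gr |u| := by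
            linarith
        _ = _ := by rw [hA]; ring
    · rw [indicator_of_notMem hm]
      have h1 := z0 (t + u) (out t u ht hm)
      rw [h1.1]
      simp
  have hball : ∀ t ∈ Metric.ball t0 1, |t - t0| < 1 := fun t ht => by
    simpa [Real.dist_eq] using ht
  have key := hasDerivAt_integral_of_dominated_loc_of_deriv_le (μ := volume) (𝕜 := ℝ)
    (s := Metric.ball t0 1)
    (F := fun t u => Up Uc (zt δ) t (t + u) * Bf s δ δ1 (t + u))
    (F' := fun t u => Q1 δ δ1 t (t + u) * Bf s δ δ1 (t + u) +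
      Up Uc (zt δ) t (t + u) * Bf1 s δ δ1 δ2 (t + u)) (x₀ := t0)
    (bound := indicator (Icc (-ρ) ρ) (fun u => A * gr |u|))
    (Metric.ball_mem_nhds t0 one_pos) ?_ ?_ ?_ ?_ bi ?_
  · exact key.2
  · refine Eventually.of_forall fun t => ?_
    exact ((mU1 t).mul (mB.comp (measurable_const.add measurable_id))).aestronglyMeasurable
  · refine bi.mono' ((mU1 t0).mul (mB.comp (measurable_const.add
      measurable_id))).aestronglyMeasurable ?_
    filter_upwards [ae_ne' 0] with u hu
    exact hb0 t0 u (by simp) hu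
  · exact (((mQ1 t0).mul (mB.comp (measurable_const.add measurable_id))).add
      ((mU1 t0).mul (mB1.comp (measurable_const.add measurable_id)))).aestronglyMeasurable
  · filter_upwards [ae_ne' 0] with u hu t ht
    exact hb t u (hball t ht) hu
  · filter_upwards [ae_ne' 0] with u hu t _
    have d1 : HasDerivAt (fun t => Bf s δ δ1 (t + u)) (Bf1 s δ δ1 δ2 (t + u)) t :=
      (hasDerivAt_Bf D hε (t + u)).comp_add_const t u
    have d2 : HasDerivAt (fun t => zt δ (t + u)) (zd δ1 (t + u)) t :=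
      (hP.der (t + u)).comp_add_const t u
    have d3 := hP.der t
    rcases lt_or_gt_of_ne hu with h | h
    · have f1 : (fun t => Up Uc (zt δ) t (t + u)) = fun t => Uc (zt δ t - zt δ (t + u)) := by
        funext t
        exact Up_of_lt (by linarith)
      have hre := hP.mono (t + u) t (by linarith)
      have hre' : 0 < (zt δ t - zt δ (t + u)).re := by
        have : (0:ℝ) < 1 / 2 * (t - (t + u)) := by
          have : 0 < t - (t + u) := by linarith
          positivity
        linarith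
      have him : |(zt δ t - zt δ (t + u)).im| < l := by
        rw [Complex.sub_im]
        have a1 := hP.im_le t
        have a2 := hP.im_le (t + u)
        exact (abs_sub _ _).trans_lt (by linarith)
      have d4 := (hasDerivAt_Uc hre' him).scomp t (d3.sub d2)
      have d5 : HasDerivAt (fun t => Up Uc (zt δ) t (t + u)) (Q1 δ δ1 t (t + u)) t := by
        rw [f1]
        refine d4.congr_deriv ?_
        have e3 : Q1 δ δ1 t (t + u) = Ud (zt δ t - zt δ (t + u)) * (δ1 t - δ1 (t + u)) :=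
          if_pos (by linarith)
        rw [e3, smul_eq_mul]
        unfold zd
        ring
      exact d5.mul d1
    · have f1 : (fun t => Up Uc (zt δ) t (t + u)) = fun t => Uc (zt δ (t + u) - zt δ t) := by
        funext t
        exact Up_of_le (by linarith)
      have hre := hP.mono t (t + u) (by linarith)
      have hre' : 0 < (zt δ (t + u) - zt δ t).re := by
        have : (0:ℝ) < 1 / 2 * ((t + u) - t) := by
          have : 0 < (t + u) - t := by linarith
          positivity
        linarith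
      have him : |(zt δ (t + u) - zt δ t).im| < l := by
        rw [Complex.sub_im]
        have a1 := hP.im_le t
        have a2 := hP.im_le (t + u)
        exact (abs_sub _ _).trans_lt (by linarith)
      have d4 := (hasDerivAt_Uc hre' him).scomp t (d2.sub d3)
      have d5 : HasDerivAt (fun t => Up Uc (zt δ) t (t + u)) (Q1 δ δ1 t (t + u)) t := by
        rw [f1]
        refine d4.congr_deriv ?_
        have e3 : Q1 δ δ1 t (t + u) = Ud (zt δ (t + u) - zt δ t) * (δ1 (t + u) - δ1 t) :=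
          if_neg (not_lt.2 (by linarith))
        rw [e3, smul_eq_mul]
        unfold zd
        ring
      exact d5.mul d1

end

end NUSea
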