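import Pool.Agent.NUSea.Qfin

/-!
# The constant term of the action

`exists_Spair`: `∫ B_a K_ad B_d = - ∫∫ hd_a k_ad hd_d + O(R⁹ M² ε)`; `exists_S`: the constant term
`S` of the two species gas is `½ ∑∑ ∬ hd_a k_ad hd_d` up to the external potentials and small terms.
-/

set_option autoImplicit false
set_option linter.unusedSectionVars false

open MeasureTheory Set Filter Topology Complex

namespace NUSea

open NUMF (l l_pos w g V)
open NUAct NUKer

noncomputable section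

variable [Sea]

/-- the gas on two admissible curves -/
def gas (s : ℝ) (η η1 : Bool → ℝ → ℝ) (Fe : Bool → ℂ → ℂ) : Gas Bool :=
  two s (fun a => zt (iD (η a))) (fun a => zd (iD (η1 a))) Fe

lemma gas_B (s : ℝ) (η η1 : Bool → ℝ → ℝ) (Fe : Bool → ℂ → ℂ) (a : Bool) (t : ℝ) :
    (gas s η η1 Fe).B a t = Bf s (iD (η a)) (iD (η1 a)) t := rfl

lemma gas_KB (s : ℝ) (η η1 : Bool → ℝ → ℝ) (Fe : Bool → ℂ → ℂ) (a d : Bool) (t : ℝ) :
    (gas s η η1 Fe).KB a d t =
      ∫ y, Kf (fun a => iD (η a)) a d t y * Bf s (iD (η d)) (iD (η1 d)) y := rfl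

lemma path_of_cur {s ε M b : ℝ} {e η η1 : ℝ → ℝ} (hs : 0 ≤ s) (hε : ε ≤ 1 / 20)
    (hc : Cur s ε M b e η) (hη : ∀ t, HasDerivAt η (η1 t) t) :
    Path (l / 7) (1 / 2) 2 (zt (iD η)) (zd (iD η1)) := by
  obtain ⟨η2, h, _⟩ := hc.disp' hs hη
  exact h.path hε

theorem gas_ok {s ε M b : ℝ} {e η η1 : Bool → ℝ → ℝ} {Fe : Bool → ℂ → ℂ} (hs : 0 ≤ s)
    (hε : ε ≤ 1 / 20) (hc : ∀ a, Cur s ε M b (e a) (η a))
    (hη : ∀ a t, HasDerivAt (η a) (η1 a t) t) (hF : ∀ a, Ext (l / 7) (Fe a)) :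
    (gas s η η1 Fe).Ok :=
  two_ok s le_rfl (fun a => path_of_cur hs hε (hc a) (hη a)) hF

/-- the first order term of `K B` -/
theorem exists_KB1 : ∃ K : ℝ, 1 ≤ K ∧ ∀ {s ε M b : ℝ} {e η η1 : Bool → ℝ → ℝ}
    (R : ℝ), 1 ≤ R → b ≤ R → 0 ≤ s → (∀ a, Cur s ε M b (e a) (η a)) →
    (∀ a t, HasDerivAt (η a) (η1 a t) t) → K * R ^ 7 * ε ≤ 1 → ∀ (Fe : Bool → ℂ → ℂ)
    (_ : ∀ a, Ext (l / 7) (Fe a)) (a d : Bool) (t : ℝ), |t| ≤ R →
    ‖(gas s η η1 Fe).KB a d t - I * (NUKer.cv (kR a d) (hd s (η d) (η1 d)) t : ℂ)‖ ≤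
      K * R ^ 8 * (M * ε) ∧ |NUKer.cv (kR a d) (hd s (η d) (η1 d)) t| ≤ K * R ^ 2 * M ∧
      ‖Bf s (iD (η a)) (iD (η1 a)) t‖ ≤ K * M ∧ ‖Br s (iD (η a)) (iD (η1 a)) t‖ ≤ K * (M * ε) := by
  obtain ⟨K0, hK0, HK⟩ := exists_kR
  obtain ⟨K1, hK1, H1⟩ := exists_Kf
  obtain ⟨C, hC, HB⟩ := exists_BB
  obtain ⟨c, hc0, Hw⟩ := exists_win
  refine ⟨20 + K1 + C * (K0 * c + 2 * K1 + 1), by nlinarith [mul_nonneg hK0 hc0], ?_⟩
  intro s ε M b e η η1 R hR hbR hs hcur hη hsm Fe hF a d t ht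
  have hR0 : (0:ℝ) ≤ R := by linarith
  have hε := (hcur true).ε0
  have hM := (hcur true).M0 hs
  have hR7 : 1 ≤ R ^ 7 := one_le_pow₀ hR
  have hCp : 0 < C := by linarith
  have hx : 0 ≤ R ^ 7 * ε := by positivity
  have q0 : 0 ≤ K0 * c := mul_nonneg hK0 hc0
  have q1 : 0 ≤ C * (K0 * c + 2 * K1 + 1) := by positivity
  have hsm' : (20 + K1 + C * (K0 * c + 2 * K1 + 1)) * (R ^ 7 * ε) ≤ 1 := by
    refine le_trans (le_of_eq ?_) hsm
    ring
  have s1 : K1 * R ^ 7 * ε ≤ 1 := by nlinarith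
  have hε20 : ε ≤ 1 / 20 := by
    have : 20 * (R ^ 7 * ε) ≤ 1 := by nlinarith
    have : ε ≤ R ^ 7 * ε := le_mul_of_one_le_left hε hR7
    linarith
  have hBB : ∀ a, BB s (C * (M * ε)) (C * M) b (η a) (η1 a) := fun a =>
    HB hs hε20 (hcur a) (hη a)
  have hok := gas_ok (Fe := Fe) hs hε20 hcur hη hF
  have hMε : 0 ≤ M * ε := mul_nonneg hM hε
  have hC1 : C ≤ 20 + K1 + C * (K0 * c + 2 * K1 + 1) := by nlinarith
  have B1 := hBB d
  refine ⟨?_, ?_, ?_, ?_⟩
  · -- integrability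
    have i1 : Integrable fun y => Kf (fun a => iD (η a)) a d t y *
        Bf s (iD (η d)) (iD (η1 d)) y := hok.iB a d t
    have i2 : Integrable fun y => kR a d (t - y) * hd s (η d) (η1 d) y := by
      have h1 : LocallyIntegrable fun y => kR a d (t - y) := by
        rw [locallyIntegrable_iff]
        intro k hk
        obtain ⟨r, hr⟩ := hk.isBounded.subset_closedBall 0
        rw [Real.closedBall_eq_Icc] at hr
        simp only [zero_sub, zero_add] at hr
        have h7 : Integrable (indicator (Icc (t - r) (t + r)) (kR a d)) := by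
          rw [integrable_indicator_iff measurableSet_Icc]
          exact (kR_li a d).integrableOn_isCompact isCompact_Icc
        have h8 := (h7.comp_sub_left t).integrableOn (s := k)
        refine h8.congr_fun_ae ?_
        filter_upwards [ae_restrict_mem hk.measurableSet] with y hy
        have h9 := hr hy
        exact indicator_of_mem (show t - y ∈ Icc (t - r) (t + r) from
          ⟨by linarith [h9.2], by linarith [h9.1]⟩) _
      have h2 := h1.integrable_smul_right_of_hasCompactSupport B1.hc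
        (hcs_of_zero B1.hsupp)
      exact h2
    have i3 : Integrable fun y => I * ((kR a d (t - y) * hd s (η d) (η1 d) y : ℝ) : ℂ) :=
      i2.ofReal.const_mul I
    have e1 : (gas s η η1 Fe).KB a d t - I * (NUKer.cv (kR a d) (hd s (η d) (η1 d)) t : ℂ) =
        ∫ y, (Kf (fun a => iD (η a)) a d t y * Bf s (iD (η d)) (iD (η1 d)) y -
          I * ((kR a d (t - y) * hd s (η d) (η1 d) y : ℝ) : ℂ)) := by
      rw [integral_sub i1 i3, integral_const_mul, integral_complex_ofReal]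
      rfl
    rw [e1]
    have h1 := Hw R hR t (by linarith) (fun y => Kf (fun a => iD (η a)) a d t y *
        Bf s (iD (η d)) (iD (η1 d)) y -
          I * ((kR a d (t - y) * hd s (η d) (η1 d) y : ℝ) : ℂ)) (K0 * (C * (M * ε)))
        (K1 * R ^ 7 * ε * (C * M)) (by positivity)
        (fun y hy => by
          rw [B1.supp y (lt_of_le_of_lt hbR hy), B1.hsupp y (lt_of_le_of_lt hbR hy)]
          simp)
        (fun y hy hne => by
          have h2 := H1 R hR ε (fun a => iD (η a)) (fun a => iD (η1 a))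
            (fun a => (hcur a).disp (hη a) R) s1 a d t y ht hy hne
          have h3 := HK a d (t - y) (sub_ne_zero.2 (Ne.symm hne))
          have e2 : Kf (fun a => iD (η a)) a d t y * Bf s (iD (η d)) (iD (η1 d)) y -
              I * ((kR a d (t - y) * hd s (η d) (η1 d) y : ℝ) : ℂ) =
              (kR a d (t - y) : ℂ) * Br s (iD (η d)) (iD (η1 d)) y +
              (Kf (fun a => iD (η a)) a d t y - (kR a d (t - y) : ℂ)) *
                Bf s (iD (η d)) (iD (η1 d)) y := by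
            rw [B_eq]
            push_cast
            ring
          rw [e2]
          refine (norm_add_le _ _).trans ?_
          rw [norm_mul, norm_mul, Complex.norm_real, Real.norm_eq_abs]
          have g0 := gr_nonneg (abs_pos.2 (sub_ne_zero.2 (Ne.symm hne)))
          have h4 : |kR a d (t - y)| * ‖Br s (iD (η d)) (iD (η1 d)) y‖ ≤
              (K0 * gr |t - y|) * (C * (M * ε)) :=
            mul_le_mul h3 (B1.rle y) (norm_nonneg _) (by positivity)
          have h5 : ‖Kf (fun a => iD (η a)) a d t y - (kR a d (t - y) : ℂ)‖ *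
              ‖Bf s (iD (η d)) (iD (η1 d)) y‖ ≤ (K1 * R ^ 7 * ε) * (C * M) :=
            mul_le_mul h2 (B1.le y) (norm_nonneg _) (by positivity)
          linarith)
    refine h1.trans ?_
    have h28 : R ^ 2 ≤ R ^ 8 := pow_le_pow_right₀ hR (by norm_num)
    calc K0 * (C * (M * ε)) * (c * R ^ 2) + 2 * R * (K1 * R ^ 7 * ε * (C * M)) =
          C * (K0 * c) * (M * ε) * R ^ 2 + C * (2 * K1) * (M * ε) * R ^ 8 := by ring
      _ ≤ C * (K0 * c) * (M * ε) * R ^ 8 + C * (2 * K1) * (M * ε) * R ^ 8 := by gcongr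
      _ = (C * (K0 * c + 2 * K1)) * (R ^ 8 * (M * ε)) := by ring
      _ ≤ (20 + K1 + C * (K0 * c + 2 * K1 + 1)) * (R ^ 8 * (M * ε)) := by
          refine mul_le_mul_of_nonneg_right ?_ (by positivity)
          nlinarith
      _ = _ := by ring
  · have h1 := Hw R hR t (by linarith) (fun y => ((kR a d (t - y) * hd s (η d) (η1 d) y : ℝ) : ℂ))
      (K0 * (C * M)) 0 (by positivity)
      (fun y hy => by
        rw [B1.hsupp y (lt_of_le_of_lt hbR hy)]
        simp)
      (fun y hy hne => by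
        have h3 := HK a d (t - y) (sub_ne_zero.2 (Ne.symm hne))
        have g0 := gr_nonneg (abs_pos.2 (sub_ne_zero.2 (Ne.symm hne)))
        rw [Complex.norm_real, Real.norm_eq_abs, abs_mul, add_zero]
        calc |kR a d (t - y)| * |hd s (η d) (η1 d) y| ≤ (K0 * gr |t - y|) * (C * M) :=
              mul_le_mul h3 (B1.hle y) (abs_nonneg _) (by positivity)
          _ = _ := by ring)
    rw [integral_complex_ofReal, Complex.norm_real, Real.norm_eq_abs] at h1
    refine h1.trans ?_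
    calc K0 * (C * M) * (c * R ^ 2) + 2 * R * 0 = (C * (K0 * c)) * (R ^ 2 * M) := by ring
      _ ≤ (20 + K1 + C * (K0 * c + 2 * K1 + 1)) * (R ^ 2 * M) := by
          refine mul_le_mul_of_nonneg_right ?_ (by positivity)
          nlinarith
      _ = _ := by ring
  · exact ((hBB a).le t).trans (mul_le_mul_of_nonneg_right hC1 hM)
  · exact ((hBB a).rle t).trans (mul_le_mul_of_nonneg_right hC1 hMε)

/-- the quadratic form of one pair of species -/
theorem exists_Spair : ∃ K : ℝ, 1 ≤ K ∧ ∀ {s ε M b : ℝ} {e η η1 : Bool → ℝ → ℝ}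
    (R : ℝ), 1 ≤ R → b ≤ R → 0 ≤ s → (∀ a, Cur s ε M b (e a) (η a)) →
    (∀ a t, HasDerivAt (η a) (η1 a t) t) → K * R ^ 7 * ε ≤ 1 → ∀ (Fe : Bool → ℂ → ℂ)
    (_ : ∀ a, Ext (l / 7) (Fe a)) (a d : Bool),
    ‖(∫ t, (gas s η η1 Fe).B a t * (gas s η η1 Fe).KB a d t) +
      ((∫ t, hd s (η a) (η1 a) t * NUKer.cv (kR a d) (hd s (η d) (η1 d)) t : ℝ) : ℂ)‖ ≤
      K * R ^ 9 * (M ^ 2 * ε) := by
  obtain ⟨K, hK, H⟩ := exists_KB1
  obtain ⟨C, hC, HB⟩ := exists_BB
  refine ⟨20 + 4 * K ^ 2, by nlinarith, ?_⟩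
  intro s ε M b e η η1 R hR hbR hs hcur hη hsm Fe hF a d
  have hR0 : (0:ℝ) ≤ R := by linarith
  have hε := (hcur true).ε0
  have hM := (hcur true).M0 hs
  have hR7 : 1 ≤ R ^ 7 := one_le_pow₀ hR
  have hx : 0 ≤ R ^ 7 * ε := by positivity
  have hsm' : (20 + 4 * K ^ 2) * (R ^ 7 * ε) ≤ 1 := by
    refine le_trans (le_of_eq ?_) hsm
    ring
  have s1 : K * R ^ 7 * ε ≤ 1 := by nlinarith
  have hε20 : ε ≤ 1 / 20 := by
    have : 20 * (R ^ 7 * ε) ≤ 1 := by nlinarith
    have : ε ≤ R ^ 7 * ε := le_mul_of_one_le_left hε hR7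
    linarith
  have hok := gas_ok (Fe := Fe) hs hε20 hcur hη hF
  have hBB : ∀ a, BB s (C * (M * ε)) (C * M) b (η a) (η1 a) := fun a =>
    HB hs hε20 (hcur a) (hη a)
  have Ba := hBB a
  have Bd := hBB d
  have q2 : Integrable fun t => (gas s η η1 Fe).B a t * (gas s η η1 Fe).KB a d t := by
    refine (hok.p2 a d).integral_prod_left.congr (Eventually.of_forall fun t => ?_)
    simp only [Gas.KB]
    rw [← integral_const_mul]
    refine integral_congr_ae (Eventually.of_forall fun t' => ?_)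
    simp only
    ring
  have hcvc : Continuous (NUKer.cv (kR a d) (hd s (η d) (η1 d))) :=
    cv_cont (kR_li a d) Bd.hc (hcs_of_zero Bd.hsupp)
  have q3 : Integrable fun t => hd s (η a) (η1 a) t * NUKer.cv (kR a d) (hd s (η d) (η1 d)) t := by
    refine (Ba.hc.mul hcvc).integrable_of_hasCompactSupport ?_
    exact (hcs_of_zero Ba.hsupp).mul_right
  have q3' : Integrable fun t => ((hd s (η a) (η1 a) t *
      NUKer.cv (kR a d) (hd s (η d) (η1 d)) t : ℝ) : ℂ) := q3.ofReal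
  rw [← integral_complex_ofReal, ← integral_add q2 q3']
  have h1 := int_norm_bd (A := 2 * K ^ 2 * R ^ 8 * (M ^ 2 * ε)) hR0 (β := fun t =>
      (gas s η η1 Fe).B a t * (gas s η η1 Fe).KB a d t +
      ((hd s (η a) (η1 a) t * NUKer.cv (kR a d) (hd s (η d) (η1 d)) t : ℝ) : ℂ))
    (fun t ht => by
      rw [gas_B, Ba.supp t (lt_of_le_of_lt hbR ht), Ba.hsupp t (lt_of_le_of_lt hbR ht)]
      simp)
    (fun t => by
      rcases le_or_gt |t| R with ht | ht
      · obtain ⟨g1, g2, g3, g4⟩ := H R hR hbR hs hcur hη s1 Fe hF a d t ht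
        have e1 : (gas s η η1 Fe).B a t * (gas s η η1 Fe).KB a d t +
            ((hd s (η a) (η1 a) t * NUKer.cv (kR a d) (hd s (η d) (η1 d)) t : ℝ) : ℂ) =
            Bf s (iD (η a)) (iD (η1 a)) t * ((gas s η η1 Fe).KB a d t -
              I * (NUKer.cv (kR a d) (hd s (η d) (η1 d)) t : ℂ)) +
            Br s (iD (η a)) (iD (η1 a)) t *
              (I * (NUKer.cv (kR a d) (hd s (η d) (η1 d)) t : ℂ)) := by
          rw [gas_B, B_eq]
          push_cast
          linear_combination ((hd s (η a) (η1 a) t : ℂ) *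
            (NUKer.cv (kR a d) (hd s (η d) (η1 d)) t : ℂ)) * Complex.I_sq
        rw [e1]
        refine (norm_add_le _ _).trans ?_
        rw [norm_mul, norm_mul, norm_mul, Complex.norm_I, one_mul, Complex.norm_real,
          Real.norm_eq_abs]
        have m1 : ‖Bf s (iD (η a)) (iD (η1 a)) t‖ * ‖(gas s η η1 Fe).KB a d t -
              I * (NUKer.cv (kR a d) (hd s (η d) (η1 d)) t : ℂ)‖ ≤
            (K * M) * (K * R ^ 8 * (M * ε)) := mul_le_mul g3 g1 (norm_nonneg _) (by positivity)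
        have m2 : ‖Br s (iD (η a)) (iD (η1 a)) t‖ *
            |NUKer.cv (kR a d) (hd s (η d) (η1 d)) t| ≤ (K * (M * ε)) * (K * R ^ 2 * M) :=
          mul_le_mul g4 g2 (abs_nonneg _) (by positivity)
        have h28 : R ^ 2 ≤ R ^ 8 := pow_le_pow_right₀ hR (by norm_num)
        calc _ ≤ (K * M) * (K * R ^ 8 * (M * ε)) + (K * (M * ε)) * (K * R ^ 2 * M) :=
              add_le_add m1 m2
          _ ≤ (K * M) * (K * R ^ 8 * (M * ε)) + (K * (M * ε)) * (K * R ^ 8 * M) := by gcongr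
          _ = _ := by ring
      · rw [gas_B, Ba.supp t (lt_of_le_of_lt hbR ht), Ba.hsupp t (lt_of_le_of_lt hbR ht)]
        simp only [zero_mul, Complex.ofReal_zero, add_zero, norm_zero]
        positivity)
  refine (norm_integral_le_integral_norm _).trans (h1.trans ?_)
  calc 2 * R * (2 * K ^ 2 * R ^ 8 * (M ^ 2 * ε)) = (4 * K ^ 2) * (R ^ 9 * (M ^ 2 * ε)) := by ring
    _ ≤ (20 + 4 * K ^ 2) * (R ^ 9 * (M ^ 2 * ε)) := by
        refine mul_le_mul_of_nonneg_right (by linarith) (by positivity)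
    _ = _ := by ring

/-- the quadratic form of the currents -/
def Ecur (s : ℝ) (η η1 : Bool → ℝ → ℝ) : ℝ :=
  1 / 2 * ∑ a, ∑ d, ∫ t, hd s (η a) (η1 a) t * NUKer.cv (kR a d) (hd s (η d) (η1 d)) t

/-- **the constant term of the action** -/
theorem exists_S : ∃ K : ℝ, 1 ≤ K ∧ ∀ {s ε M b : ℝ} {e η η1 : Bool → ℝ → ℝ}
    (R : ℝ), 1 ≤ R → b ≤ R → 0 ≤ s → (∀ a, Cur s ε M b (e a) (η a)) →
    (∀ a t, HasDerivAt (η a) (η1 a t) t) → K * R ^ 7 * ε ≤ 1 → ∀ (Fe : Bool → ℂ → ℂ)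
    (_ : ∀ a, Ext (l / 7) (Fe a)),
    |(gas s η η1 Fe).S - ((∑ a, (∫ t : ℝ, ((s * P t : ℝ) : ℂ) * Fe a t) -
      ∑ a, (∫ t, Bf s (iD (η a)) (iD (η1 a)) t * Fe a (zt (iD (η a)) t))).re + Ecur s η η1)| ≤
      K * R ^ 9 * (M ^ 2 * ε) := by
  obtain ⟨K, hK, H⟩ := exists_Spair
  refine ⟨2 * K, by linarith, ?_⟩
  intro s ε M b e η η1 R hR hbR hs hcur hη hsm Fe hF
  have hε := (hcur true).ε0
  have hM := (hcur true).M0 hs
  have hx : 0 ≤ R ^ 7 * ε := by positivity
  have s1 : K * R ^ 7 * ε ≤ 1 := by nlinarith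
  have e1 : (gas s η η1 Fe).S - ((∑ a, (∫ t : ℝ, ((s * P t : ℝ) : ℂ) * Fe a t) -
      ∑ a, (∫ t, Bf s (iD (η a)) (iD (η1 a)) t * Fe a (zt (iD (η a)) t))).re + Ecur s η η1) =
      -(1 / 2) * (∑ a, ∑ d, ((∫ t, (gas s η η1 Fe).B a t * (gas s η η1 Fe).KB a d t) +
      ((∫ t, hd s (η a) (η1 a) t * NUKer.cv (kR a d) (hd s (η d) (η1 d)) t : ℝ) : ℂ))).re := by
    have e2 : (gas s η η1 Fe).S = (∑ a, (∫ t : ℝ, ((s * P t : ℝ) : ℂ) * Fe a t) -
      ∑ a, (∫ t, Bf s (iD (η a)) (iD (η1 a)) t * Fe a (zt (iD (η a)) t)) -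
      (1 / 2) * ∑ a, ∑ d, (∫ t, (gas s η η1 Fe).B a t * (gas s η η1 Fe).KB a d t)).re := rfl
    rw [e2, Complex.sub_re]
    simp_rw [Finset.sum_add_distrib]
    rw [Complex.add_re]
    have e3 : ((1 / 2 : ℂ) * ∑ a, ∑ d, (∫ t, (gas s η η1 Fe).B a t *
        (gas s η η1 Fe).KB a d t)).re = 1 / 2 * (∑ a, ∑ d, (∫ t, (gas s η η1 Fe).B a t *
        (gas s η η1 Fe).KB a d t)).re := by
      rw [show (1 / 2 : ℂ) = ((1 / 2 : ℝ) : ℂ) by push_cast; ring, Complex.re_ofReal_mul]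
    rw [e3]
    have e4 : (∑ a, ∑ d, ((∫ t, hd s (η a) (η1 a) t *
        NUKer.cv (kR a d) (hd s (η d) (η1 d)) t : ℝ) : ℂ)).re = 2 * Ecur s η η1 := by
      unfold Ecur
      rw [Complex.re_sum]
      simp_rw [Complex.re_sum, Complex.ofReal_re]
      ring
    rw [e4]
    ring
  rw [e1, abs_mul, abs_neg, abs_of_pos (by norm_num : (0:ℝ) < 1 / 2)]
  have h1 : |(∑ a, ∑ d, ((∫ t, (gas s η η1 Fe).B a t * (gas s η η1 Fe).KB a d t) +
      ((∫ t, hd s (η a) (η1 a) t * NUKer.cv (kR a d) (hd s (η d) (η1 d)) t : ℝ) : ℂ))).re| ≤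
      ∑ a : Bool, ∑ d : Bool, K * R ^ 9 * (M ^ 2 * ε) := by
    refine (Complex.abs_re_le_norm _).trans ((norm_sum_le _ _).trans ?_)
    refine Finset.sum_le_sum fun a _ => (norm_sum_le _ _).trans ?_
    exact Finset.sum_le_sum fun d _ => H R hR hbR hs hcur hη s1 Fe hF a d
  have h2 : ∑ a : Bool, ∑ d : Bool, K * R ^ 9 * (M ^ 2 * ε) = 4 * (K * R ^ 9 * (M ^ 2 * ε)) := by
    simp only [Fintype.sum_bool]
    ring
  rw [h2] at h1
  linarith

/-- equal curves: `Ecur = ∬ h' V h'` -/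
theorem Ecur_same {s ε M b : ℝ} {e : ℝ → ℝ} {η η1 : ℝ → ℝ} (hs : 0 ≤ s) (hε : ε ≤ 1 / 20)
    (hc : Cur s ε M b e η) (hη : ∀ t, HasDerivAt η (η1 t) t) :
    Ecur s (fun _ => η) (fun _ => η1) = ∫ t, hd s η η1 t * ∫ y, V (t - y) * hd s η η1 y := by
  obtain ⟨C, hC, HB⟩ := exists_BB
  have B := HB hs hε hc hη
  have cs := hcs_of_zero B.hsupp
  have c1 := cv_cont NUR2.Uw_li B.hc cs
  have c2 := cv_cont NUR2.Ug_li B.hc cs
  have i1 : Integrable fun t => hd s η η1 t * NUKer.cv NUR2.Uw (hd s η η1) t :=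
    (B.hc.mul c1).integrable_of_hasCompactSupport cs.mul_right
  have i2 : Integrable fun t => hd s η η1 t * NUKer.cv NUR2.Ug (hd s η η1) t :=
    (B.hc.mul c2).integrable_of_hasCompactSupport cs.mul_right
  have e1 : kR true true = NUR2.Uw ∧ kR false false = NUR2.Uw ∧ kR true false = NUR2.Ug ∧
      kR false true = NUR2.Ug := by
    refine ⟨?_, ?_, ?_, ?_⟩ <;> funext u <;> simp [kR]
  unfold Ecur
  simp only [Fintype.sum_bool]
  rw [e1.1, e1.2.1, e1.2.2.1, e1.2.2.2]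
  have e2 : ∫ t, hd s η η1 t * ∫ y, V (t - y) * hd s η η1 y =
      (∫ t, hd s η η1 t * NUKer.cv NUR2.Uw (hd s η η1) t) +
      ∫ t, hd s η η1 t * NUKer.cv NUR2.Ug (hd s η η1) t := by
    rw [← integral_add i1 i2]
    refine integral_congr_ae (Eventually.of_forall fun t => ?_)
    simp only
    rw [← mul_add]
    congr 1
    unfold NUKer.cv
    have j : ∀ {U : ℝ → ℝ}, LocallyIntegrable U → Integrable fun y => U (t - y) * hd s η η1 y := by
      intro U hU
      have h1 : LocallyIntegrable fun y => U (t - y) := by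
        rw [locallyIntegrable_iff]
        intro k hk
        obtain ⟨r, hr⟩ := hk.isBounded.subset_closedBall 0
        rw [Real.closedBall_eq_Icc] at hr
        simp only [zero_sub, zero_add] at hr
        have h7 : Integrable (indicator (Icc (t - r) (t + r)) U) := by
          rw [integrable_indicator_iff measurableSet_Icc]
          exact hU.integrableOn_isCompact isCompact_Icc
        have h8 := (h7.comp_sub_left t).integrableOn (s := k)
        refine h8.congr_fun_ae ?_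
        filter_upwards [ae_restrict_mem hk.measurableSet] with y hy
        have h9 := hr hy
        exact indicator_of_mem (show t - y ∈ Icc (t - r) (t + r) from
          ⟨by linarith [h9.2], by linarith [h9.1]⟩) _
      exact h1.integrable_smul_right_of_hasCompactSupport B.hc cs
    rw [← integral_add (j NUR2.Uw_li) (j NUR2.Ug_li)]
    refine integral_congr_ae ?_
    filter_upwards [ae_ne' t] with y hy
    rw [V_eq (sub_ne_zero.2 (Ne.symm hy))]
    unfold NUR2.Uw NUR2.Ug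
    ring
  rw [e2]
  ring

end

end NUSea
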